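import Pool.Agent.FLG.Defs

/-!
# Basic lemmas for FatLadder (MP_edbb78_co)
-/

universe u

namespace FatLadder

open SimpleGraph

variable {V : Type u} {G : SimpleGraph V}

/-! ## Connected sets -/

theorem sc_singleton (x : V) : SC G {x} := by
  intro a ha b hb
  obtain rfl : a = x := ha
  obtain rfl : b = a := hb
  exact ⟨Walk.nil, by simp⟩

theorem sc_empty : SC G (∅ : Set V) := by
  intro a ha; exact absurd ha (Set.notMem_empty a)

theorem SC.union {A B : Set V} (hA : SC G A) (hB : SC G B) (h : (A ∩ B).Nonempty) :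
    SC G (A ∪ B) := by
  obtain ⟨c, hcA, hcB⟩ := h
  have key : ∀ x ∈ A ∪ B, ∃ p : G.Walk x c, ∀ z ∈ p.support, z ∈ A ∪ B := by
    intro x hx
    rcases hx with hx | hx
    · obtain ⟨p, hp⟩ := hA x hx c hcA
      exact ⟨p, fun z hz => Or.inl (hp z hz)⟩
    · obtain ⟨p, hp⟩ := hB x hx c hcB
      exact ⟨p, fun z hz => Or.inr (hp z hz)⟩
  intro x hx y hy
  obtain ⟨p, hp⟩ := key x hx
  obtain ⟨q, hq⟩ := key y hy
  refine ⟨p.append q.reverse, fun z hz => ?_⟩
  rw [Walk.mem_support_append_iff] at hz
  rcases hz with hz | hz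
  · exact hp z hz
  · rw [Walk.support_reverse, List.mem_reverse] at hz
    exact hq z hz

theorem SC.pair {a b : V} (h : G.Adj a b) : SC G {a, b} := by
  have key : ∀ x ∈ ({a, b} : Set V), ∃ p : G.Walk x a, ∀ z ∈ p.support, z ∈ ({a, b} : Set V) := by
    intro x hx
    rcases hx with rfl | hx
    · exact ⟨Walk.nil, by simp⟩
    · obtain rfl : x = b := hx
      exact ⟨Walk.cons h.symm Walk.nil, by simp⟩
  intro x hx y hy
  obtain ⟨p, hp⟩ := key x hx
  obtain ⟨q, hq⟩ := key y hy
  refine ⟨p.append q.reverse, fun z hz => ?_⟩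
  rw [Walk.mem_support_append_iff] at hz
  rcases hz with hz | hz
  · exact hp z hz
  · rw [Walk.support_reverse, List.mem_reverse] at hz
    exact hq z hz

theorem SC.insert_adj {A : Set V} (hA : SC G A) {a u : V} (ha : a ∈ A) (h : G.Adj a u) :
    SC G (insert u A) := by
  have h1 : insert u A = A ∪ {a, u} := by
    ext z; constructor
    · rintro (rfl | hz)
      · exact Or.inr (Or.inr rfl)
      · exact Or.inl hz
    · rintro (hz | hz)
      · exact Or.inr hz
      · rcases hz with rfl | hz
        · exact Or.inr ha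
        · exact Or.inl hz
  rw [h1]
  exact hA.union (SC.pair h) ⟨a, ha, Or.inl rfl⟩

theorem SC.union_adj {A B : Set V} (hA : SC G A) (hB : SC G B) {a b : V} (ha : a ∈ A)
    (hb : b ∈ B) (h : G.Adj a b) : SC G (A ∪ B) := by
  have h1 := (hA.insert_adj ha h).union hB ⟨b, Or.inl rfl, hb⟩
  have h2 : insert b A ∪ B = A ∪ B := by
    ext z; constructor
    · rintro ((rfl | hz) | hz)
      · exact Or.inr hb
      · exact Or.inl hz
      · exact Or.inr hz
    · rintro (hz | hz)
      · exact Or.inl (Or.inr hz)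
      · exact Or.inr hz
  rwa [h2] at h1

/-- A set all of whose points are joined inside the set to a fixed point is connected. -/
theorem sc_of_center {A : Set V} (c : V)
    (h : ∀ x ∈ A, ∃ p : G.Walk x c, ∀ z ∈ p.support, z ∈ A) : SC G A := by
  intro x hx y hy
  obtain ⟨p, hp⟩ := h x hx
  obtain ⟨q, hq⟩ := h y hy
  refine ⟨p.append q.reverse, fun z hz => ?_⟩
  rw [Walk.mem_support_append_iff] at hz
  rcases hz with hz | hz
  · exact hp z hz
  · rw [Walk.support_reverse, List.mem_reverse] at hz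
    exact hq z hz

/-- A connected set together with connected sets meeting it. -/
theorem SC.union_biUnion {X : Set V} (hX : SC G X) {κ : Type*} (J : Set κ) (T : κ → Set V)
    (hT : ∀ j ∈ J, SC G (T j)) (hm : ∀ j ∈ J, (T j ∩ X).Nonempty) :
    SC G (X ∪ ⋃ j ∈ J, T j) := by
  classical
  rcases X.eq_empty_or_nonempty with h0 | ⟨c, hc⟩
  · have : J = ∅ := by
      rw [Set.eq_empty_iff_forall_notMem]
      intro j hj
      obtain ⟨x, -, hx⟩ := hm j hj
      rw [h0] at hx; exact hx
    rw [h0, this]; simp [sc_empty]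
  · apply sc_of_center c
    intro x hx
    rcases hx with hx | hx
    · obtain ⟨p, hp⟩ := hX x hx c hc
      exact ⟨p, fun z hz => Or.inl (hp z hz)⟩
    · simp only [Set.mem_iUnion] at hx
      obtain ⟨j, hj, hx⟩ := hx
      obtain ⟨y, hyT, hyX⟩ := hm j hj
      obtain ⟨p, hp⟩ := hT j hj x hx y hyT
      obtain ⟨q, hq⟩ := hX y hyX c hc
      refine ⟨p.append q, fun z hz => ?_⟩
      rw [Walk.mem_support_append_iff] at hz
      rcases hz with hz | hz
      · refine Or.inr ?_
        simp only [Set.mem_iUnion]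
        exact ⟨j, hj, hp z hz⟩
      · exact Or.inl (hq z hz)

/-- The support of a walk is connected. -/
theorem sc_support {x y : V} (p : G.Walk x y) : SC G {z | z ∈ p.support} := by
  classical
  have : {z | z ∈ p.support} = {z | z ∈ p.reverse.support} := by
    ext z; simp
  apply sc_of_center y
  intro z hz
  refine ⟨p.dropUntil z hz, fun w hw => ?_⟩
  exact p.support_dropUntil_subset_support hz hw

/-! ## Geodesics -/

/-- a geodesic walk with its distance property -/
theorem exists_geod (hG : G.Connected) (x y : V) :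
    ∃ p : G.Walk x y, p.length = G.dist x y ∧
      ∀ z ∈ p.support, G.dist x z + G.dist z y = G.dist x y := by
  classical
  obtain ⟨p, hp⟩ := hG.exists_walk_length_eq_dist x y
  refine ⟨p, hp, fun z hz => ?_⟩
  have h1 : (p.takeUntil z hz).length + (p.dropUntil z hz).length = p.length := by
    conv_rhs => rw [← p.take_spec hz]
    rw [Walk.length_append]
  have h2 := SimpleGraph.dist_le (p.takeUntil z hz)
  have h3 := SimpleGraph.dist_le (p.dropUntil z hz)
  have h4 := hG.dist_triangle (u := x) (v := z) (w := y)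
  omega

/-- the vertex set of a geodesic -/
theorem exists_geod_set (hG : G.Connected) (x y : V) :
    ∃ P : Set V, x ∈ P ∧ y ∈ P ∧ SC G P ∧ ∀ z ∈ P, G.dist x z + G.dist z y = G.dist x y := by
  obtain ⟨p, -, hp⟩ := exists_geod hG x y
  exact ⟨{z | z ∈ p.support}, p.start_mem_support, p.end_mem_support, sc_support p, hp⟩

/-- next vertex on a geodesic -/
theorem exists_next (hG : G.Connected) {x y : V} (h : x ≠ y) :
    ∃ u, G.Adj x u ∧ G.dist u y + 1 = G.dist x y := by
  obtain ⟨p, hp⟩ := hG.exists_walk_length_eq_dist x y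
  cases p with
  | nil => exact absurd rfl h
  | @cons _ u _ hadj q =>
    refine ⟨u, hadj, ?_⟩
    rw [Walk.length_cons] at hp
    have h1 := SimpleGraph.dist_le q
    have h2 := hG.dist_triangle (u := x) (v := u) (w := y)
    have h3 : G.dist x u = 1 := SimpleGraph.dist_eq_one_iff_adj.mpr hadj
    omega

theorem sc_ball (hG : G.Connected) (a : V) (r : ℕ) : SC G (Ball G a r) := by
  apply sc_of_center a
  intro x hx
  obtain ⟨p, -, hp⟩ := exists_geod hG x a
  refine ⟨p, fun z hz => ?_⟩
  have := hp z hz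
  have hx' : G.dist a x ≤ r := hx
  show G.dist a z ≤ r
  rw [SimpleGraph.dist_comm (u := a) (v := z)]
  rw [SimpleGraph.dist_comm (u := a) (v := x)] at hx'
  omega

/-! ## Walks: first hit and last exit -/

theorem first_hit {x y : V} (p : G.Walk x y) (Pr : V → Prop) (hy : Pr y) :
    ∃ (z : V) (q : G.Walk x z), Pr z ∧ (∀ w ∈ q.support, w ∈ p.support) ∧
      ∀ w ∈ q.support, Pr w → w = z := by
  classical
  induction p with
  | nil => exact ⟨_, Walk.nil, hy, by simp, by simp⟩
  | @cons a b c hadj q ih =>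
    by_cases ha : Pr a
    · exact ⟨a, Walk.nil, ha, by simp, by simp⟩
    · obtain ⟨z, r, hz, hr, hr2⟩ := ih hy
      refine ⟨z, Walk.cons hadj r, hz, ?_, ?_⟩
      · intro w hw
        rw [Walk.support_cons, List.mem_cons] at hw
        rw [Walk.support_cons, List.mem_cons]
        rcases hw with hw | hw
        · exact Or.inl hw
        · exact Or.inr (hr w hw)
      · intro w hw hPw
        rw [Walk.support_cons, List.mem_cons] at hw
        rcases hw with hw | hw
        · exact absurd (hw ▸ hPw) ha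
        · exact hr2 w hw hPw

theorem last_exit {x y : V} (p : G.Walk x y) (Pr : V → Prop) (hx : Pr x) :
    ∃ (z : V) (q : G.Walk z y), Pr z ∧ (∀ w ∈ q.support, w ∈ p.support) ∧
      ∀ w ∈ q.support, Pr w → w = z := by
  obtain ⟨z, q, hz, hq, hq2⟩ := first_hit p.reverse Pr hx
  refine ⟨z, q.reverse, hz, ?_, ?_⟩
  · intro w hw
    rw [Walk.support_reverse, List.mem_reverse] at hw
    have := hq w hw
    rwa [Walk.support_reverse, List.mem_reverse] at this
  · intro w hw hPw
    rw [Walk.support_reverse, List.mem_reverse] at hw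
    exact hq2 w hw hPw

/-! ## Balls -/

theorem ball_succ (hG : G.Connected) (a : V) (r : ℕ) :
    Ball G a (r + 1) ⊆ Ball G a r ∪ ⋃ w ∈ Ball G a r, G.neighborSet w := by
  intro z hz
  have hz' : G.dist a z ≤ r + 1 := hz
  by_cases h : G.dist a z ≤ r
  · exact Or.inl h
  · right
    have hne : z ≠ a := by
      rintro rfl
      simp at h
    obtain ⟨u, hu, hu2⟩ := exists_next hG hne
    simp only [Set.mem_iUnion]
    refine ⟨u, ?_, ?_⟩
    · show G.dist a u ≤ r
      rw [SimpleGraph.dist_comm]
      rw [SimpleGraph.dist_comm (u := a) (v := z)] at hz'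
      omega
    · exact hu.symm

theorem ball_ncard [Finite V] (hG : G.Connected) {d : ℕ} (hd : DegLe G d) (a : V) (r : ℕ) :
    (Ball G a r).ncard ≤ (d + 1) ^ r := by
  classical
  induction r with
  | zero =>
    have : Ball G a 0 = {a} := by
      ext z
      constructor
      · intro hz
        have hz' : G.dist a z ≤ 0 := hz
        have : G.dist a z = 0 := by omega
        have := (hG.dist_eq_zero_iff).mp this
        exact this.symm
      · intro hz
        obtain rfl : z = a := hz
        show G.dist z z ≤ 0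
        simp
    rw [this]; simp
  | succ r ih =>
    have h1 := Set.ncard_le_ncard (ball_succ hG a r) (Set.toFinite _)
    have h2 := Set.ncard_union_le (Ball G a r) (⋃ w ∈ Ball G a r, G.neighborSet w)
    have h3 : (⋃ w ∈ Ball G a r, G.neighborSet w).ncard ≤ (Ball G a r).ncard * d := by
      have hfin : (Ball G a r).Finite := Set.toFinite _
      have e1 : (⋃ w ∈ Ball G a r, G.neighborSet w)
          = ((hfin.toFinset.biUnion fun w => (Set.toFinite (G.neighborSet w)).toFinset : Finset V) : Set V) := by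
        ext z; simp
      rw [e1, Set.ncard_coe_finset]
      refine (Finset.card_biUnion_le_card_mul _ _ d ?_).trans ?_
      · intro w _
        have := hd w
        rwa [Set.ncard_eq_toFinset_card _ (Set.toFinite _)] at this
      · rw [Set.ncard_eq_toFinset_card _ hfin]
    calc (Ball G a (r + 1)).ncard ≤ (Ball G a r).ncard + (Ball G a r).ncard * d := by omega
      _ = (Ball G a r).ncard * (d + 1) := by ring
      _ ≤ (d + 1) ^ r * (d + 1) := Nat.mul_le_mul_right _ ih
      _ = (d + 1) ^ (r + 1) := by ring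

/-- Pairwise disjoint sets meeting a ball are few. -/
theorem card_le_of_meet_ball [Finite V] (hG : G.Connected) {d : ℕ} (hd : DegLe G d) (a : V)
    (r : ℕ) {κ : Type*} (J : Finset κ) (T : κ → Set V)
    (hdis : ∀ i ∈ J, ∀ j ∈ J, ∀ z, z ∈ T i → z ∈ T j → i = j)
    (hmeet : ∀ i ∈ J, ∃ z ∈ T i, G.dist a z ≤ r) : J.card ≤ (d + 1) ^ r := by
  classical
  have hmeet' : ∀ i, ∃ z, i ∈ J → z ∈ T i ∧ G.dist a z ≤ r := by
    intro i
    by_cases hi : i ∈ J
    · obtain ⟨z, hz, hz2⟩ := hmeet i hi
      exact ⟨z, fun _ => ⟨hz, hz2⟩⟩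
    · exact ⟨a, fun h => absurd h hi⟩
  choose f hf using hmeet'
  have h1 : J.card ≤ (Ball G a r).ncard := by
    rw [Set.ncard_eq_toFinset_card _ (Set.toFinite _)]
    apply Finset.card_le_card_of_injOn f
    · intro i hi
      simp only [Set.Finite.coe_toFinset]
      exact (hf i hi).2
    · intro i hi j hj hij
      exact hdis i hi j hj (f i) (hf i hi).1 (hij ▸ (hf j hj).1)
  exact h1.trans (ball_ncard hG hd a r)

/-! ## Far -/

theorem Far.symm {r : ℕ} {A B : Set V} (h : Far G r A B) : Far G r B A := by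
  intro b hb a ha
  rw [SimpleGraph.dist_comm]
  exact h a ha b hb

theorem Far.mono {r r' : ℕ} {A B A' B' : Set V} (h : Far G r A B) (hr : r' ≤ r) (hA : A' ⊆ A)
    (hB : B' ⊆ B) : Far G r' A' B' :=
  fun a ha b hb => hr.trans (h a (hA ha) b (hB hb))

theorem Far.union_left {r : ℕ} {A A' B : Set V} (h : Far G r A B) (h' : Far G r A' B) :
    Far G r (A ∪ A') B := by
  rintro a (ha | ha) b hb
  · exact h a ha b hb
  · exact h' a ha b hb

theorem Far.union_right {r : ℕ} {A B B' : Set V} (h : Far G r A B) (h' : Far G r A B') :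
    Far G r A (B ∪ B') := by
  rintro a ha b (hb | hb)
  · exact h a ha b hb
  · exact h' a ha b hb

/-- removing a vertex of a connected finite set such that it stays connected -/
theorem SC.exists_remove [Finite V] {X : Set V} (hX : SC G X) (hne : X.Nonempty)
    (h1 : ¬ ∃ c, X = {c}) :
    ∃ x ∈ X, ∃ x' ∈ X, x' ≠ x ∧ G.Adj x x' ∧ SC G (X \ {x}) := by
  classical
  obtain ⟨c, hc⟩ := hne
  have hex : ∀ y ∈ X, ∃ n, ∃ p : G.Walk c y, (∀ z ∈ p.support, z ∈ X) ∧ p.length = n := by
    intro y hy
    obtain ⟨p, hp⟩ := hX c hc y hy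
    exact ⟨p.length, p, hp, rfl⟩
  let ℓ : V → ℕ := fun y => if hy : y ∈ X then Nat.find (hex y hy) else 0
  have hℓ : ∀ y (hy : y ∈ X), ∃ p : G.Walk c y, (∀ z ∈ p.support, z ∈ X) ∧ p.length = ℓ y := by
    intro y hy
    have := Nat.find_spec (hex y hy)
    simp only [ℓ, dif_pos hy]
    exact this
  have hℓ2 : ∀ y (_ : y ∈ X) (p : G.Walk c y), (∀ z ∈ p.support, z ∈ X) → ℓ y ≤ p.length := by
    intro y hy p hp
    simp only [ℓ, dif_pos hy]
    exact Nat.find_min' (hex y hy) ⟨p, hp, rfl⟩
  obtain ⟨x, hx, hmax⟩ := Set.exists_max_image X ℓ (Set.toFinite X) ⟨c, hc⟩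
  -- x ≠ c
  have hxc : x ≠ c := by
    rintro rfl
    apply h1
    refine ⟨x, Set.eq_singleton_iff_unique_mem.mpr ⟨hx, fun y hy => ?_⟩⟩
    have h2 : ℓ x ≤ 0 := by
      have := hℓ2 x hx Walk.nil (by simpa using hx)
      simpa using this
    have h3 := hmax y hy
    obtain ⟨p, -, hp⟩ := hℓ y hy
    have h4 : p.length = 0 := by omega
    exact (Walk.eq_of_length_eq_zero h4).symm
  have hmain : ∀ y ∈ X \ {x}, ∃ p : G.Walk c y, ∀ z ∈ p.support, z ∈ X \ {x} := by
    intro y hy
    obtain ⟨p, hp, hp2⟩ := hℓ y hy.1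
    refine ⟨p, fun z hz => ⟨hp z hz, ?_⟩⟩
    rintro rfl
    have h2 := hℓ2 z hx (p.takeUntil z hz)
      (fun w hw => hp w (p.support_takeUntil_subset_support hz hw))
    have h3 : (p.takeUntil z hz).length + (p.dropUntil z hz).length = p.length := by
      conv_rhs => rw [← p.take_spec hz]
      rw [Walk.length_append]
    have h4 := hmax y hy.1
    have h5 : (p.dropUntil z hz).length = 0 := by omega
    have h6 := Walk.eq_of_length_eq_zero h5
    exact hy.2 h6.symm
  obtain ⟨p, hp, hp2⟩ := hℓ x hx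
  have hlast : ∃ x' ∈ X, x' ≠ x ∧ G.Adj x x' := by
    obtain ⟨q, hq⟩ : ∃ q : G.Walk x c, ∀ z ∈ q.support, z ∈ X :=
      ⟨p.reverse, fun z hz => hp z (by simpa using hz)⟩
    cases q with
    | nil => exact absurd rfl hxc
    | @cons _ u _ hadj q =>
      exact ⟨u, hq u (by rw [Walk.support_cons]; exact List.mem_cons_of_mem _ q.start_mem_support),
        hadj.ne', hadj⟩
  obtain ⟨x', hx', hne, hadj⟩ := hlast
  refine ⟨x, hx, x', hx', hne, hadj, ?_⟩
  intro y hy z hz
  obtain ⟨p1, hp1⟩ := hmain y hy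
  obtain ⟨p2, hp2⟩ := hmain z hz
  refine ⟨p1.reverse.append p2, fun w hw => ?_⟩
  rw [Walk.mem_support_append_iff] at hw
  rcases hw with hw | hw
  · exact hp1 w (by simpa using hw)
  · exact hp2 w hw

end FatLadder
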