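import Pool.Agent.FLG.Defs

/-!
# MP_edbb78_co, job FLG-BREAK: breakpoints on an isometric path
-/

universe u

namespace FatLadder

open SimpleGraph

namespace BreakJob

variable {V : Type u} {G : SimpleGraph V}

/-- walk along `P` from index `i` to index `i + n` -/
lemma along {a b : V} (P : G.Walk a b) (i n : ℕ) (h : i + n ≤ P.length) :
    ∃ W : G.Walk (P.getVert i) (P.getVert (i + n)), W.length = n ∧
      ∀ k ≤ n, P.getVert (i + k) ∈ W.support := by
  induction n with
  | zero =>
    refine ⟨Walk.nil, rfl, ?_⟩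
    intro k hk
    obtain rfl : k = 0 := by omega
    simp
  | succ n ih =>
    obtain ⟨W, hW, hs⟩ := ih (by omega)
    have hadj : G.Adj (P.getVert (i + n)) (P.getVert (i + n + 1)) :=
      P.adj_getVert_succ (by omega)
    refine ⟨W.concat hadj, by rw [Walk.length_concat, hW], ?_⟩
    intro k hk
    rw [Walk.support_concat]
    rcases Nat.lt_or_ge n k with h1 | h1
    · obtain rfl : k = n + 1 := by omega
      simp
    · simp [hs k h1]

lemma dist_le {a b : V} (P : G.Walk a b) (i n : ℕ) (h : i + n ≤ P.length) :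
    G.dist (P.getVert i) (P.getVert (i + n)) ≤ n := by
  obtain ⟨W, hW, _⟩ := along P i n h
  exact (SimpleGraph.dist_le W).trans hW.le

/-- cover by a list of rooted isometric paths -/
def Cov (G : SimpleGraph V) (v : V) (N : ℕ) (S : Set V) : Prop :=
  ∃ L : List (Σ w, G.Walk v w), L.length ≤ N ∧
    (∀ q ∈ L, q.2.IsPath ∧ q.2.length = G.dist v q.1) ∧ ∀ x ∈ S, ∃ q ∈ L, x ∈ q.2.support

lemma Cov.covered {v : V} {N : ℕ} {S : Set V} (h : Cov G v N S) : CoveredBy G v N S := by
  obtain ⟨L, h1, h2, h3⟩ := h
  refine ⟨L.length, fun i => (L.get i).1, fun i => (L.get i).2, h1,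
    fun i => h2 _ (L.get_mem i), ?_⟩
  intro x hx
  obtain ⟨q, hq, hxq⟩ := h3 x hx
  obtain ⟨i, hi⟩ := List.get_of_mem hq
  subst hi
  exact ⟨i, hxq⟩

/-- a block with monotone distance lies on one rooted isometric path -/
lemma block (hG : G.Connected) (v : V) {a b : V} (P : G.Walk a b) (s n : ℕ)
    (h : s + n ≤ P.length)
    (hm : (G.dist v (P.getVert (s + n)) : ℤ) = G.dist v (P.getVert s) + n ∨
      (G.dist v (P.getVert (s + n)) : ℤ) = G.dist v (P.getVert s) - n) :
    ∃ q : Σ w, G.Walk v w, (q.2.IsPath ∧ q.2.length = G.dist v q.1) ∧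
      ∀ k ≤ n, P.getVert (s + k) ∈ q.2.support := by
  obtain ⟨W, hW, hs⟩ := along P s n h
  rcases hm with hm | hm
  · obtain ⟨R, hR⟩ := hG.exists_walk_length_eq_dist v (P.getVert s)
    have hlen : (R.append W).length = G.dist v (P.getVert (s + n)) := by
      rw [Walk.length_append, hR, hW]
      omega
    refine ⟨⟨_, R.append W⟩, ⟨Walk.isPath_of_length_eq_dist _ hlen, hlen⟩, ?_⟩
    intro k hk
    rw [Walk.mem_support_append_iff]
    exact Or.inr (hs k hk)
  · obtain ⟨R, hR⟩ := hG.exists_walk_length_eq_dist v (P.getVert (s + n))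
    have hlen : (R.append W.reverse).length = G.dist v (P.getVert s) := by
      rw [Walk.length_append, hR, Walk.length_reverse, hW]
      omega
    refine ⟨⟨_, R.append W.reverse⟩, ⟨Walk.isPath_of_length_eq_dist _ hlen, hlen⟩, ?_⟩
    intro k hk
    rw [Walk.mem_support_append_iff, Walk.support_reverse, List.mem_reverse]
    exact Or.inr (hs k hk)

/-- chain of breakpoints starting at `s` -/
def Chain (G : SimpleGraph V) (v : V) {a b : V} (P : G.Walk a b) (s N : ℕ) : Prop :=
  ∃ br : ℕ → ℕ, br 0 = s ∧ (∀ j < N, br j < br (j + 1)) ∧ br N ≤ P.length ∧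
    ∀ j < N, |(G.dist v (P.getVert (br (j + 1))) : ℤ) - G.dist v (P.getVert (br j))|
      < (br (j + 1) : ℤ) - br j

lemma lip (hG : G.Connected) (v : V) {a b : V} (P : G.Walk a b) (i n : ℕ)
    (h : i + n ≤ P.length) :
    |(G.dist v (P.getVert (i + n)) : ℤ) - G.dist v (P.getVert i)| ≤ n := by
  have h1 := dist_le P i n h
  have h2 : G.dist v (P.getVert (i + n)) ≤
      G.dist v (P.getVert i) + G.dist (P.getVert i) (P.getVert (i + n)) := hG.dist_triangle
  have h3 : G.dist v (P.getVert i) ≤
      G.dist v (P.getVert (i + n)) + G.dist (P.getVert (i + n)) (P.getVert i) :=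
    hG.dist_triangle
  rw [G.dist_comm (u := P.getVert (i + n))] at h3
  rw [abs_le]
  constructor <;> omega

/-- the monotone block -/
lemma block' (hG : G.Connected) (v : V) {a b : V} (P : G.Walk a b) (s n : ℕ)
    (h : s + n ≤ P.length)
    (hm : ¬ |(G.dist v (P.getVert (s + n)) : ℤ) - G.dist v (P.getVert s)| < n) :
    ∃ q : Σ w, G.Walk v w, (q.2.IsPath ∧ q.2.length = G.dist v q.1) ∧
      ∀ k ≤ n, P.getVert (s + k) ∈ q.2.support := by
  have h1 := lip hG v P s n h
  refine block hG v P s n h ?_
  have h2 : |(G.dist v (P.getVert (s + n)) : ℤ) - G.dist v (P.getVert s)| = n :=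
    le_antisymm h1 (not_lt.1 hm)
  rcases (abs_eq (by positivity)).1 h2 with h3 | h3
  · left; linarith
  · right; linarith

lemma main (hG : G.Connected) (v : V) {a b : V} (P : G.Walk a b) (N : ℕ) :
    ∀ s ≤ P.length, Chain G v P s N ∨
      Cov G v N {x | ∃ k, s ≤ k ∧ k ≤ P.length ∧ x = P.getVert k} := by
  induction N with
  | zero =>
    intro s hs
    exact Or.inl ⟨fun _ => s, rfl, fun j hj => absurd hj (Nat.not_lt_zero j), hs,
      fun j hj => absurd hj (Nat.not_lt_zero j)⟩
  | succ N ih =>
    intro s hs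
    classical
    by_cases hex : ∃ k, s < k ∧ k ≤ P.length ∧
        |(G.dist v (P.getVert k) : ℤ) - G.dist v (P.getVert s)| < (k : ℤ) - s
    · have hmin := fun m (hm : m < Nat.find hex) => Nat.find_min hex hm
      obtain ⟨hk1, hk2, hk3⟩ := Nat.find_spec hex
      set k := Nat.find hex with hk
      rcases ih k hk2 with hc | hc
      · left
        obtain ⟨br, h0, h1, h2, h3⟩ := hc
        refine ⟨fun j => if j = 0 then s else br (j - 1), by simp, ?_, ?_, ?_⟩
        · intro j hj
          rcases Nat.eq_zero_or_pos j with rfl | hj0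
          · simp [h0, hk1]
          · obtain ⟨i, rfl⟩ : ∃ i, j = i + 1 := ⟨j - 1, by omega⟩
            simpa using h1 i (by omega)
        · simpa using h2
        · intro j hj
          rcases Nat.eq_zero_or_pos j with rfl | hj0
          · simpa [h0] using hk3
          · obtain ⟨i, rfl⟩ : ∃ i, j = i + 1 := ⟨j - 1, by omega⟩
            simpa using h3 i (by omega)
      · right
        obtain ⟨L, hL1, hL2, hL3⟩ := hc
        obtain ⟨q, hq, hq'⟩ : ∃ q : Σ w, G.Walk v w,
            (q.2.IsPath ∧ q.2.length = G.dist v q.1) ∧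
            ∀ i ≤ k - 1 - s, P.getVert (s + i) ∈ q.2.support := by
          refine block' hG v P s (k - 1 - s) (by omega) ?_
          rcases Nat.eq_zero_or_pos (k - 1 - s) with h0 | h0
          · rw [h0]; simp
          · intro hlt
            refine hmin (s + (k - 1 - s)) (by omega) ⟨by omega, by omega, ?_⟩
            push_cast
            linarith
        refine ⟨q :: L, by simp only [List.length_cons]; omega, ?_, ?_⟩
        · intro q' hq'
          rcases List.mem_cons.1 hq' with rfl | h
          · exact hq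
          · exact hL2 q' h
        · rintro x ⟨i, hi1, hi2, rfl⟩
          rcases Nat.lt_or_ge i k with h | h
          · refine ⟨q, by simp, ?_⟩
            have := hq' (i - s) (by omega)
            rwa [Nat.add_sub_cancel' hi1] at this
          · obtain ⟨q', hq'1, hq'2⟩ := hL3 _ ⟨i, h, hi2, rfl⟩
            exact ⟨q', List.mem_cons_of_mem _ hq'1, hq'2⟩
    · right
      obtain ⟨q, hq, hq'⟩ : ∃ q : Σ w, G.Walk v w,
          (q.2.IsPath ∧ q.2.length = G.dist v q.1) ∧
          ∀ i ≤ P.length - s, P.getVert (s + i) ∈ q.2.support := by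
        refine block' hG v P s (P.length - s) (by omega) ?_
        rcases Nat.eq_zero_or_pos (P.length - s) with h0 | h0
        · rw [h0]; simp
        · intro hlt
          refine hex ⟨s + (P.length - s), by omega, by omega, ?_⟩
          push_cast
          linarith
      refine ⟨[q], by simp, ?_, ?_⟩
      · intro q' hq'
        rw [List.mem_singleton] at hq'
        subst hq'
        exact hq
      · rintro x ⟨i, hi1, hi2, rfl⟩
        refine ⟨q, by simp, ?_⟩
        have := hq' (i - s) (by omega)
        rwa [Nat.add_sub_cancel' hi1] at this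

end BreakJob

open BreakJob in
theorem targetBreak : TargetBreak.{u} := by
  intro V _ G hG v a b P N hP hcov
  constructor
  · have key : ∀ i n, i + n ≤ P.length →
        (G.dist (P.getVert i) (P.getVert (i + n)) : ℤ) = n := by
      intro i n h
      have h1 := dist_le P i n h
      have h2 := dist_le P 0 i (by omega)
      have h3 := dist_le P (i + n) (P.length - (i + n)) (by omega)
      rw [Nat.zero_add, Walk.getVert_zero] at h2
      rw [Nat.add_sub_cancel' h, Walk.getVert_length] at h3
      have h4 : G.dist a b ≤ G.dist a (P.getVert i) + G.dist (P.getVert i) b :=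
        hG.dist_triangle
      have h5 : G.dist (P.getVert i) b ≤
          G.dist (P.getVert i) (P.getVert (i + n)) + G.dist (P.getVert (i + n)) b :=
        hG.dist_triangle
      omega
    intro i hi j hj
    rcases Nat.le_total i j with hij | hij
    · obtain ⟨n, rfl⟩ := Nat.exists_eq_add_of_le hij
      rw [key i n hj]
      push_cast
      rw [show (i : ℤ) - (i + n) = -(n : ℤ) by ring, abs_neg, Nat.abs_cast]
    · obtain ⟨n, rfl⟩ := Nat.exists_eq_add_of_le hij
      rw [G.dist_comm, key j n hi]
      push_cast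
      rw [show (j : ℤ) + n - j = (n : ℤ) by ring, Nat.abs_cast]
  · rcases main hG v P N 0 (Nat.zero_le _) with hc | hc
    · obtain ⟨br, _, h1, h2, h3⟩ := hc
      exact ⟨br, h1, h2, h3⟩
    · exfalso
      apply hcov
      have := hc.covered
      obtain ⟨m, w, Q, hm, hQ, hx⟩ := this
      refine ⟨m, w, Q, hm, hQ, ?_⟩
      intro x hxP
      have hxP' : x ∈ P.support := hxP
      rw [Walk.mem_support_iff_exists_getVert] at hxP'
      obtain ⟨n, hn, hn'⟩ := hxP'
      exact hx x ⟨n, Nat.zero_le _, hn', hn.symm⟩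

end FatLadder
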