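import Pool.Agent.FLG.Basic

/-!
# The comb lemma: base case and induction (MP_edbb78_co)
-/

universe u

namespace FatLadder

open SimpleGraph

variable {V : Type u} {G : SimpleGraph V}

theorem sc_leg {L : ℕ → V} : ∀ {H : ℕ}, (∀ s < H, G.Adj (L s) (L (s + 1))) →
    SC G {z | ∃ s ≤ H, z = L s}
  | 0, _ => by
    have : {z | ∃ s ≤ 0, z = L s} = {L 0} := by
      ext z; simp
    rw [this]; exact sc_singleton _
  | H + 1, h => by
    have ih := sc_leg (L := L) (H := H) (fun s hs => h s (by omega))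
    have h1 := ih.insert_adj (a := L H) ⟨H, le_rfl, rfl⟩ (h H (by omega))
    have h2 : insert (L (H + 1)) {z | ∃ s ≤ H, z = L s} = {z | ∃ s ≤ H + 1, z = L s} := by
      ext z
      constructor
      · rintro (rfl | ⟨s, hs, rfl⟩)
        · exact ⟨H + 1, le_rfl, rfl⟩
        · exact ⟨s, by omega, rfl⟩
      · rintro ⟨s, hs, rfl⟩
        rcases Nat.lt_or_ge H s with h3 | h3
        · obtain rfl : s = H + 1 := by omega
          exact Or.inl rfl
        · exact Or.inr ⟨s, h3, rfl⟩
    rwa [h2] at h1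

theorem sc_hat {Y : Set V} {L : ℕ → ℕ → V} {I : Finset ℕ} {H : ℕ} (hY : SC G Y)
    (hadj : ∀ i ∈ I, ∀ s < H, G.Adj (L i s) (L i (s + 1))) (hLY : ∀ i ∈ I, L i H ∈ Y) :
    SC G (Hat Y L I H) := by
  have h1 := hY.union_biUnion (I : Set ℕ) (fun i => {z | ∃ s ≤ H, z = L i s})
    (fun i hi => sc_leg (hadj i hi)) (fun i hi => ⟨L i H, ⟨H, le_rfl, rfl⟩, hLY i hi⟩)
  have h2 : (Y ∪ ⋃ j ∈ (I : Set ℕ), {z | ∃ s ≤ H, z = L j s}) = Hat Y L I H := by
    ext z
    simp [Hat]
  rwa [h2] at h1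

theorem combStmt_one : CombStmt.{u} 1 := by
  intro d K hK
  refine ⟨1, 0, 0, 0, K, ?_⟩
  intro V _ G hG hd h H L I Y a hLip hHm hL hY hYh hLY ha hq
  obtain ⟨i0, hi0⟩ : I.Nonempty := by
    rw [← Finset.card_pos]; omega
  refine ⟨fun _ => i0, fun _ => Hat Y L I H, fun _ => ∅, ?_⟩
  refine ⟨fun _ _ => hi0, fun _ _ => sc_hat hY hL.adj hLY, fun j hj => by omega, Or.inl ha,
    fun _ _ => Or.inr ⟨i0, hi0, 0, by omega, rfl⟩, fun j hj => by omega, fun j hj => by omega,
    fun j l hj hl hjl => by omega, fun j l hj => by omega, fun j l hj => by omega,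
    fun z hz => ⟨z, hz, by simp⟩, fun j h1 h2 => by omega, fun j hj => by omega,
    fun j h1 h2 => by omega, fun j hj => by omega, ?_, fun j hj => by omega⟩
  intro j _ z hz
  rcases hz with hz | hz
  · left
    have := hYh z hz
    have h2 : (K : ℤ) ≤ H := by exact_mod_cast hHm
    omega
  · exact Or.inr hz

theorem targetComb (hS : TargetSplit.{u}) (hStep : TargetCombStep.{u}) : TargetComb.{u} := by
  intro t ht
  induction t with
  | zero => omega
  | succ t ih =>
    rcases Nat.eq_zero_or_pos t with h | h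
    · subst h; exact combStmt_one
    · exact hStep hS t h (ih h)

end FatLadder
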