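import Pool.Agent.FLG.Defs

set_option autoImplicit false

/-! FLG-STEP (helper98): induction step of the comb lemma. -/

universe u

namespace FatLadder

namespace CombAux

open SimpleGraph

variable {V : Type u} {G : SimpleGraph V}

/-- `x` and `y` are joined by a walk inside `S` -/
def Conn (G : SimpleGraph V) (S : Set V) (x y : V) : Prop :=
  ∃ p : G.Walk x y, ∀ z ∈ p.support, z ∈ S

lemma Conn.refl {S : Set V} {x : V} (hx : x ∈ S) : Conn G S x x :=
  ⟨Walk.nil, by simpa using hx⟩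

lemma Conn.symm {S : Set V} {x y : V} (h : Conn G S x y) : Conn G S y x := by
  obtain ⟨p, hp⟩ := h
  exact ⟨p.reverse, by simpa using hp⟩

lemma Conn.trans {S : Set V} {x y z : V} (h : Conn G S x y) (h' : Conn G S y z) :
    Conn G S x z := by
  obtain ⟨p, hp⟩ := h
  obtain ⟨p', hp'⟩ := h'
  refine ⟨p.append p', fun w hw => ?_⟩
  rw [Walk.mem_support_append_iff] at hw
  rcases hw with hw | hw
  · exact hp w hw
  · exact hp' w hw

lemma Conn.mono {S T : Set V} {x y : V} (h : Conn G S x y) (hST : S ⊆ T) : Conn G T x y := by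
  obtain ⟨p, hp⟩ := h
  exact ⟨p, fun z hz => hST (hp z hz)⟩

lemma sc_of_base {S : Set V} (o : V) (h : ∀ x ∈ S, Conn G S x o) : SC G S :=
  fun x hx y hy => (h x hx).trans (h y hy).symm

lemma sc_conn {S : Set V} (h : SC G S) {x y : V} (hx : x ∈ S) (hy : y ∈ S) : Conn G S x y :=
  h x hx y hy

lemma conn_seq {S : Set V} (f : ℕ → V) (a b : ℕ) (hab : a ≤ b)
    (adj : ∀ k, a ≤ k → k < b → G.Adj (f k) (f (k + 1)))
    (mem : ∀ k, a ≤ k → k ≤ b → f k ∈ S) : Conn G S (f a) (f b) := by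
  induction b, hab using Nat.le_induction with
  | base => exact Conn.refl (mem a le_rfl le_rfl)
  | succ b hb ih =>
    have h1 := ih (fun k hk hk' => adj k hk (by omega)) (fun k hk hk' => mem k hk (by omega))
    refine h1.trans ⟨Walk.cons (adj b hb (by omega)) Walk.nil, ?_⟩
    intro z hz
    simp only [Walk.support_cons, Walk.support_nil, List.mem_cons, List.not_mem_nil,
      or_false] at hz
    rcases hz with rfl | rfl
    · exact mem b hb (by omega)
    · exact mem (b + 1) (by omega) le_rfl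

lemma dist_seq (hG : G.Connected) (f : ℕ → V) (a b : ℕ) (hab : a ≤ b)
    (adj : ∀ k, a ≤ k → k < b → G.Adj (f k) (f (k + 1))) : G.dist (f a) (f b) ≤ b - a := by
  induction b, hab using Nat.le_induction with
  | base => simp
  | succ b hb ih =>
    have h1 := ih (fun k hk hk' => adj k hk (by omega))
    have h2 : G.dist (f b) (f (b + 1)) = 1 := dist_eq_one_iff_adj.2 (adj b hb (by omega))
    have h3 := hG.dist_triangle (u := f a) (v := f b) (w := f (b + 1))
    omega

lemma conn_to_seq {S : Set V} {x y : V} (h : Conn G S x y) :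
    ∃ (n : ℕ) (f : ℕ → V), f 0 = x ∧ f n = y ∧ (∀ k < n, G.Adj (f k) (f (k + 1))) ∧
      ∀ k ≤ n, f k ∈ S := by
  obtain ⟨p, hp⟩ := h
  refine ⟨p.length, p.getVert, p.getVert_zero, p.getVert_length,
    fun k hk => p.adj_getVert_succ hk, fun k _ => hp _ (p.getVert_mem_support k)⟩

lemma geod_seq (hG : G.Connected) (x y : V) :
    ∃ g : ℕ → V, g 0 = x ∧ g (G.dist x y) = y ∧ ∀ k < G.dist x y, G.Adj (g k) (g (k + 1)) := by
  obtain ⟨p, hp⟩ := hG.exists_walk_length_eq_dist x y
  refine ⟨p.getVert, p.getVert_zero, ?_, fun k hk => p.adj_getVert_succ (hp ▸ hk)⟩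
  rw [← hp]
  exact p.getVert_length

/-- points of a ball are joined to the centre inside the ball -/
lemma conn_ball (hG : G.Connected) (a : V) (r : ℕ) (z : V) (hz : z ∈ Ball G a r) :
    Conn G (Ball G a r) z a := by
  obtain ⟨g, g0, g1, ga⟩ := geod_seq hG a z
  have h1 : Conn G (Ball G a r) (g 0) (g (G.dist a z)) := by
    refine conn_seq g 0 _ (Nat.zero_le _) (fun k _ hk => ga k hk) (fun k _ hk => ?_)
    have h2 := dist_seq hG g 0 k (Nat.zero_le _) (fun j _ hj => ga j (by omega))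
    rw [g0] at h2
    have h3 : G.dist a z ≤ r := hz
    show G.dist a (g k) ≤ r
    omega
  rw [g0, g1] at h1
  exact h1.symm

/-- prepending a blob and a link to a comb -/
lemma prepend {h : V → ℤ} {H K R S : ℕ} {L : ℕ → ℕ → V} {I : Finset ℕ} {Y : Set V} {a : V} {t : ℕ}
    {H1 R1 S1 : ℕ} {J : Finset ℕ} {C : Set V} {a' : V} {i' : ℕ → ℕ} {B' E' : ℕ → Set V}
    (hG : G.Connected)
    (hc : IsComb G h H1 K R1 S1 L J C a' t i' B' E')
    {i0 : ℕ} {B1 E1 : Set V} {D T : ℕ}
    (hi0 : i0 ∈ I) (hJ : J ⊆ I) (hH1 : H1 ≤ H)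
    (scB : SC G B1) (scE : SC G E1) (haB : a ∈ B1) (hleg : L i0 0 ∈ B1)
    (hEB : (E1 ∩ B1).Nonempty) (hEa : a' ∈ E1)
    (farB : Far G D B1 (Hat C L J H1)) (hD1 : S1 + 2 * K ≤ D) (hD2 : R1 + 2 * K ≤ D)
    (farE : ∀ z ∈ E1, (∀ x ∈ Hat C L J H1, R1 + 2 * K ≤ G.dist z x) ∨
      G.dist z a' ≤ 2 * (R1 + 2 * K))
    (locB0 : Within G S B1 (Hat Y L I H))
    (locE : Within G R E1 (Hat Y L I H))
    (hatHat : Within G T (Hat C L J H1) (Hat Y L I H))
    (hR1 : S1 + T ≤ R) (hR2 : R1 + T ≤ R)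
    (entHat : ∀ x ∈ Hat C L J H1, S1 + R1 + (2 * R + 6 * K) ≤ G.dist a x)
    (entE : ∀ z ∈ E1, 2 * R + 6 * K ≤ G.dist a z)
    (htB : ∀ z ∈ B1, (K : ℤ) ≤ h z ∨ ∃ i' ∈ I, ∃ s ≤ H, z = L i' s)
    (htE : ∀ z ∈ E1, (K : ℤ) ≤ h z) :
    ∃ (i : ℕ → ℕ) (B E : ℕ → Set V), IsComb G h H K R S L I Y a (t + 1) i B E := by
  -- location of the old pieces near the old hat
  have nearB : ∀ j < t, ∀ z ∈ B' j, ∃ x ∈ Hat C L J H1, G.dist z x ≤ max S1 R1 := by
    intro j hj z hz
    rcases Nat.eq_zero_or_pos j with rfl | hj0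
    · obtain ⟨x, hx, hx'⟩ := hc.locB0 z hz
      exact ⟨x, hx, hx'.trans (le_max_left _ _)⟩
    · obtain ⟨x, hx, hx'⟩ := hc.locB j hj0 hj z hz
      exact ⟨x, hx, hx'.trans (le_max_right _ _)⟩
  have tri : ∀ x y z : V, G.dist x z ≤ G.dist x y + G.dist y z := fun x y z =>
    hG.dist_triangle
  have symm : ∀ x y : V, G.dist x y = G.dist y x := fun x y => G.dist_comm
  refine ⟨fun j => Nat.casesOn j i0 i', fun j => Nat.casesOn j B1 B',
    fun j => Nat.casesOn j E1 E', ?_⟩
  constructor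
  · intro j hj
    cases j with
    | zero => exact hi0
    | succ j => exact hJ (hc.idx j (by omega))
  · intro j hj
    cases j with
    | zero => exact scB
    | succ j => exact hc.scB j (by omega)
  · intro j hj
    cases j with
    | zero => exact scE
    | succ j => exact hc.scE j (by omega)
  · exact haB
  · intro j hj
    cases j with
    | zero => exact hleg
    | succ j => exact hc.leg j (by omega)
  · intro j hj
    cases j with
    | zero => exact hEB
    | succ j => exact hc.EB j (by omega)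
  · intro j hj
    cases j with
    | zero => exact ⟨a', hEa, hc.aB⟩
    | succ j => exact hc.EB' j (by omega)
  · -- farBB
    have key : ∀ l < t, Far G (2 * K) B1 (B' l) := by
      intro l hl b hb z hz
      obtain ⟨x, hx, hx'⟩ := nearB l hl z hz
      have h1 := farB b hb x hx
      have h2 := tri b z x
      have h3 : max S1 R1 + 2 * K ≤ D := by rcases max_choice S1 R1 with h | h <;> rw [h] <;> omega
      omega
    intro j l hj hl hjl
    cases j with
    | zero =>
      cases l with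
      | zero => exact absurd rfl hjl
      | succ l => exact key l (by omega)
    | succ j =>
      cases l with
      | zero =>
        intro x hx y hy
        rw [symm]
        exact key j (by omega) y hy x hx
      | succ l => exact hc.farBB j l (by omega) (by omega) (by omega)
  · -- farEB
    intro j l hj hl h1 h2
    cases j with
    | zero =>
      cases l with
      | zero => exact absurd rfl h1
      | succ l =>
        cases l with
        | zero => exact absurd rfl h2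
        | succ l =>
          intro z hz b hb
          have hb' : b ∈ B' (l + 1) := hb
          rcases farE z hz with hf | hf
          · obtain ⟨x, hx, hx'⟩ := hc.locB (l + 1) (by omega) (by omega) b hb'
            have e1 := hf x hx
            have e2 := tri z b x
            omega
          · have e1 := hc.entB (l + 1) (by omega) (by omega) b hb'
            have e2 := tri a' z b
            rw [symm a' z] at e2
            omega
    | succ j =>
      cases l with
      | zero =>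
        intro z hz b hb
        obtain ⟨x, hx, hx'⟩ := hc.locE j (by omega) z hz
        have e1 := farB b hb x hx
        have e2 := tri b z x
        rw [symm]
        omega
      | succ l => exact hc.farEB j l (by omega) (by omega) (by omega) (by omega)
  · -- farEE
    have key : ∀ l, l + 1 < t → Far G (2 * K) E1 (E' l) := by
      intro l hl z hz b hb
      rcases farE z hz with hf | hf
      · obtain ⟨x, hx, hx'⟩ := hc.locE l hl b hb
        have e1 := hf x hx
        have e2 := tri z b x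
        omega
      · have e1 := hc.entE l hl b hb
        have e2 := tri a' z b
        rw [symm a' z] at e2
        omega
    intro j l hj hl hjl
    cases j with
    | zero =>
      cases l with
      | zero => exact absurd rfl hjl
      | succ l => exact key l (by omega)
    | succ j =>
      cases l with
      | zero =>
        intro x hx y hy
        rw [symm]
        exact key j (by omega) y hy x hx
      | succ l => exact hc.farEE j l (by omega) (by omega) (by omega)
  · exact locB0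
  · intro j hj hjt
    cases j with
    | zero => omega
    | succ j =>
      intro z hz
      obtain ⟨x, hx, hx'⟩ := nearB j (by omega) z hz
      obtain ⟨y, hy, hy'⟩ := hatHat x hx
      refine ⟨y, hy, ?_⟩
      have h1 := tri z x y
      have h3 : max S1 R1 + T ≤ R := by rcases max_choice S1 R1 with h | h <;> rw [h] <;> omega
      omega
  · intro j hj
    cases j with
    | zero => exact locE
    | succ j =>
      intro z hz
      obtain ⟨x, hx, hx'⟩ := hc.locE j (by omega) z hz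
      obtain ⟨y, hy, hy'⟩ := hatHat x hx
      refine ⟨y, hy, ?_⟩
      have h1 := tri z x y
      omega
  · intro j hj hjt
    cases j with
    | zero => omega
    | succ j =>
      intro z hz
      obtain ⟨x, hx, hx'⟩ := nearB j (by omega) z hz
      have h1 := entHat x hx
      have h2 := tri a z x
      have h3 : max S1 R1 ≤ S1 + R1 := by rcases max_choice S1 R1 with h | h <;> rw [h] <;> omega
      omega
  · intro j hj
    cases j with
    | zero => exact entE
    | succ j =>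
      intro z hz
      obtain ⟨x, hx, hx'⟩ := hc.locE j (by omega) z hz
      have h1 := entHat x hx
      have h2 := tri a z x
      omega
  · intro j hj
    cases j with
    | zero => exact htB
    | succ j =>
      intro z hz
      rcases hc.htB j (by omega) z hz with h1 | ⟨i2, hi2, s, hs, hz⟩
      · exact Or.inl h1
      · exact Or.inr ⟨i2, hJ hi2, s, hs.trans hH1, hz⟩
  · intro j hj
    cases j with
    | zero => exact htE
    | succ j => exact hc.htE j (by omega)

/-- the hat is connected -/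
lemma sc_hat {C : Set V} {L : ℕ → ℕ → V} {J : Finset ℕ} {H1 : ℕ} (hC : SC G C)
    (adj : ∀ i ∈ J, ∀ s < H1, G.Adj (L i s) (L i (s + 1))) (hLC : ∀ i ∈ J, L i H1 ∈ C)
    (o : V) (ho : o ∈ C) : SC G (Hat C L J H1) := by
  refine sc_of_base o (fun x hx => ?_)
  rcases hx with hx | ⟨i, hi, s, hs, rfl⟩
  · exact Conn.mono (sc_conn hC hx ho) Set.subset_union_left
  · have h1 : Conn G (Hat C L J H1) (L i s) (L i H1) := by
      refine conn_seq (L i) s H1 hs (fun k _ hk => adj i hi k hk) (fun k _ hk => ?_)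
      exact Or.inr ⟨i, hi, k, hk, rfl⟩
    exact h1.trans (Conn.mono (sc_conn hC (hLC i hi) ho) Set.subset_union_left)

end CombAux

open SimpleGraph CombAux

theorem targetCombStep : TargetRemoveBall.{u} → TargetCombStep.{u} := by
  intro hRB hSplit t ht hComb d K hK
  obtain ⟨q, R, S, M, Hm, hC⟩ := hComb d K hK
  obtain ⟨σ, hσ⟩ : ∃ σ, σ = R + 2 * K := ⟨_, rfl⟩
  obtain ⟨δ, hδ⟩ : ∃ δ, δ = S + σ + 2 * K := ⟨_, rfl⟩
  obtain ⟨K1, hK1⟩ : ∃ K1, K1 = 8 * δ := ⟨_, rfl⟩
  obtain ⟨R', hR'⟩ : ∃ R', R' = S + 4 * K1 + 2 * σ := ⟨_, rfl⟩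
  obtain ⟨e, he⟩ : ∃ e, e = 2 * R' + 6 * K := ⟨_, rfl⟩
  obtain ⟨S', hS'⟩ : ∃ S', S' = 4 * K1 + e + 1 + δ := ⟨_, rfl⟩
  obtain ⟨ρ, hρ⟩ : ∃ ρ, ρ = 8 * (K1 + e + S + R + σ + δ + 10) := ⟨_, rfl⟩
  obtain ⟨q1, hq1⟩ := hSplit d K1 (q + 1) (by omega)
  obtain ⟨q', hq'⟩ := hRB d ρ (q1 + 1)
  refine ⟨q', R', S', M + 8 * K1 + 1, Hm + 8 * K1 + e + S' + ρ + K, ?_⟩
  intro V _ G hG hd h H L I Y a hL hH hlegs hY hYh hLY haY hI
  have tri : ∀ x y z : V, G.dist x z ≤ G.dist x y + G.dist y z := fun x y z =>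
    hG.dist_triangle
  have symm : ∀ x y : V, G.dist x y = G.dist y x := fun x y => G.dist_comm
  -- step 1
  have hinj : ∀ i ∈ I, ∀ j ∈ I, L i H = L j H → i = j := by
    intro i hi j hj hij
    by_contra hne
    have h1 := hlegs.far i hi j hj hne H le_rfl H le_rfl
    rw [hij, SimpleGraph.dist_self] at h1
    omega
  obtain ⟨Y1, I1, hY1Y, hY1, hY1a, hI1I, hLY1, hI1⟩ :=
    hq' V G hG hd Y a I (fun i => L i H) hY haY hLY hinj hI
  obtain ⟨i1, hi1⟩ : I1.Nonempty := Finset.card_pos.1 (by omega)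
  -- step 2
  obtain ⟨C, J, hJI, hJq, hCs, hCfar, hSC, hCloc⟩ := hq1 V G hG hd I1 Y1
    (fun i => {z | ∃ s, H - 4 * K1 ≤ s ∧ s ≤ H - 2 * K1 ∧ z = L i s}) ⟨_, hLY1 i1 hi1⟩ hY1
    (by
      intro i hi
      refine sc_of_base (L i (H - 4 * K1)) ?_
      rintro x ⟨s, hs1, hs2, rfl⟩
      exact Conn.symm (conn_seq (S := {z | ∃ s, H - 4 * K1 ≤ s ∧ s ≤ H - 2 * K1 ∧ z = L i s})
        (L i) (H - 4 * K1) s hs1 (fun k _ hk => hlegs.adj i (hI1I hi) k (by omega))
        (fun k hk hk' => ⟨k, hk, by omega, rfl⟩)))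
    (by
      rintro i hi z ⟨s, hs1, hs2, rfl⟩ y hy
      have h1 := hYh y (hY1Y hy)
      have h2 := hlegs.height i (hI1I hi) s (by omega)
      have h3 := hL y (L i s)
      rw [symm y (L i s)] at h3
      omega)
    (by
      intro i hi
      refine ⟨L i (H - 2 * K1), ⟨H - 2 * K1, by omega, le_rfl, rfl⟩, L i H, hLY1 i hi, ?_⟩
      have h1 := dist_seq hG (L i) (H - 2 * K1) H (by omega)
        (fun k _ hk => hlegs.adj i (hI1I hi) k hk)
      have h2 := hlegs.height i (hI1I hi) (H - 2 * K1) (by omega)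
      have h3 := hlegs.height i (hI1I hi) H le_rfl
      have h4 := hL (L i H) (L i (H - 2 * K1))
      rw [symm (L i H)] at h4
      omega)
    (by
      rintro i hi j hj hij z ⟨s, hs1, hs2, rfl⟩ z' ⟨s', hs1', hs2', rfl⟩
      have h1 := hlegs.far i (hI1I hi) j (hI1I hj) hij s (by omega) s' (by omega)
      omega)
    (by omega)
  obtain ⟨H1, hH1⟩ : ∃ H1, H1 = H - 4 * K1 := ⟨_, rfl⟩
  -- facts about C
  have hLC : ∀ c, ∀ i ∈ J c, L i H1 ∈ C c := by
    intro c i hi
    exact hSC c i hi ⟨H1, by omega, by omega, rfl⟩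
  have hCnear : ∀ c, ∀ z ∈ C c, ∃ x ∈ Y1, G.dist z x ≤ 4 * K1 := by
    intro c z hz
    rcases hCloc c z hz with ⟨i, hi, s, hs1, hs2, rfl⟩ | hx
    · refine ⟨L i H, hLY1 i (hJI c hi), ?_⟩
      have h1 := dist_seq hG (L i) s H (by omega)
        (fun k _ hk => hlegs.adj i (hI1I (hJI c hi)) k hk)
      omega
    · exact hx
  have hCh : ∀ c, ∀ z ∈ C c, (H1 : ℤ) ≤ h z := by
    intro c z hz
    obtain ⟨x, hx, hx'⟩ := hCnear c z hz
    have h1 := hYh x (hY1Y hx)
    have h2 := hL x z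
    rw [symm x z] at h2
    omega
  have farC : ∀ c c' : Fin 2, c ≠ c' → Far G K1 (C c) (C c') := by
    intro c c' hcc
    have h01 : (c = 0 ∧ c' = 1) ∨ (c = 1 ∧ c' = 0) := by
      revert c c'; decide
    rcases h01 with ⟨rfl, rfl⟩ | ⟨rfl, rfl⟩
    · exact hCfar
    · intro x hx y hy
      rw [symm]
      exact hCfar y hy x hx
  have disj : ∀ c c' : Fin 2, c ≠ c' → ∀ i ∈ J c, ∀ j ∈ J c', i ≠ j := by
    intro c c' hcc i hi j hj hij
    subst hij
    have h1 := farC c c' hcc _ (hLC c i hi) _ (hLC c' i hj)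
    rw [SimpleGraph.dist_self] at h1
    omega
  have star : ∀ x, (H1 : ℤ) ≤ h x → ∀ i ∈ I1, ∀ s ≤ H1,
      G.dist x (L i H1) ≤ 2 * G.dist x (L i s) := by
    intro x hx i hi s hs
    have h1 := dist_seq hG (L i) s H1 hs (fun k _ hk => hlegs.adj i (hI1I hi) k (by omega))
    have h2 := hlegs.height i (hI1I hi) s (by omega)
    have h3 := hL x (L i s)
    have h4 := tri x (L i s) (L i H1)
    omega
  have farHat : ∀ c c' : Fin 2, c ≠ c' →
      Far G (4 * δ) (Hat (C c) L (J c) H1) (Hat (C c') L (J c') H1) := by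
    intro c c' hcc x hx y hy
    rcases hx with hx | ⟨i, hi, s, hs, rfl⟩
    · rcases hy with hy | ⟨j, hj, s', hs', rfl⟩
      · have h1 := farC c c' hcc x hx y hy
        omega
      · have h1 := farC c c' hcc x hx _ (hLC c' j hj)
        have h2 := star x (hCh c x hx) j (hJI c' hj) s' hs'
        omega
    · rcases hy with hy | ⟨j, hj, s', hs', rfl⟩
      · have h1 := farC c' c hcc.symm y hy _ (hLC c i hi)
        have h2 := star y (hCh c' y hy) i (hJI c hi) s hs
        rw [symm (L i s) y]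
        omega
      · have h1 := hlegs.far i (hI1I (hJI c hi)) j (hI1I (hJI c' hj)) (disj c c' hcc i hi j hj)
          s (by omega) s' (by omega)
        omega
  have ha_h : (H1 : ℤ) ≤ h a := by
    have := hYh a haY
    omega
  have hata : ∀ c, ∀ x ∈ Hat (C c) L (J c) H1, ρ ≤ 2 * G.dist a x + 4 * K1 := by
    intro c x hx
    have hCa : ∀ z ∈ C c, ρ < G.dist a z + 4 * K1 := by
      intro z hz
      obtain ⟨y, hy, hy'⟩ := hCnear c z hz
      have h1 := hY1a y hy
      have h2 := tri a z y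
      omega
    rcases hx with hx | ⟨i, hi, s, hs, rfl⟩
    · have := hCa x hx
      omega
    · have h1 := hCa _ (hLC c i hi)
      have h2 := star a ha_h i (hJI c hi) s hs
      omega
  have hatSC : ∀ c, SC G (Hat (C c) L (J c) H1) := by
    intro c
    obtain ⟨i, hi⟩ : (J c).Nonempty := Finset.card_pos.1 (by have := hJq c; omega)
    exact sc_hat (hCs c) (fun i hi s hs => hlegs.adj i (hI1I (hJI c hi)) s (by omega)) (hLC c)
      _ (hLC c i hi)
  have hatHat : ∀ c, Within G (4 * K1) (Hat (C c) L (J c) H1) (Hat Y L I H) := by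
    intro c x hx
    rcases hx with hx | ⟨i, hi, s, hs, rfl⟩
    · obtain ⟨y, hy, hy'⟩ := hCnear c x hx
      exact ⟨y, Or.inl (hY1Y hy), hy'⟩
    · refine ⟨L i s, Or.inr ⟨i, hI1I (hJI c hi), s, by omega, rfl⟩, ?_⟩
      rw [SimpleGraph.dist_self]
      omega
  -- step 4
  obtain ⟨Z, hZ⟩ : ∃ Z : Set V, Z = Y ∪ {z | ∃ i ∈ I1, ∃ s, H1 ≤ s ∧ s ≤ H ∧ z = L i s} := ⟨_, rfl⟩
  have hZa : ∀ x ∈ Z, Conn G Z x a := by
    intro x hx
    rw [hZ] at hx
    have hYZ : Y ⊆ Z := by rw [hZ]; exact Set.subset_union_left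
    rcases hx with hx | ⟨i, hi, s, hs, hs', rfl⟩
    · exact Conn.mono (sc_conn hY hx haY) hYZ
    · have h1 : Conn G Z (L i s) (L i H) := by
        refine conn_seq (L i) s H hs' (fun k _ hk => hlegs.adj i (hI1I hi) k hk) (fun k hk hk' => ?_)
        rw [hZ]
        exact Or.inr ⟨i, hi, k, by omega, hk', rfl⟩
      exact h1.trans (Conn.mono (sc_conn hY (hLY i (hI1I hi)) haY) hYZ)
  have hZh : ∀ z ∈ Z, (H1 : ℤ) ≤ h z := by
    intro z hz
    rw [hZ] at hz
    rcases hz with hz | ⟨i, hi, s, hs, hs', rfl⟩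
    · have := hYh z hz
      omega
    · rw [hlegs.height i (hI1I hi) s hs']
      omega
  have hZhat : ∀ z ∈ Z, z ∈ Hat Y L I H := by
    intro z hz
    rw [hZ] at hz
    rcases hz with hz | ⟨i, hi, s, hs, hs', rfl⟩
    · exact Or.inl hz
    · exact Or.inr ⟨i, hI1I hi, s, hs', rfl⟩
  have walkTo : ∀ c, ∃ (n : ℕ) (f : ℕ → V), f 0 = a ∧ f n ∈ Hat (C c) L (J c) H1 ∧
      (∀ k < n, G.Adj (f k) (f (k + 1))) ∧ ∀ k ≤ n, f k ∈ Z := by
    intro c
    obtain ⟨i, hi⟩ : (J c).Nonempty := Finset.card_pos.1 (by have := hJq c; omega)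
    have hmem : L i H1 ∈ Z := by
      rw [hZ]
      exact Or.inr ⟨i, hJI c hi, H1, le_rfl, by omega, rfl⟩
    obtain ⟨n, f, f0, fn, fa, fm⟩ := conn_to_seq (hZa _ hmem).symm
    exact ⟨n, f, f0, by rw [fn]; exact Or.inl (hLC c i hi), fa, fm⟩
  obtain ⟨n, f, f0, fn, fa, fm⟩ := walkTo 0
  classical
  have hP : ∃ k, ∃ c, ∃ x ∈ Hat (C c) L (J c) H1, G.dist (f k) x ≤ δ :=
    ⟨n, 0, f n, fn, by rw [SimpleGraph.dist_self]; omega⟩
  obtain ⟨k0, hk0⟩ : ∃ k0, k0 = Nat.find hP := ⟨_, rfl⟩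
  have hk0n : k0 ≤ n := by
    rw [hk0]
    exact Nat.find_min' hP ⟨0, f n, fn, by rw [SimpleGraph.dist_self]; omega⟩
  have hbefore : ∀ k < k0, ∀ c, ∀ x ∈ Hat (C c) L (J c) H1, δ < G.dist (f k) x := by
    intro k hk c x hx
    have h1 := Nat.find_min hP (hk0 ▸ hk)
    by_contra hcon
    exact h1 ⟨c, x, hx, by omega⟩
  obtain ⟨c, x0, hx0, hx0'⟩ : ∃ c, ∃ x ∈ Hat (C c) L (J c) H1, G.dist (f k0) x ≤ δ := by
    rw [hk0]; exact Nat.find_spec hP
  obtain ⟨c', hcc⟩ : ∃ c' : Fin 2, c ≠ c' := (by decide : ∀ c : Fin 2, ∃ c' : Fin 2, c ≠ c') c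
  obtain ⟨g, g0, gm, ga⟩ := geod_seq hG (f k0) x0
  obtain ⟨m, hm⟩ : ∃ m, m = G.dist (f k0) x0 := ⟨_, rfl⟩
  rw [← hm] at gm ga hx0'
  obtain ⟨B1, hB1⟩ : ∃ B1 : Set V, B1 = {z | ∃ k ≤ k0, z = f k} ∪ {z | ∃ k ≤ m, z = g k} ∪
      Hat (C c) L (J c) H1 ∪ Ball G a (e + 1) := ⟨_, rfl⟩
  have B1mem : ∀ z, z ∈ B1 ↔ (∃ k ≤ k0, z = f k) ∨ (∃ k ≤ m, z = g k) ∨
      z ∈ Hat (C c) L (J c) H1 ∨ z ∈ Ball G a (e + 1) := by
    intro z
    rw [hB1]
    simp only [Set.mem_union, Set.mem_ofPred_eq, or_assoc]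
  -- the geodesic stays close
  have gnear : ∀ k ≤ m, G.dist (g k) x0 ≤ δ ∧ G.dist (f k0) (g k) ≤ δ := by
    intro k hk
    have h1 := dist_seq hG g k m hk (fun j _ hj => ga j hj)
    have h2 := dist_seq hG g 0 k (Nat.zero_le _) (fun j _ hj => ga j (by omega))
    rw [gm] at h1
    rw [g0] at h2
    omega
  have scB1 : SC G B1 := by
    have c1 : ∀ k ≤ k0, Conn G B1 (f k) a := by
      intro k hk
      have h1 : Conn G B1 (f 0) (f k) := conn_seq f 0 k (Nat.zero_le _)
        (fun j _ hj => fa j (by omega)) (fun j _ hj => (B1mem _).2 (Or.inl ⟨j, by omega, rfl⟩))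
      rw [f0] at h1
      exact h1.symm
    have c2 : ∀ k ≤ m, Conn G B1 (g k) a := by
      intro k hk
      have h1 : Conn G B1 (g 0) (g k) := conn_seq g 0 k (Nat.zero_le _)
        (fun j _ hj => ga j (by omega))
        (fun j _ hj => (B1mem _).2 (Or.inr (Or.inl ⟨j, by omega, rfl⟩)))
      rw [g0] at h1
      exact h1.symm.trans (c1 k0 le_rfl)
    refine sc_of_base a (fun z hz => ?_)
    rcases (B1mem z).1 hz with ⟨k, hk, rfl⟩ | ⟨k, hk, rfl⟩ | hz | hz
    · exact c1 k hk
    · exact c2 k hk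
    · have h1 : Conn G B1 z x0 := Conn.mono (sc_conn (hatSC c) hz hx0)
        (fun w hw => (B1mem w).2 (Or.inr (Or.inr (Or.inl hw))))
      have h2 := c2 m le_rfl
      rw [gm] at h2
      exact h1.trans h2
    · exact Conn.mono (conn_ball hG a (e + 1) z hz)
        (fun w hw => (B1mem w).2 (Or.inr (Or.inr (Or.inr hw))))
  have farB1 : Far G δ B1 (Hat (C c') L (J c') H1) := by
    intro z hz x hx
    rcases (B1mem z).1 hz with ⟨k, hk, rfl⟩ | ⟨k, hk, rfl⟩ | hz | hz
    · rcases Nat.lt_or_ge k k0 with hk' | hk'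
      · exact (hbefore k hk' c' x hx).le
      · have hkk : k = k0 := by omega
        subst hkk
        have h1 := farHat c c' hcc x0 hx0 x hx
        have h2 := tri x0 (f k) x
        rw [symm x0 (f k)] at h2
        omega
    · have h1 := farHat c c' hcc x0 hx0 x hx
      have h2 := tri x0 (g k) x
      have h3 := (gnear k hk).1
      rw [symm x0 (g k)] at h2
      omega
    · have h1 := farHat c c' hcc z hz x hx
      omega
    · have h1 := hata c' x hx
      have h2 := tri a z x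
      have h3 : G.dist a z ≤ e + 1 := hz
      omega
  have haB1 : a ∈ B1 := (B1mem a).2 (Or.inl ⟨0, Nat.zero_le _, f0.symm⟩)
  -- step 5
  obtain ⟨n2, f2, f20, f2n, f2a, f2m⟩ := walkTo c'
  have hP2 : ∃ k, ∃ x ∈ Hat (C c') L (J c') H1, G.dist (f2 k) x ≤ σ :=
    ⟨n2, f2 n2, f2n, by rw [SimpleGraph.dist_self]; omega⟩
  obtain ⟨k2, hk2⟩ : ∃ k2, k2 = Nat.find hP2 := ⟨_, rfl⟩
  have hk2n : k2 ≤ n2 := by
    rw [hk2]
    exact Nat.find_min' hP2 ⟨f2 n2, f2n, by rw [SimpleGraph.dist_self]; omega⟩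
  have hbefore2 : ∀ k < k2, ∀ x ∈ Hat (C c') L (J c') H1, σ < G.dist (f2 k) x := by
    intro k hk x hx
    have h1 := Nat.find_min hP2 (hk2 ▸ hk)
    by_contra hcon
    exact h1 ⟨x, hx, by omega⟩
  obtain ⟨x1, hx1, hx1'⟩ : ∃ x ∈ Hat (C c') L (J c') H1, G.dist (f2 k2) x ≤ σ := by
    rw [hk2]; exact Nat.find_spec hP2
  obtain ⟨a', ha'C, ha'd⟩ : ∃ a' ∈ C c', G.dist (f2 k2) a' ≤ 2 * σ := by
    rcases hx1 with hx1 | ⟨i, hi, s, hs, rfl⟩
    · exact ⟨x1, hx1, by omega⟩
    · refine ⟨L i H1, hLC c' i hi, ?_⟩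
      have h1 := hZh _ (f2m k2 hk2n)
      have h2 := hL (f2 k2) (L i s)
      have h3 := hlegs.height i (hI1I (hJI c' hi)) s (by omega)
      have h4 := dist_seq hG (L i) s H1 hs
        (fun k _ hk => hlegs.adj i (hI1I (hJI c' hi)) k (by omega))
      have h5 := tri (f2 k2) (L i s) (L i H1)
      omega
  have hy'B : f2 k2 ∉ B1 := by
    intro hmem
    have h1 := farB1 _ hmem x1 hx1
    omega
  obtain ⟨kw, hkw⟩ : ∃ kw, kw = Nat.findGreatest (fun k => f2 k ∈ B1) k2 := ⟨_, rfl⟩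
  have hkw_le : kw ≤ k2 := by rw [hkw]; exact Nat.findGreatest_le _
  have hkwB : f2 kw ∈ B1 := by
    rw [hkw]
    exact Nat.findGreatest_spec (P := fun k => f2 k ∈ B1) (Nat.zero_le k2) (by rw [f20]; exact haB1)
  have hkw_lt : kw < k2 := by
    rcases Nat.lt_or_ge kw k2 with h1 | h1
    · exact h1
    · have : kw = k2 := by omega
      rw [this] at hkwB
      exact absurd hkwB hy'B
  have hafter : ∀ k, kw < k → k ≤ k2 → f2 k ∉ B1 := by
    intro k hk hk'
    exact Nat.findGreatest_is_greatest (P := fun k => f2 k ∈ B1) (hkw ▸ hk) hk'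
  obtain ⟨g2, g20, g2m, g2a⟩ := geod_seq hG (f2 k2) a'
  obtain ⟨m2, hm2⟩ : ∃ m2, m2 = G.dist (f2 k2) a' := ⟨_, rfl⟩
  rw [← hm2] at g2m g2a ha'd
  have g2near : ∀ k ≤ m2, G.dist (g2 k) a' ≤ 2 * σ ∧ G.dist (f2 k2) (g2 k) ≤ 2 * σ := by
    intro k hk
    have h1 := dist_seq hG g2 k m2 hk (fun j _ hj => g2a j hj)
    have h2 := dist_seq hG g2 0 k (Nat.zero_le _) (fun j _ hj => g2a j (by omega))
    rw [g2m] at h1
    rw [g20] at h2
    omega
  obtain ⟨E1, hE1⟩ : ∃ E1 : Set V, E1 = {z | ∃ k, kw ≤ k ∧ k ≤ k2 ∧ z = f2 k} ∪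
      {z | ∃ k ≤ m2, z = g2 k} := ⟨_, rfl⟩
  have E1mem : ∀ z, z ∈ E1 ↔ (∃ k, kw ≤ k ∧ k ≤ k2 ∧ z = f2 k) ∨ (∃ k ≤ m2, z = g2 k) := by
    intro z
    rw [hE1]
    rfl
  have scE1 : SC G E1 := by
    refine sc_of_base (f2 k2) (fun z hz => ?_)
    rcases (E1mem z).1 hz with ⟨k, hk, hk', rfl⟩ | ⟨k, hk, rfl⟩
    · exact conn_seq f2 k k2 hk' (fun j _ hj => f2a j (by omega))
        (fun j hj hj' => (E1mem _).2 (Or.inl ⟨j, by omega, hj', rfl⟩))
    · have h1 : Conn G E1 (g2 0) (g2 k) := conn_seq g2 0 k (Nat.zero_le _)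
        (fun j _ hj => g2a j (by omega)) (fun j _ hj => (E1mem _).2 (Or.inr ⟨j, by omega, rfl⟩))
      rw [g20] at h1
      exact h1.symm
  obtain ⟨i0, hi0⟩ : (J c).Nonempty := Finset.card_pos.1 (by have := hJq c; omega)
  -- the rest of the comb
  obtain ⟨i', B', E', hc⟩ := hC V G hG hd h H1 L (J c') (C c') a' hL (by omega)
    ⟨fun i hi s hs => hlegs.adj i (hI1I (hJI c' hi)) s (by omega),
      fun i hi s hs => hlegs.height i (hI1I (hJI c' hi)) s (by omega),
      fun i hi j hj hij s hs s' hs' => by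
        have := hlegs.far i (hI1I (hJI c' hi)) j (hI1I (hJI c' hj)) hij s (by omega) s' (by omega)
        omega⟩
    (hCs c') (hCh c') (hLC c') ha'C (by have := hJq c'; omega)
  refine prepend (D := δ) (T := 4 * K1) hG hc (hI1I (hJI c hi0)) ((hJI c').trans hI1I) (by omega)
    scB1 scE1 haB1 ?_ ⟨f2 kw, (E1mem _).2 (Or.inl ⟨kw, le_rfl, hkw_le, rfl⟩), hkwB⟩ ?_ farB1
    (by omega) (by omega) ?_ ?_ ?_ (hatHat c') (by omega) (by omega) ?_ ?_ ?_ ?_
  · exact (B1mem _).2 (Or.inr (Or.inr (Or.inl (Or.inr ⟨i0, hi0, 0, Nat.zero_le _, rfl⟩))))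
  · exact (E1mem _).2 (Or.inr ⟨m2, le_rfl, g2m.symm⟩)
  · -- farE
    intro z hz
    rcases (E1mem z).1 hz with ⟨k, hk, hk', rfl⟩ | ⟨k, hk, rfl⟩
    · rcases Nat.lt_or_ge k k2 with h1 | h1
      · left
        intro x hx
        have := hbefore2 k h1 x hx
        omega
      · right
        have hkk : k = k2 := by omega
        subst hkk
        rw [← hm2]
        omega
    · right
      have := (g2near k hk).1
      omega
  · -- locB0
    intro z hz
    rcases (B1mem z).1 hz with ⟨k, hk, rfl⟩ | ⟨k, hk, rfl⟩ | hz | hz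
    · exact ⟨f k, hZhat _ (fm k (by omega)), by rw [SimpleGraph.dist_self]; omega⟩
    · refine ⟨f k0, hZhat _ (fm k0 hk0n), ?_⟩
      have := (gnear k hk).2
      rw [symm]
      omega
    · obtain ⟨y, hy, hy'⟩ := hatHat c z hz
      exact ⟨y, hy, by omega⟩
    · have h3 : G.dist a z ≤ e + 1 := hz
      refine ⟨a, Or.inl haY, ?_⟩
      rw [symm]
      omega
  · -- locE
    intro z hz
    rcases (E1mem z).1 hz with ⟨k, hk, hk', rfl⟩ | ⟨k, hk, rfl⟩
    · exact ⟨f2 k, hZhat _ (f2m k (by omega)), by rw [SimpleGraph.dist_self]; omega⟩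
    · refine ⟨f2 k2, hZhat _ (f2m k2 hk2n), ?_⟩
      have := (g2near k hk).2
      rw [symm]
      omega
  · -- entHat
    intro x hx
    have := hata c' x hx
    omega
  · -- entE
    intro z hz
    rcases (E1mem z).1 hz with ⟨k, hk, hk', rfl⟩ | ⟨k, hk, rfl⟩
    · rcases Nat.lt_or_ge kw k with h1 | h1
      · have h2 := hafter k h1 hk'
        by_contra hcon
        exact h2 ((B1mem _).2 (Or.inr (Or.inr (Or.inr (show G.dist a (f2 k) ≤ e + 1 by omega)))))
      · have hkk : k = kw := by omega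
        subst hkk
        by_contra hcon
        have h2 := hafter (k + 1) (by omega) (by omega)
        have h3 : G.dist (f2 k) (f2 (k + 1)) = 1 :=
          dist_eq_one_iff_adj.2 (f2a k (by omega))
        have h4 := tri a (f2 k) (f2 (k + 1))
        exact h2 ((B1mem _).2 (Or.inr (Or.inr (Or.inr
          (show G.dist a (f2 (k + 1)) ≤ e + 1 by omega)))))
    · have h1 := hata c' a' (Or.inl ha'C)
      have h2 := (g2near k hk).1
      have h3 := tri a (g2 k) a'
      omega
  · -- htB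
    intro z hz
    rcases (B1mem z).1 hz with ⟨k, hk, rfl⟩ | ⟨k, hk, rfl⟩ | hz | hz
    · left
      have := hZh _ (fm k (by omega))
      omega
    · left
      have h1 := hZh _ (fm k0 hk0n)
      have h2 := (gnear k hk).2
      have h3 := hL (f k0) (g k)
      omega
    · rcases hz with hz | ⟨i, hi, s, hs, rfl⟩
      · left
        have := hCh c z hz
        omega
      · right
        exact ⟨i, hI1I (hJI c hi), s, by omega, rfl⟩
    · left
      have h1 : G.dist a z ≤ e + 1 := hz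
      have h2 := hL a z
      have h3 := hYh a haY
      omega
  · -- htE
    intro z hz
    rcases (E1mem z).1 hz with ⟨k, hk, hk', rfl⟩ | ⟨k, hk, rfl⟩
    · have := hZh _ (f2m k (by omega))
      omega
    · have h1 := hZh _ (f2m k2 hk2n)
      have h2 := (g2near k hk).2
      have h3 := hL (f2 k2) (g2 k)
      omega

end FatLadder
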