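import Pool.Agent.FLG.Problem

/-!
# MP_edbb78_co: isometric path complexity of bounded-degree graphs without fat ladder minors

The statements (`Target...`) of the parts of the proof; the problem's definitions are in
`Problem.lean`.
Team: helper24 (lead).  Every `Target` is a `Prop`; the job is to prove `theorem t : Target...`.
-/

universe u

namespace FatLadder

open SimpleGraph

/-! ## Working notions -/

/-- `S` is connected in `G` (the empty set is allowed). -/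
def SC {V : Type u} (G : SimpleGraph V) (S : Set V) : Prop :=
  ∀ x ∈ S, ∀ y ∈ S, ∃ p : G.Walk x y, ∀ z ∈ p.support, z ∈ S

/-- all distances between points of `A` and `B` are at least `r` -/
def Far {V : Type u} (G : SimpleGraph V) (r : ℕ) (A B : Set V) : Prop :=
  ∀ a ∈ A, ∀ b ∈ B, r ≤ G.dist a b

/-- `A` lies in the `r`-neighbourhood of `B` -/
def Within {V : Type u} (G : SimpleGraph V) (r : ℕ) (A B : Set V) : Prop :=
  ∀ a ∈ A, ∃ b ∈ B, G.dist a b ≤ r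

/-- closed ball -/
def Ball {V : Type u} (G : SimpleGraph V) (a : V) (r : ℕ) : Set V := {z | G.dist a z ≤ r}

/-- maximum degree at most `d` -/
def DegLe {V : Type u} (G : SimpleGraph V) (d : ℕ) : Prop := ∀ v, (G.neighborSet v).ncard ≤ d

/-- the integer function `h` is 1-Lipschitz -/
def Lip {V : Type u} (G : SimpleGraph V) (h : V → ℤ) : Prop := ∀ x y, h x ≤ h y + (G.dist x y : ℤ)

/-- Legs `L i 0, ..., L i H` (`i ∈ I`) of heights `0, ..., H`; different legs are at distance at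
least `M`. -/
structure IsLegs {V : Type u} (G : SimpleGraph V) (h : V → ℤ) (H M : ℕ) (L : ℕ → ℕ → V)
    (I : Finset ℕ) : Prop where
  adj : ∀ i ∈ I, ∀ s < H, G.Adj (L i s) (L i (s + 1))
  height : ∀ i ∈ I, ∀ s ≤ H, h (L i s) = s
  far : ∀ i ∈ I, ∀ j ∈ I, i ≠ j → ∀ s ≤ H, ∀ s' ≤ H, M ≤ G.dist (L i s) (L j s')

/-- `Y` together with the full legs. -/
def Hat {V : Type u} (Y : Set V) (L : ℕ → ℕ → V) (I : Finset ℕ) (H : ℕ) : Set V :=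
  Y ∪ {z | ∃ i ∈ I, ∃ s ≤ H, z = L i s}

/-- A fat comb with `t` teeth: blobs `B 0, ..., B (t-1)` and links `E 0, ..., E (t-2)`, starting
at the entrance point `a`. -/
structure IsComb {V : Type u} (G : SimpleGraph V) (h : V → ℤ) (H K R S : ℕ) (L : ℕ → ℕ → V)
    (I : Finset ℕ) (Y : Set V) (a : V) (t : ℕ) (i : ℕ → ℕ) (B E : ℕ → Set V) : Prop where
  idx : ∀ j < t, i j ∈ I
  scB : ∀ j < t, SC G (B j)
  scE : ∀ j, j + 1 < t → SC G (E j)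
  aB : a ∈ B 0
  leg : ∀ j < t, L (i j) 0 ∈ B j
  EB : ∀ j, j + 1 < t → (E j ∩ B j).Nonempty
  EB' : ∀ j, j + 1 < t → (E j ∩ B (j + 1)).Nonempty
  farBB : ∀ j l, j < t → l < t → j ≠ l → Far G (2 * K) (B j) (B l)
  farEB : ∀ j l, j + 1 < t → l < t → l ≠ j → l ≠ j + 1 → Far G (2 * K) (E j) (B l)
  farEE : ∀ j l, j + 1 < t → l + 1 < t → j ≠ l → Far G (2 * K) (E j) (E l)
  locB0 : Within G S (B 0) (Hat Y L I H)
  locB : ∀ j, 1 ≤ j → j < t → Within G R (B j) (Hat Y L I H)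
  locE : ∀ j, j + 1 < t → Within G R (E j) (Hat Y L I H)
  entB : ∀ j, 1 ≤ j → j < t → ∀ z ∈ B j, 2 * R + 6 * K ≤ G.dist a z
  entE : ∀ j, j + 1 < t → ∀ z ∈ E j, 2 * R + 6 * K ≤ G.dist a z
  htB : ∀ j < t, ∀ z ∈ B j, (K : ℤ) ≤ h z ∨ ∃ i' ∈ I, ∃ s ≤ H, z = L i' s
  htE : ∀ j, j + 1 < t → ∀ z ∈ E j, (K : ℤ) ≤ h z

/-! ## Targets -/

/-- **Split lemma.** -/
def TargetSplit : Prop :=
  ∀ d K Q : ℕ, 1 ≤ K → ∃ q0 : ℕ, ∀ (V : Type u) [Finite V] (G : SimpleGraph V), G.Connected →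
    DegLe G d → ∀ (I : Finset ℕ) (X : Set V) (S : ℕ → Set V), X.Nonempty → SC G X →
      (∀ i ∈ I, SC G (S i)) → (∀ i ∈ I, Far G (2 * K) (S i) X) →
      (∀ i ∈ I, ∃ a ∈ S i, ∃ b ∈ X, G.dist a b = 2 * K) →
      (∀ i ∈ I, ∀ j ∈ I, i ≠ j → Far G (2 * K) (S i) (S j)) → q0 ≤ I.card →
      ∃ (C : Fin 2 → Set V) (J : Fin 2 → Finset ℕ),
        (∀ c, J c ⊆ I) ∧ (∀ c, Q ≤ (J c).card) ∧ (∀ c, SC G (C c)) ∧ Far G K (C 0) (C 1) ∧
        (∀ c, ∀ i ∈ J c, S i ⊆ C c) ∧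
        (∀ c, ∀ z ∈ C c, (∃ i ∈ J c, z ∈ S i) ∨ ∃ x ∈ X, G.dist z x ≤ 4 * K)

/-- Comb lemma for a fixed number `t` of teeth. -/
def CombStmt (t : ℕ) : Prop :=
  ∀ d K : ℕ, 1 ≤ K → ∃ q R S M Hm : ℕ, ∀ (V : Type u) [Finite V] (G : SimpleGraph V),
    G.Connected → DegLe G d → ∀ (h : V → ℤ) (H : ℕ) (L : ℕ → ℕ → V) (I : Finset ℕ) (Y : Set V)
      (a : V), Lip G h → Hm ≤ H → IsLegs G h H M L I → SC G Y → (∀ y ∈ Y, (H : ℤ) ≤ h y) →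
      (∀ i ∈ I, L i H ∈ Y) → a ∈ Y → q ≤ I.card →
      ∃ (i : ℕ → ℕ) (B E : ℕ → Set V), IsComb G h H K R S L I Y a t i B E

/-- **Comb lemma.** -/
def TargetComb : Prop := ∀ t : ℕ, 1 ≤ t → CombStmt.{u} t

/-- Removing a big ball around `a` from `Y` leaves a connected piece with many of the points
`e i`. -/
def TargetRemoveBall : Prop :=
  ∀ d ρ q : ℕ, ∃ q' : ℕ, ∀ (V : Type u) [Finite V] (G : SimpleGraph V), G.Connected →
    DegLe G d → ∀ (Y : Set V) (a : V) (I : Finset ℕ) (e : ℕ → V), SC G Y → a ∈ Y →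
      (∀ i ∈ I, e i ∈ Y) → (∀ i ∈ I, ∀ j ∈ I, e i = e j → i = j) → q' ≤ I.card →
      ∃ (Y' : Set V) (I' : Finset ℕ), Y' ⊆ Y ∧ SC G Y' ∧ (∀ y ∈ Y', ρ < G.dist a y) ∧
        I' ⊆ I ∧ (∀ i ∈ I', e i ∈ Y') ∧ q ≤ I'.card

/-- Induction step of the comb lemma. -/
def TargetCombStep : Prop := TargetSplit.{u} → ∀ t : ℕ, 1 ≤ t → CombStmt.{u} t → CombStmt.{u} (t + 1)

/-- Breakpoints on an isometric path which is not covered by `N` `v`-rooted isometric paths. -/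
def TargetBreak : Prop :=
  ∀ (V : Type u) [Finite V] (G : SimpleGraph V), G.Connected → ∀ (v a b : V) (P : G.Walk a b)
    (N : ℕ), P.length = G.dist a b → ¬ CoveredBy G v N {x | x ∈ P.support} →
    (∀ i ≤ P.length, ∀ j ≤ P.length,
      (G.dist (P.getVert i) (P.getVert j) : ℤ) = |(i : ℤ) - j|) ∧
    ∃ br : ℕ → ℕ, (∀ j < N, br j < br (j + 1)) ∧ br N ≤ P.length ∧
      ∀ j < N, |(G.dist v (P.getVert (br (j + 1))) : ℤ) - G.dist v (P.getVert (br j))|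
        < (br (j + 1) : ℤ) - br j

/-- Legs growing out of a path with many breakpoints. -/
def TargetLegs : Prop :=
  ∀ n H M : ℕ, 1 ≤ H → 2 ≤ n → ∃ N : ℕ, ∀ (V : Type u) [Finite V] (G : SimpleGraph V),
    G.Connected → ∀ (v : V) (Λ : ℕ) (p : ℕ → V) (br : ℕ → ℕ),
      (∀ i ≤ Λ, ∀ j ≤ Λ, (G.dist (p i) (p j) : ℤ) = |(i : ℤ) - j|) →
      (∀ j < N, br j < br (j + 1)) → br N ≤ Λ →
      (∀ j < N, |(G.dist v (p (br (j + 1))) : ℤ) - G.dist v (p (br j))|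
        < (br (j + 1) : ℤ) - br j) →
      ∃ (y : ℕ → ℕ) (L : ℕ → ℕ → V) (Y : Set V) (hP : V → ℕ),
        (∀ x z, hP x ≤ hP z + G.dist x z) ∧ (∀ k ≤ Λ, hP (p k) = 0) ∧
        (∀ i < n, y i ≤ Λ) ∧ (∀ i < n, L i 0 = p (y i)) ∧
        (∀ i < n, ∀ j < n, i < j → y i + M ≤ y j) ∧
        (∀ i < n, ∀ s < H, G.Adj (L i s) (L i (s + 1))) ∧
        (∀ i < n, ∀ s ≤ H, hP (L i s) = s) ∧
        (∀ i < n, ∀ j < n, i ≠ j → ∀ s ≤ H, ∀ s' ≤ H, M ≤ G.dist (L i s) (L j s')) ∧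
        SC G Y ∧ (∀ z ∈ Y, H ≤ hP z) ∧ (∀ i < n, L i H ∈ Y)

/-- From connected link sets to a fat minor. -/
def TargetLinks : Prop :=
  ∀ (V : Type u) [Finite V] (G : SimpleGraph V) (W : Type) (H : SimpleGraph W) (K : ℕ)
    (B : W → Set V) (Lk : Sym2 W → Set V), G.Connected →
    (∀ x, (B x).Nonempty ∧ SC G (B x)) → (∀ e ∈ H.edgeSet, SC G (Lk e)) →
    (∀ e ∈ H.edgeSet, ∀ x ∈ e, (Lk e ∩ B x).Nonempty) →
    (∀ x y, x ≠ y → Far G K (B x) (B y)) →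
    (∀ e ∈ H.edgeSet, ∀ e' ∈ H.edgeSet, e ≠ e' → Far G K (Lk e) (Lk e')) →
    (∀ x, ∀ e ∈ H.edgeSet, x ∉ e → Far G K (B x) (Lk e)) → HasFatMinor G H K

/-- Monotone subsequences. -/
def TargetES : Prop :=
  ∀ t : ℕ, ∃ T : ℕ, 1 ≤ T ∧ ∀ y : ℕ → ℕ, (∀ i < T, ∀ j < T, y i = y j → i = j) →
    ∃ g : ℕ → ℕ, (∀ k < t, g k < T) ∧ (∀ k l, k < l → l < t → g k < g l) ∧
      ((∀ k l, k < l → l < t → y (g k) < y (g l)) ∨ (∀ k l, k < l → l < t → y (g l) < y (g k)))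

/-- A fat caterpillar hanging over a geodesic `p 0, ..., p Λ`: top blobs `B j`, top links `E j`,
rungs `L j 0, ..., L j r` from `p (y j)` to `B j`; monotone feet.  This gives the fat ladder. -/
def TargetGrid : Prop :=
  ∀ (V : Type u) [Finite V] (G : SimpleGraph V), G.Connected → ∀ (K t Λ : ℕ) (p : ℕ → V)
    (y : ℕ → ℕ) (L : ℕ → ℕ → V) (B E : ℕ → Set V) (hP : V → ℕ), 1 ≤ K →
    (∀ i ≤ Λ, ∀ j ≤ Λ, (G.dist (p i) (p j) : ℤ) = |(i : ℤ) - j|) →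
    (∀ x z, hP x ≤ hP z + G.dist x z) → (∀ k ≤ Λ, hP (p k) = 0) →
    (∀ j < t, y j ≤ Λ) →
    ((∀ k l, k < l → l < t → y k + 10 * K ≤ y l) ∨ (∀ k l, k < l → l < t → y l + 10 * K ≤ y k)) →
    (∀ j < t, L j 0 = p (y j)) → (∀ j < t, ∀ s < K, G.Adj (L j s) (L j (s + 1))) →
    (∀ j < t, ∀ s ≤ K, hP (L j s) = s) →
    (∀ j < t, SC G (B j)) → (∀ j, j + 1 < t → SC G (E j)) → (∀ j < t, L j K ∈ B j) →
    (∀ j, j + 1 < t → (E j ∩ B j).Nonempty ∧ (E j ∩ B (j + 1)).Nonempty) →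
    (∀ j < t, ∀ z ∈ B j, K ≤ hP z) → (∀ j, j + 1 < t → ∀ z ∈ E j, K ≤ hP z) →
    (∀ j < t, ∀ l < t, j ≠ l → ∀ s ≤ K, ∀ s' ≤ K, K ≤ G.dist (L j s) (L l s')) →
    (∀ j < t, ∀ l < t, j ≠ l → ∀ s ≤ K, ∀ z ∈ B l, K ≤ G.dist (L j s) z) →
    (∀ j < t, ∀ l, l + 1 < t → ∀ s ≤ K, ∀ z ∈ E l, K ≤ G.dist (L j s) z) →
    (∀ j < t, ∀ l < t, j ≠ l → Far G K (B j) (B l)) →
    (∀ j l, j + 1 < t → l < t → l ≠ j → l ≠ j + 1 → Far G K (E j) (B l)) →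
    (∀ j l, j + 1 < t → l + 1 < t → j ≠ l → Far G K (E j) (E l)) →
    HasFatMinor G (ladder t) K

/-- The main theorem. -/
def TargetMain : Prop :=
  ∃ f : ℕ → ℕ → ℕ → ℕ, ∀ d t K : ℕ, 1 ≤ K → ∀ (V : Type u) [Finite V] (G : SimpleGraph V),
    G.Connected → DegLe G d → ¬ HasFatMinor G (ladder t) K →
    (∀ v, RootBound G v (f d t K)) ∧ sipco G ≤ f d t K ∧ ipco G ≤ f d t K

end FatLadder
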