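/-
The Erdős–Szekeres part of this file is copied from the Mathlib Archive
(Copyright (c) 2020 Bhavik Mehta, Apache 2.0 license, author Bhavik Mehta).
-/
import Pool.Agent.FLG.Defs

/-!
# FLG-ES: monotone subsequences
-/

section ES

open Function Finset

namespace FatLadder.ErdosSz

variable {α β : Type*} [Fintype α] [LinearOrder α] [LinearOrder β] {f : α → β} {i : α}

/-- The possible lengths of an increasing sequence which ends at `i`. -/
private noncomputable def incSequencesTo (f : α → β) (i : α) : Finset ℕ :=
  open scoped Classical in
  image card {t : Finset α | IsGreatest t i ∧ StrictMonoOn f t}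

/-- The possible lengths of a decreasing sequence which ends at `i`. -/
private noncomputable def decSequencesTo (f : α → β) (i : α) : Finset ℕ :=
  open scoped Classical in
  image card {t : Finset α | IsGreatest t i ∧ StrictAntiOn f t}

/-- The singleton sequence is increasing, so 1 is a possible length. -/
private lemma one_mem_incSequencesTo : 1 ∈ incSequencesTo f i := mem_image.2 ⟨{i}, by simp⟩
/-- The singleton sequence is decreasing, so 1 is a possible length. -/
private lemma one_mem_decSequencesTo : 1 ∈ decSequencesTo f i := one_mem_incSequencesTo (β := βᵒᵈ)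

/-- The singleton sequence is increasing, so the set of lengths is nonempty. -/
private lemma incSequencesTo_nonempty : (incSequencesTo f i).Nonempty := ⟨1, one_mem_incSequencesTo⟩
/-- The singleton sequence is decreasing, so the set of lengths is nonempty. -/
private lemma decSequencesTo_nonempty : (decSequencesTo f i).Nonempty := ⟨1, one_mem_decSequencesTo⟩

/-- The maximum length of an increasing sequence which ends at `i`. -/
private noncomputable def maxIncSequencesTo (f : α → β) (i : α) : ℕ :=
  max' (incSequencesTo f i) incSequencesTo_nonempty

/-- The maximum length of a decreasing sequence which ends at `i`. -/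
private noncomputable def maxDecSequencesTo (f : α → β) (i : α) : ℕ :=
  max' (decSequencesTo f i) decSequencesTo_nonempty

private lemma one_le_maxIncSequencesTo : 1 ≤ maxIncSequencesTo f i :=
  le_max' _ _ one_mem_incSequencesTo
private lemma one_le_maxDecSequencesTo : 1 ≤ maxDecSequencesTo f i :=
  le_max' _ _ one_mem_decSequencesTo

private lemma maxIncSequencesTo_mem : maxIncSequencesTo f i ∈ incSequencesTo f i :=
  max'_mem _ incSequencesTo_nonempty
private lemma maxDecSequencesTo_mem : maxDecSequencesTo f i ∈ decSequencesTo f i :=
  max'_mem _ decSequencesTo_nonempty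

/--
We will want to show that if `i ≠ j`, then the pairs
`(maxIncSequencesTo f i, maxDecSequencesTo f i)` and
`(maxIncSequencesTo f j, maxDecSequencesTo f j)` are different.
To this end, we will assume wlog that `i < j`, and show that if `f i < f j`,
then `maxIncSequencesTo f i < maxIncSequencesTo f j`, and later dualise to prove that if `f j < f i`
then `maxDecSequencesTo f i < maxDecSequencesTo f j`.
-/
private lemma maxIncSequencesTo_lt {i j : α} (hij : i < j) (hfij : f i < f j) :
    maxIncSequencesTo f i < maxIncSequencesTo f j := by
  rw [Nat.lt_iff_add_one_le]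
  refine le_max' _ _ ?_
  have : maxIncSequencesTo f i ∈ incSequencesTo f i := max'_mem _ incSequencesTo_nonempty
  simp only [incSequencesTo, mem_image, mem_filter, mem_univ, true_and, and_assoc] at this
  obtain ⟨t, hti, ht₁, ht₂⟩ := this
  simp only [incSequencesTo, mem_image, mem_filter, mem_univ, true_and, and_assoc]
  have : ∀ x ∈ t, x < j := by
    intro x hx
    exact (hti.2 hx).trans_lt hij
  refine ⟨insert j t, ?_, ?_, ?_⟩
  next =>
    convert hti.insert j
    next => simp
    next => rw [max_eq_left hij.le]
  next =>
    simp only [coe_insert]
    rw [strictMonoOn_insert_iff_of_forall_le]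
    · refine ⟨?_, ht₁⟩
      intro x hx hxj
      exact (ht₁.monotoneOn hx hti.1 (hti.2 hx)).trans_lt hfij
    · exact fun x hx ↦ (this x hx).le
  have : j ∉ t := fun hj ↦ lt_irrefl _ (this _ hj)
  simp [this, ht₂]

private lemma maxDecSequencesTo_gt {i j : α} (hij : i < j) (hfij : f j < f i) :
    maxDecSequencesTo f i < maxDecSequencesTo f j :=
  maxIncSequencesTo_lt (β := βᵒᵈ) hij hfij

/--
For each entry, we form a pair of labels consisting of the maximum lengths of increasing and
decreasing sequences ending there.
-/
private noncomputable def paired (f : α → β) (i : α) : ℕ × ℕ :=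
  (maxIncSequencesTo f i, maxDecSequencesTo f i)

/--
By combining the previous two lemmas, we see that since `f` is injective, the pairs of labels
must also be unique.
-/
private lemma paired_injective (hf : Injective f) : Injective (paired f) := by
  apply Injective.of_lt_imp_ne
  intro i j hij q
  cases lt_or_gt_of_ne (hf.ne hij.ne)
  case inl h => exact (maxIncSequencesTo_lt hij h).ne congr($q.1)
  case inr h => exact (maxDecSequencesTo_gt hij h).ne congr($q.2)

/-- **Erdős–Szekeres Theorem**: Given a sequence of more than `r * s` distinct values, there is an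
increasing sequence of length longer than `r` or a decreasing sequence of length longer than `s`.

Proof idea:
We label each value in the sequence with two numbers specifying the longest increasing
subsequence ending there, and the longest decreasing subsequence ending there.
We then show the pair of labels must be unique. Now if there is no increasing sequence longer than
`r` and no decreasing sequence longer than `s`, then there are at most `r * s` possible labels,
which is a contradiction if there are more than `r * s` elements.
-/
theorem erdos_szekeres {r s : ℕ} {f : α → β} (hn : r * s < Fintype.card α) (hf : Injective f) :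
    (∃ t : Finset α, r < #t ∧ StrictMonoOn f t) ∨
      ∃ t : Finset α, s < #t ∧ StrictAntiOn f t := by
  classical
  -- It suffices to prove that there is some `i` where one of the max lengths is bigger than
  -- `r` or `s`, as this corresponds to a monotone sequence of the required length.
  rsuffices ⟨i, hi⟩ : ∃ i, r < maxIncSequencesTo f i ∨ s < maxDecSequencesTo f i
  · refine Or.imp ?_ ?_ hi
    on_goal 1 =>
      have : maxIncSequencesTo f i ∈ image card _ := maxIncSequencesTo_mem
    on_goal 2 =>
      have : maxDecSequencesTo f i ∈ image card _ := maxDecSequencesTo_mem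
    all_goals
      intro hi
      obtain ⟨t, ht₁, ht₂⟩ := mem_image.1 this
      refine ⟨t, by rwa [ht₂], ?_⟩
      rw [mem_filter] at ht₁
      exact ht₁.2.2
  -- If such an `i` does not exist, then our pairs of labels lie in a small set, which is a
  -- contradiction since the pairs are unique.
  by_contra! q
  have : Set.MapsTo (paired f) (univ : Finset α) (Icc 1 r ×ˢ Icc 1 s : Finset _) := by
    simp [paired, one_le_maxIncSequencesTo, one_le_maxDecSequencesTo, Set.MapsTo, *]
  refine hn.not_ge ?_
  simpa using card_le_card_of_injOn (paired f) this (paired_injective hf).injOn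

end FatLadder.ErdosSz

end ES

namespace FatLadder

open FatLadder.ErdosSz

/-- From a large finset in `Fin T` to an increasing function. -/
private lemma exists_g {T t : ℕ} (S : Finset (Fin T)) (hS : t < S.card) :
    ∃ g : ℕ → ℕ, (∀ k < t, ∃ h : g k < T, (⟨g k, h⟩ : Fin T) ∈ S) ∧
      (∀ k l, k < l → l < t → g k < g l) := by
  refine ⟨fun k => if h : k < S.card then ((S.orderEmbOfFin rfl ⟨k, h⟩ : Fin T) : ℕ) else 0,
    ?_, ?_⟩
  · intro k hk
    have h : k < S.card := hk.trans hS
    simp only [dif_pos h]
    exact ⟨(S.orderEmbOfFin rfl ⟨k, h⟩).2, S.orderEmbOfFin_mem rfl ⟨k, h⟩⟩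
  · intro k l hkl hl
    have h : l < S.card := hl.trans hS
    have h' : k < S.card := hkl.trans h
    simp only [dif_pos h, dif_pos h']
    have := (S.orderEmbOfFin rfl).strictMono (show (⟨k, h'⟩ : Fin S.card) < ⟨l, h⟩ from hkl)
    exact this

theorem targetES : TargetES := by
  intro t
  refine ⟨t * t + 1, by omega, ?_⟩
  intro y hy
  have hinj : Function.Injective (fun i : Fin (t * t + 1) => y i) := by
    intro i j hij
    exact Fin.ext (hy i i.2 j j.2 hij)
  rcases erdos_szekeres (r := t) (s := t) (f := fun i : Fin (t * t + 1) => y i)
    (by simp) hinj with ⟨S, hS, hm⟩ | ⟨S, hS, hm⟩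
  · obtain ⟨g, hg1, hg2⟩ := exists_g S hS
    refine ⟨g, fun k hk => (hg1 k hk).1, hg2, Or.inl ?_⟩
    intro k l hkl hl
    obtain ⟨h1, h1'⟩ := hg1 k (hkl.trans hl)
    obtain ⟨h2, h2'⟩ := hg1 l hl
    exact hm h1' h2' (show (⟨g k, h1⟩ : Fin (t * t + 1)) < ⟨g l, h2⟩ from hg2 k l hkl hl)
  · obtain ⟨g, hg1, hg2⟩ := exists_g S hS
    refine ⟨g, fun k hk => (hg1 k hk).1, hg2, Or.inr ?_⟩
    intro k l hkl hl
    obtain ⟨h1, h1'⟩ := hg1 k (hkl.trans hl)
    obtain ⟨h2, h2'⟩ := hg1 l hl
    exact hm h1' h2' (show (⟨g k, h1⟩ : Fin (t * t + 1)) < ⟨g l, h2⟩ from hg2 k l hkl hl)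

end FatLadder
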