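import Pool.Agent.FLG.Defs

/-!
# FLG-GRID: the fat ladder from a fat caterpillar over a geodesic
-/

universe u

namespace FatLadder

open SimpleGraph

namespace Grid

variable {V : Type u} {G : SimpleGraph V}

lemma sc_chain_aux (f : ℕ → V) (lo hi : ℕ)
    (h : ∀ s, lo ≤ s → s < hi → G.Adj (f s) (f (s + 1))) (a : ℕ) (ha : lo ≤ a) :
    ∀ n, a + n ≤ hi → ∃ p : G.Walk (f a) (f (a + n)), ∀ z ∈ p.support,
      ∃ s, lo ≤ s ∧ s ≤ hi ∧ z = f s := by
  intro n
  induction n with
  | zero =>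
    intro hn
    refine ⟨Walk.nil, ?_⟩
    intro z hz
    simp only [Walk.support_nil, List.mem_singleton] at hz
    exact ⟨a, ha, by omega, hz⟩
  | succ n ih =>
    intro hn
    obtain ⟨p, hp⟩ := ih (by omega)
    have hadj : G.Adj (f (a + n)) (f (a + (n + 1))) := h (a + n) (by omega) (by omega)
    refine ⟨p.append (Walk.cons hadj Walk.nil), ?_⟩
    intro z hz
    rw [Walk.mem_support_append_iff] at hz
    rcases hz with hz | hz
    · exact hp z hz
    · simp only [Walk.support_cons, Walk.support_nil, List.mem_cons, List.not_mem_nil,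
        or_false] at hz
      rcases hz with hz | hz
      · exact ⟨a + n, by omega, by omega, hz⟩
      · exact ⟨a + (n + 1), by omega, by omega, hz⟩

lemma sc_chain (f : ℕ → V) (lo hi : ℕ)
    (h : ∀ s, lo ≤ s → s < hi → G.Adj (f s) (f (s + 1))) :
    SC G {z | ∃ s, lo ≤ s ∧ s ≤ hi ∧ z = f s} := by
  rintro x ⟨a, ha1, ha2, rfl⟩ y ⟨b, hb1, hb2, rfl⟩
  rcases le_total a b with hab | hab
  · obtain ⟨n, rfl⟩ : ∃ n, b = a + n := ⟨b - a, by omega⟩
    obtain ⟨p, hp⟩ := sc_chain_aux f lo hi h a ha1 n hb2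
    exact ⟨p, hp⟩
  · obtain ⟨n, rfl⟩ : ∃ n, a = b + n := ⟨a - b, by omega⟩
    obtain ⟨p, hp⟩ := sc_chain_aux f lo hi h b hb1 n ha2
    refine ⟨p.reverse, ?_⟩
    intro z hz
    rw [Walk.support_reverse, List.mem_reverse] at hz
    exact hp z hz

lemma chain_dist (hG : G.Connected) (f : ℕ → V) (hi : ℕ)
    (h : ∀ s, s < hi → G.Adj (f s) (f (s + 1))) : ∀ s ≤ hi, G.dist (f s) (f 0) ≤ s := by
  intro s
  induction s with
  | zero => intro _; simp
  | succ s ih =>
    intro hs
    have h1 := ih (by omega)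
    have h2 : G.dist (f (s + 1)) (f s) = 1 := by
      rw [dist_eq_one_iff_adj]; exact (h s (by omega)).symm
    have h3 := hG.dist_triangle (u := f (s + 1)) (v := f s) (w := f 0)
    omega

/-- type of an edge: `0` top, `1` rung, `2` bottom -/
def ty {t : ℕ} : Sym2 (Fin 2 × Fin t) → ℕ :=
  Sym2.lift ⟨fun a b => a.1.val + b.1.val, fun _ _ => Nat.add_comm _ _⟩

/-- index of an edge -/
def ix {t : ℕ} : Sym2 (Fin 2 × Fin t) → ℕ :=
  Sym2.lift ⟨fun a b => min a.2.val b.2.val, fun _ _ => Nat.min_comm _ _⟩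

lemma edge_cases {t : ℕ} (e : Sym2 (Fin 2 × Fin t)) (he : e ∈ (ladder t).edgeSet) :
    (∃ (k : ℕ) (hk : k + 1 < t), e = s((0, ⟨k, by omega⟩), (0, ⟨k + 1, hk⟩))) ∨
    (∃ (k : ℕ) (hk : k + 1 < t), e = s((1, ⟨k, by omega⟩), (1, ⟨k + 1, hk⟩))) ∨
    (∃ (k : ℕ) (hk : k < t), e = s((0, ⟨k, hk⟩), (1, ⟨k, hk⟩))) := by
  induction e using Sym2.ind with
  | _ a b =>
    rw [mem_edgeSet] at he
    obtain ⟨i, k⟩ := a
    obtain ⟨j, l⟩ := b
    rw [boxProd_adj, pathGraph_adj, pathGraph_adj] at he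
    simp only at he
    rcases he with ⟨h1, h2⟩ | ⟨h1, h2⟩
    · right; right
      subst h2
      refine ⟨k.val, k.isLt, ?_⟩
      have : (i = 0 ∧ j = 1) ∨ (i = 1 ∧ j = 0) := by
        revert h1 i j
        decide
      rcases this with ⟨rfl, rfl⟩ | ⟨rfl, rfl⟩
      · rfl
      · exact Sym2.eq_swap
    · subst h2
      have hi : i = 0 ∨ i = 1 := by
        revert i; decide
      obtain ⟨k, hk⟩ := k
      obtain ⟨l, hl⟩ := l
      simp only at h1
      rcases h1 with h1 | h1
      · subst h1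
        rcases hi with rfl | rfl
        · left; exact ⟨k, by omega, rfl⟩
        · right; left; exact ⟨k, by omega, rfl⟩
      · subst h1
        rcases hi with rfl | rfl
        · left; exact ⟨l, by omega, Sym2.eq_swap⟩
        · right; left; exact ⟨l, by omega, Sym2.eq_swap⟩

end Grid

open Grid in
theorem targetGrid : TargetLinks.{u} → TargetGrid.{u} := by
  intro hlinks V _ G hG K t Λ p y L B E hP hK hgeo hlip hzero hy hmono hL0 hLadj hLh scB scE
    hLB hEB hBh hEh fLL fLB fLE fBB fEB fEE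
  have hadj : ∀ x, x < Λ → G.Adj (p x) (p (x + 1)) := by
    intro x hx
    rw [← dist_eq_one_iff_adj]
    have := hgeo x hx.le (x + 1) hx
    push_cast at this
    have h1 : |(x : ℤ) - (x + 1)| = 1 := by
      have : (x : ℤ) - (x + 1) = -1 := by ring
      rw [this]; rfl
    rw [h1] at this
    exact_mod_cast this
  -- distances between points of the geodesic
  have hpp : ∀ r i j, i ≤ Λ → j ≤ Λ → (i + r ≤ j ∨ j + r ≤ i) → r ≤ G.dist (p i) (p j) := by
    intro r i j hi hj h
    have h1 := hgeo i hi j hj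
    have h2 : (r : ℤ) ≤ |(i : ℤ) - j| := by
      rw [le_abs]
      omega
    omega
  -- rung points
  have hLp : ∀ j, j < t → ∀ s ≤ K, ∀ x ≤ Λ, (x + 2 * K ≤ y j ∨ y j + 2 * K ≤ x) →
      K ≤ G.dist (L j s) (p x) := by
    intro j hj s hs x hx h
    have h1 := chain_dist hG (L j) K (fun s hs => hLadj j hj s hs) s hs
    rw [hL0 j hj] at h1
    have h2 := hpp (2 * K) (y j) x (hy j hj) hx (by omega)
    have h3 := hG.dist_triangle (u := p (y j)) (v := L j s) (w := p x)
    rw [dist_comm (u := p (y j)) (v := L j s)] at h3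
    omega
  -- the sets
  let D : ℕ → Set V := fun k => {z | ∃ x, x ≤ Λ ∧ x ≤ y k + 2 * K ∧ y k ≤ x + 2 * K ∧ z = p x}
  let F : ℕ → Set V := fun k => {z | ∃ x, x ≤ Λ ∧ ((y k + 2 * K ≤ x ∧ x + 2 * K ≤ y (k + 1)) ∨
    (y (k + 1) + 2 * K ≤ x ∧ x + 2 * K ≤ y k)) ∧ z = p x}
  let Rg : ℕ → Set V := fun k => {z | ∃ s, s ≤ K ∧ z = L k s}
  have scD : ∀ k, SC G (D k) := by
    intro k
    have h1 := sc_chain (G := G) p (y k - 2 * K) (min Λ (y k + 2 * K))
      (fun s _ hs => hadj s (by omega))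
    have h2 : D k = {z | ∃ s, y k - 2 * K ≤ s ∧ s ≤ min Λ (y k + 2 * K) ∧ z = p s} := by
      ext z
      constructor
      · rintro ⟨x, h1, h2, h3, h4⟩
        exact ⟨x, by omega, by omega, h4⟩
      · rintro ⟨x, h1, h2, h3⟩
        exact ⟨x, by omega, by omega, by omega, h3⟩
    rw [h2]; exact h1
  have scF : ∀ k, k + 1 < t → SC G (F k) := by
    intro k hk
    have hyk := hy k (by omega)
    have hyk1 := hy (k + 1) hk
    rcases hmono with hm | hm
    · have hm' := hm k (k + 1) (by omega) hk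
      have h1 := sc_chain (G := G) p (y k + 2 * K) (y (k + 1) - 2 * K)
        (fun s _ hs => hadj s (by omega))
      have h2 : F k = {z | ∃ s, y k + 2 * K ≤ s ∧ s ≤ y (k + 1) - 2 * K ∧ z = p s} := by
        ext z
        constructor
        · rintro ⟨x, h1, h2, h3⟩
          exact ⟨x, by omega, by omega, h3⟩
        · rintro ⟨x, h1, h2, h3⟩
          exact ⟨x, by omega, by omega, h3⟩
      rw [h2]; exact h1
    · have hm' := hm k (k + 1) (by omega) hk
      have h1 := sc_chain (G := G) p (y (k + 1) + 2 * K) (y k - 2 * K)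
        (fun s _ hs => hadj s (by omega))
      have h2 : F k = {z | ∃ s, y (k + 1) + 2 * K ≤ s ∧ s ≤ y k - 2 * K ∧ z = p s} := by
        ext z
        constructor
        · rintro ⟨x, h1, h2, h3⟩
          exact ⟨x, by omega, by omega, h3⟩
        · rintro ⟨x, h1, h2, h3⟩
          exact ⟨x, by omega, by omega, h3⟩
      rw [h2]; exact h1
  have scR : ∀ k, k < t → SC G (Rg k) := by
    intro k hk
    have h1 := sc_chain (G := G) (L k) 0 K (fun s _ hs => hLadj k hk s hs)
    have h2 : Rg k = {z | ∃ s, 0 ≤ s ∧ s ≤ K ∧ z = L k s} := by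
      ext z
      constructor
      · rintro ⟨s, h1, h2⟩
        exact ⟨s, by omega, h1, h2⟩
      · rintro ⟨s, _, h1, h2⟩
        exact ⟨s, h1, h2⟩
    rw [h2]; exact h1
  -- heights
  have hD0 : ∀ k, ∀ z ∈ D k, hP z = 0 := by
    rintro k z ⟨x, h1, _, _, rfl⟩
    exact hzero x h1
  have hF0 : ∀ k, ∀ z ∈ F k, hP z = 0 := by
    rintro k z ⟨x, h1, _, rfl⟩
    exact hzero x h1
  have htop : ∀ (S S' : Set V), (∀ z ∈ S, K ≤ hP z) → (∀ z ∈ S', hP z = 0) → Far G K S S' := by
    intro S S' h1 h2 a ha b hb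
    have := hlip a b
    rw [h2 b hb] at this
    have := h1 a ha
    omega
  have hsymm : ∀ (S S' : Set V), Far G K S S' → Far G K S' S := by
    intro S S' h a ha b hb
    rw [dist_comm]; exact h b hb a ha
  -- distances
  have fDD : ∀ k l, k < t → l < t → k ≠ l → Far G K (D k) (D l) := by
    rintro k l hk hl hkl a ⟨x, hx1, hx2, hx3, rfl⟩ b ⟨x', hx1', hx2', hx3', rfl⟩
    refine hpp K x x' hx1 hx1' ?_
    rcases hmono with hm | hm
    · rcases lt_or_gt_of_ne hkl with h | h
      · have := hm k l h hl; omega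
      · have := hm l k h hk; omega
    · rcases lt_or_gt_of_ne hkl with h | h
      · have := hm k l h hl; omega
      · have := hm l k h hk; omega
  -- `y l` is outside of the interval of `F k`
  have hout : ∀ k l x, k + 1 < t → l < t → ((y k + 2 * K ≤ x ∧ x + 2 * K ≤ y (k + 1)) ∨
      (y (k + 1) + 2 * K ≤ x ∧ x + 2 * K ≤ y k)) → (x + 2 * K ≤ y l ∨ y l + 2 * K ≤ x) := by
    intro k l x hk hl hx
    rcases hmono with hm | hm
    · have h0 := hm k (k + 1) (by omega) hk
      rcases Nat.lt_or_ge l (k + 1) with h | h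
      · rcases Nat.lt_or_ge l k with h' | h'
        · have := hm l k h' (by omega); omega
        · have : l = k := by omega
          subst this; omega
      · rcases Nat.lt_or_ge (k + 1) l with h' | h'
        · have := hm (k + 1) l h' hl; omega
        · have : l = k + 1 := by omega
          subst this; omega
    · have h0 := hm k (k + 1) (by omega) hk
      rcases Nat.lt_or_ge l (k + 1) with h | h
      · rcases Nat.lt_or_ge l k with h' | h'
        · have := hm l k h' (by omega); omega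
        · have : l = k := by omega
          subst this; omega
      · rcases Nat.lt_or_ge (k + 1) l with h' | h'
        · have := hm (k + 1) l h' hl; omega
        · have : l = k + 1 := by omega
          subst this; omega
  have hout2 : ∀ k l x, k + 1 < t → l < t → l ≠ k → l ≠ k + 1 →
      ((y k + 2 * K ≤ x ∧ x + 2 * K ≤ y (k + 1)) ∨
      (y (k + 1) + 2 * K ≤ x ∧ x + 2 * K ≤ y k)) → (x + 12 * K ≤ y l ∨ y l + 12 * K ≤ x) := by
    intro k l x hk hl h1 h2 hx
    rcases hmono with hm | hm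
    · have h0 := hm k (k + 1) (by omega) hk
      rcases Nat.lt_or_ge l k with h | h
      · have := hm l k h (by omega); omega
      · have := hm (k + 1) l (by omega) hl; omega
    · have h0 := hm k (k + 1) (by omega) hk
      rcases Nat.lt_or_ge l k with h | h
      · have := hm l k h (by omega); omega
      · have := hm (k + 1) l (by omega) hl; omega
  have fFF : ∀ k l, k < l → l + 1 < t → Far G K (F k) (F l) := by
    rintro k l hkl hl a ⟨x, hx1, hx2, rfl⟩ b ⟨x', hx1', hx2', rfl⟩
    refine hpp K x x' hx1 hx1' ?_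
    have e1 := hout k l x (by omega) (by omega) hx2
    have e2 := hout l l x' (by omega) (by omega) hx2'
    have e3 := hout k (l + 1) x (by omega) (by omega) hx2
    have e4 := hout l k x' (by omega) (by omega) hx2'
    rcases hmono with hm | hm
    · have h0 := hm k (k + 1) (by omega) (by omega)
      have h1 := hm l (l + 1) (by omega) hl
      have h2 : y (k + 1) ≤ y l := by
        rcases Nat.lt_or_ge (k + 1) l with h | h
        · have := hm (k + 1) l h (by omega); omega
        · have : l = k + 1 := by omega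
          rw [this]
      omega
    · have h0 := hm k (k + 1) (by omega) (by omega)
      have h1 := hm l (l + 1) (by omega) hl
      have h2 : y l ≤ y (k + 1) := by
        rcases Nat.lt_or_ge (k + 1) l with h | h
        · have := hm (k + 1) l h (by omega); omega
        · have : l = k + 1 := by omega
          rw [this]
      omega
  have fFR : ∀ k l, k + 1 < t → l < t → Far G K (F k) (Rg l) := by
    rintro k l hk hl a ⟨x, hx1, hx2, rfl⟩ b ⟨s, hs, rfl⟩
    rw [dist_comm]
    exact hLp l hl s hs x hx1 (hout k l x hk hl hx2)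
  have fDF : ∀ l k, l < t → k + 1 < t → l ≠ k → l ≠ k + 1 → Far G K (D l) (F k) := by
    rintro l k hl hk h1 h2 a ⟨x', hx1', hx2', hx3', rfl⟩ b ⟨x, hx1, hx2, rfl⟩
    refine hpp K x' x hx1' hx1 ?_
    have := hout2 k l x hk hl h1 h2 hx2
    omega
  have fDR : ∀ l k, l < t → k < t → l ≠ k → Far G K (D l) (Rg k) := by
    rintro l k hl hk hlk a ⟨x', hx1', hx2', hx3', rfl⟩ b ⟨s, hs, rfl⟩
    rw [dist_comm]
    refine hLp k hk s hs x' hx1' ?_
    rcases hmono with hm | hm
    · rcases lt_or_gt_of_ne hlk with h | h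
      · have := hm l k h hk; omega
      · have := hm k l h hl; omega
    · rcases lt_or_gt_of_ne hlk with h | h
      · have := hm l k h hk; omega
      · have := hm k l h hl; omega
  have fRR : ∀ k l, k < t → l < t → k ≠ l → Far G K (Rg k) (Rg l) := by
    rintro k l hk hl hkl a ⟨s, hs, rfl⟩ b ⟨s', hs', rfl⟩
    exact fLL k hk l hl hkl s hs s' hs'
  have fER : ∀ k l, k + 1 < t → l < t → Far G K (E k) (Rg l) := by
    rintro k l hk hl a ha b ⟨s, hs, rfl⟩
    rw [dist_comm]
    exact fLE l hl k hk s hs a ha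
  have fBR : ∀ l k, l < t → k < t → l ≠ k → Far G K (B l) (Rg k) := by
    rintro l k hl hk hlk a ha b ⟨s, hs, rfl⟩
    rw [dist_comm]
    exact fLB k hk l hl (Ne.symm hlk) s hs a ha
  -- the maps
  let BB : Fin 2 × Fin t → Set V := fun x => if x.1 = 0 then B x.2.val else D x.2.val
  let LL : ℕ → ℕ → Set V := fun τ k => if τ = 0 then E k else if τ = 1 then Rg k else F k
  have hBB0 : ∀ (k : Fin t), BB (0, k) = B k.val := fun k => by simp [BB]
  have hBB1 : ∀ (k : Fin t), BB (1, k) = D k.val := fun k => by simp [BB]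
  let Lk : Sym2 (Fin 2 × Fin t) → Set V := fun e => LL (ty e) (ix e)
  have hLk0 : ∀ (k : ℕ) (hk : k + 1 < t),
      Lk s((0, ⟨k, by omega⟩), (0, ⟨k + 1, hk⟩)) = E k := by
    intro k hk
    simp [Lk, LL, ty, ix]
  have hLk2 : ∀ (k : ℕ) (hk : k + 1 < t),
      Lk s((1, ⟨k, by omega⟩), (1, ⟨k + 1, hk⟩)) = F k := by
    intro k hk
    simp [Lk, LL, ty, ix]
  have hLk1 : ∀ (k : ℕ) (hk : k < t),
      Lk s((0, ⟨k, hk⟩), (1, ⟨k, hk⟩)) = Rg k := by
    intro k hk
    simp [Lk, LL, ty, ix]
  have hfin2 : ∀ i : Fin 2, i = 0 ∨ i = 1 := by decide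
  refine hlinks V G (Fin 2 × Fin t) (ladder t) K BB Lk hG ?_ ?_ ?_ ?_ ?_ ?_
  · -- blobs
    rintro ⟨i, k⟩
    rcases hfin2 i with rfl | rfl
    · rw [hBB0]
      exact ⟨⟨L k.val K, hLB k.val k.isLt⟩, scB k.val k.isLt⟩
    · rw [hBB1]
      exact ⟨⟨p (y k.val), y k.val, hy k.val k.isLt, by omega, by omega, rfl⟩, scD k.val⟩
  · -- links are connected
    intro e he
    rcases edge_cases e he with ⟨k, hk, rfl⟩ | ⟨k, hk, rfl⟩ | ⟨k, hk, rfl⟩
    · rw [hLk0]; exact scE k hk
    · rw [hLk2]; exact scF k hk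
    · rw [hLk1]; exact scR k hk
  · -- links meet the blobs
    intro e he x hx
    rcases edge_cases e he with ⟨k, hk, rfl⟩ | ⟨k, hk, rfl⟩ | ⟨k, hk, rfl⟩
    · rw [hLk0]
      rw [Sym2.mem_iff] at hx
      rcases hx with rfl | rfl
      · rw [hBB0]; exact (hEB k hk).1
      · rw [hBB0]; exact (hEB k hk).2
    · rw [hLk2]
      have hyk := hy k (by omega)
      have hyk1 := hy (k + 1) hk
      rw [Sym2.mem_iff] at hx
      rcases hx with rfl | rfl
      · rw [hBB1]
        rcases hmono with hm | hm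
        · have := hm k (k + 1) (by omega) hk
          exact ⟨p (y k + 2 * K), ⟨y k + 2 * K, by omega, by omega, rfl⟩,
            ⟨y k + 2 * K, by omega, by simp, by simp; omega, rfl⟩⟩
        · have := hm k (k + 1) (by omega) hk
          exact ⟨p (y k - 2 * K), ⟨y k - 2 * K, by omega, by omega, rfl⟩,
            ⟨y k - 2 * K, by omega, by simp; omega, by simp; omega, rfl⟩⟩
      · rw [hBB1]
        rcases hmono with hm | hm
        · have := hm k (k + 1) (by omega) hk
          exact ⟨p (y (k + 1) - 2 * K), ⟨y (k + 1) - 2 * K, by omega, by omega, rfl⟩,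
            ⟨y (k + 1) - 2 * K, by omega, by simp; omega, by simp; omega, rfl⟩⟩
        · have := hm k (k + 1) (by omega) hk
          exact ⟨p (y (k + 1) + 2 * K), ⟨y (k + 1) + 2 * K, by omega, by omega, rfl⟩,
            ⟨y (k + 1) + 2 * K, by omega, by simp, by simp; omega, rfl⟩⟩
    · rw [hLk1]
      rw [Sym2.mem_iff] at hx
      rcases hx with rfl | rfl
      · rw [hBB0]
        exact ⟨L k K, ⟨K, le_rfl, rfl⟩, hLB k hk⟩
      · rw [hBB1]
        exact ⟨p (y k), ⟨0, by omega, (hL0 k hk).symm⟩, ⟨y k, hy k hk, by simp, by simp, rfl⟩⟩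
  · -- blobs are far apart
    rintro ⟨i, k⟩ ⟨j, l⟩ hne
    rcases hfin2 i with rfl | rfl <;> rcases hfin2 j with rfl | rfl
    · rw [hBB0, hBB0]
      exact fBB k.val k.isLt l.val l.isLt (fun h => hne (by rw [Fin.ext h]))
    · rw [hBB0, hBB1]
      exact htop _ _ (hBh k.val k.isLt) (hD0 _)
    · rw [hBB0, hBB1]
      exact hsymm _ _ (htop _ _ (hBh l.val l.isLt) (hD0 _))
    · rw [hBB1, hBB1]
      exact fDD k.val l.val k.isLt l.isLt (fun h => hne (by rw [Fin.ext h]))
  · -- links are far apart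
    intro e he e' he' hne
    rcases edge_cases e he with ⟨k, hk, rfl⟩ | ⟨k, hk, rfl⟩ | ⟨k, hk, rfl⟩ <;>
    rcases edge_cases e' he' with ⟨l, hl, rfl⟩ | ⟨l, hl, rfl⟩ | ⟨l, hl, rfl⟩
    · rw [hLk0, hLk0]
      refine fEE k l hk hl ?_
      rintro rfl; exact hne rfl
    · rw [hLk0, hLk2]
      exact htop _ _ (hEh k hk) (hF0 _)
    · rw [hLk0, hLk1]
      exact fER k l hk hl
    · rw [hLk0, hLk2]
      exact hsymm _ _ (htop _ _ (hEh l hl) (hF0 _))
    · rw [hLk2, hLk2]
      have hkl : k ≠ l := by rintro rfl; exact hne rfl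
      rcases lt_or_gt_of_ne hkl with h | h
      · exact fFF k l h hl
      · exact hsymm _ _ (fFF l k h hk)
    · rw [hLk2, hLk1]
      exact fFR k l hk hl
    · rw [hLk1, hLk0]
      exact hsymm _ _ (fER l k hl hk)
    · rw [hLk1, hLk2]
      exact hsymm _ _ (fFR l k hl hk)
    · rw [hLk1, hLk1]
      refine fRR k l hk hl ?_
      rintro rfl; exact hne rfl
  · -- blobs and links
    rintro ⟨i, l⟩ e he hx
    rcases hfin2 i with rfl | rfl <;>
    rcases edge_cases e he with ⟨k, hk, rfl⟩ | ⟨k, hk, rfl⟩ | ⟨k, hk, rfl⟩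
    · rw [hBB0, hLk0]
      refine hsymm _ _ (fEB k l.val hk l.isLt ?_ ?_)
      · intro h
        apply hx
        rw [Sym2.mem_iff]; left
        rw [Prod.mk.injEq]; exact ⟨rfl, Fin.ext h⟩
      · intro h
        apply hx
        rw [Sym2.mem_iff]; right
        rw [Prod.mk.injEq]; exact ⟨rfl, Fin.ext h⟩
    · rw [hBB0, hLk2]
      exact htop _ _ (hBh l.val l.isLt) (hF0 _)
    · rw [hBB0, hLk1]
      refine fBR l.val k l.isLt hk ?_
      intro h
      apply hx
      rw [Sym2.mem_iff]; left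
      rw [Prod.mk.injEq]; exact ⟨rfl, Fin.ext h⟩
    · rw [hBB1, hLk0]
      exact hsymm _ _ (htop _ _ (hEh k hk) (hD0 _))
    · rw [hBB1, hLk2]
      refine fDF l.val k l.isLt hk ?_ ?_
      · intro h
        apply hx
        rw [Sym2.mem_iff]; left
        rw [Prod.mk.injEq]; exact ⟨rfl, Fin.ext h⟩
      · intro h
        apply hx
        rw [Sym2.mem_iff]; right
        rw [Prod.mk.injEq]; exact ⟨rfl, Fin.ext h⟩
    · rw [hBB1, hLk1]
      refine fDR l.val k l.isLt hk ?_
      intro h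
      apply hx
      rw [Sym2.mem_iff]; right
      rw [Prod.mk.injEq]; exact ⟨rfl, Fin.ext h⟩

end FatLadder
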