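import Pool.Agent.FLG.Defs

/-!
# Job FLG-LEGS: legs growing out of a path with many breakpoints
-/

universe u

namespace FatLadder

open SimpleGraph

namespace LegsAux

variable {V : Type u} {G : SimpleGraph V}

lemma geo_dist (hG : G.Connected) {x y : V} (w : G.Walk x y) (hw : w.length = G.dist x y)
    (m : ℕ) (hm : m ≤ w.length) :
    G.dist x (w.getVert m) = m ∧ G.dist (w.getVert m) y = w.length - m := by
  have h1 : G.dist x (w.getVert m) ≤ m := by
    refine (dist_le (w.take m)).trans ?_
    simp
  have h2 : G.dist (w.getVert m) y ≤ w.length - m := by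
    refine (dist_le (w.drop m)).trans ?_
    simp
  have h3 : G.dist x y ≤ G.dist x (w.getVert m) + G.dist (w.getVert m) y := hG.dist_triangle
  omega

/-- defect -/
def df (l : ℕ → ℕ) (a b : ℕ) : ℤ := (b : ℤ) - a - |(l b : ℤ) - l a|

lemma df_add (l : ℕ → ℕ) (a b c : ℕ) : df l a b + df l b c ≤ df l a c := by
  unfold df
  have h := abs_add_le ((l c : ℤ) - l b) ((l b : ℤ) - l a)
  have e : ((l c : ℤ) - l b) + ((l b : ℤ) - l a) = (l c : ℤ) - l a := by ring
  rw [e] at h
  linarith

lemma df_chain (l br : ℕ → ℕ) (N : ℕ)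
    (h : ∀ j < N, |(l (br (j + 1)) : ℤ) - l (br j)| < (br (j + 1) : ℤ) - br j) (k : ℕ) :
    ∀ j, k + j ≤ N → (j : ℤ) ≤ df l (br k) (br (k + j)) := by
  intro j
  induction j with
  | zero =>
    intro _
    simp [df]
  | succ j ih =>
    intro hj
    have h1 := ih (by omega)
    have h2 : 1 ≤ df l (br (k + j)) (br (k + j + 1)) := by
      have := h (k + j) (by omega)
      unfold df
      linarith
    have h3 := df_add l (br k) (br (k + j)) (br (k + j + 1))
    have e : k + (j + 1) = k + j + 1 := by ring
    rw [e]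
    push_cast
    linarith

lemma br_mono (br : ℕ → ℕ) (N : ℕ) (h : ∀ j < N, br j < br (j + 1)) :
    ∀ a b, a ≤ b → b ≤ N → br a + (b - a) ≤ br b := by
  intro a b hab
  induction b, hab using Nat.le_induction with
  | base => intro _; simp
  | succ b hab ih =>
    intro hb
    have h1 := ih (by omega)
    have h2 := h b (by omega)
    omega

end LegsAux

open LegsAux in
theorem targetLegs : TargetLegs.{u} := by
  intro n H M hH hn
  refine ⟨(n + 2) * (6 * H + M + 5), ?_⟩
  set W := 6 * H + M + 5 with hW
  intro V _ G hG v Λ p br hiso hbr hbrN hdef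
  classical
  set N := (n + 2) * W with hN
  set l : ℕ → ℕ := fun k => G.dist v (p k) with hl
  have hmono := br_mono br N hbr
  have hbrle : ∀ a, a ≤ N → br a ≤ Λ := fun a ha => by
    have := hmono a N ha le_rfl
    omega
  -- Lipschitz and defect nonneg
  have hdf0 : ∀ a b, a ≤ b → b ≤ Λ → 0 ≤ df l a b := by
    intro a b hab hb
    unfold df
    have h1 := hiso a (by omega) b hb
    have h2 : |(a : ℤ) - b| = (b : ℤ) - a := by
      rw [abs_sub_comm, abs_of_nonneg]
      omega
    have h3 : G.dist v (p b) ≤ G.dist v (p a) + G.dist (p a) (p b) := hG.dist_triangle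
    have h4 : G.dist v (p a) ≤ G.dist v (p b) + G.dist (p b) (p a) := hG.dist_triangle
    rw [G.dist_comm (u := p b)] at h4
    rw [h2] at h1
    have : |(l b : ℤ) - l a| ≤ (b : ℤ) - a := by
      rw [abs_le]
      simp only [hl]
      constructor <;> omega
    linarith
  -- the distance to the path
  have hex : ∀ z : V, ∃ m : ℕ, ∃ k ≤ Λ, m = G.dist z (p k) := fun z => ⟨_, 0, Nat.zero_le _, rfl⟩
  set hP : V → ℕ := fun z => Nat.find (hex z) with hhP
  have hP1 : ∀ z, ∃ k ≤ Λ, hP z = G.dist z (p k) := fun z => Nat.find_spec (hex z)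
  have hP2 : ∀ z, ∀ k ≤ Λ, hP z ≤ G.dist z (p k) := fun z k hk =>
    Nat.find_min' (hex z) ⟨k, hk, rfl⟩
  have hP3 : ∀ x z, hP x ≤ hP z + G.dist x z := by
    intro x z
    obtain ⟨k, hk, hk2⟩ := hP1 z
    have h1 := hP2 x k hk
    have h2 : G.dist x (p k) ≤ G.dist x z + G.dist z (p k) := hG.dist_triangle
    omega
  have hP4 : ∀ k ≤ Λ, hP (p k) = 0 := by
    intro k hk
    have := hP2 (p k) k hk
    simpa using this
  -- key lemma
  have key : ∀ k, 2 * H + 1 ≤ k → k + (2 * H + 1) ≤ N → ∀ q : V,
      G.dist (p (br k)) v = G.dist (p (br k)) q + G.dist q v → ∀ y ≤ Λ, G.dist q (p y) ≤ H →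
      br (k - (2 * H + 1)) < y ∧ y < br (k + (2 * H + 1)) := by
    intro k hk1 hk2 q hq y hy hqy
    have h1 : l y ≤ G.dist q v + H := by
      have : G.dist v (p y) ≤ G.dist v q + G.dist q (p y) := hG.dist_triangle
      rw [G.dist_comm (u := v) (v := q)] at this
      simp only [hl]
      omega
    have h2 : G.dist (p (br k)) (p y) ≤ G.dist (p (br k)) q + G.dist q (p y) := hG.dist_triangle
    have h3 := hiso (br k) (hbrle k (by omega)) y hy
    have h4 : l (br k) = G.dist (p (br k)) v := G.dist_comm
    have h5 : |(br k : ℤ) - y| ≤ (l (br k) : ℤ) - l y + 2 * H := by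
      rw [← h3, h4]
      omega
    constructor
    · by_contra hcon
      rw [not_lt] at hcon
      set k' := k - (2 * H + 1) with hk'
      have e : k' + (2 * H + 1) = k := by omega
      have h6 := df_chain l br N hdef k' (2 * H + 1) (by omega)
      rw [e] at h6
      have h7 := hdf0 y (br k') hcon (hbrle k' (by omega))
      have h8 := df_add l y (br k') (br k)
      have h9 := hmono k' k (by omega) (by omega)
      have h10 : |(br k : ℤ) - y| = (br k : ℤ) - y := abs_of_nonneg (by omega)
      have h11 : df l y (br k) ≤ 2 * H := by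
        unfold df
        have := le_abs_self ((l (br k) : ℤ) - l y)
        linarith
      push_cast at h6
      linarith
    · by_contra hcon
      rw [not_lt] at hcon
      have h6 := df_chain l br N hdef k (2 * H + 1) (by omega)
      have h7 := hdf0 (br (k + (2 * H + 1))) y hcon hy
      have h8 := df_add l (br k) (br (k + (2 * H + 1))) y
      have h9 := hmono k (k + (2 * H + 1)) (by omega) (by omega)
      have h10 : |(br k : ℤ) - y| = (y : ℤ) - br k := by
        rw [abs_sub_comm]
        exact abs_of_nonneg (by omega)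
      have h11 : df l (br k) y ≤ 2 * H := by
        unfold df
        have := neg_abs_le ((l y : ℤ) - l (br k))
        linarith
      push_cast at h6
      linarith
  -- the indices
  have hkN : ∀ i < n, 2 * H + 1 ≤ (i + 1) * W ∧ (i + 1) * W + (2 * H + 1) ≤ N := by
    intro i hi
    constructor
    · have : W ≤ (i + 1) * W := Nat.le_mul_of_pos_left W (by omega)
      omega
    · have : (i + 1) * W ≤ n * W := Nat.mul_le_mul_right W (by omega)
      have e : N = n * W + 2 * W := by rw [hN]; ring
      omega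
  have hkk : ∀ i j, i < j → (i + 1) * W + W ≤ (j + 1) * W := by
    intro i j hij
    have : (i + 2) * W ≤ (j + 1) * W := Nat.mul_le_mul_right W (by omega)
    have e : (i + 2) * W = (i + 1) * W + W := by ring
    omega
  -- hP v ≥ H
  have hv : H ≤ hP v := by
    by_contra hcon
    rw [not_le] at hcon
    obtain ⟨y, hy, hy2⟩ := hP1 v
    have h0 := key ((0 + 1) * W) (hkN 0 (by omega)).1 (hkN 0 (by omega)).2 v
      (by simp) y hy (by omega)
    have h1 := key ((1 + 1) * W) (hkN 1 (by omega)).1 (hkN 1 (by omega)).2 v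
      (by simp) y hy (by omega)
    have h2 := hmono ((0 + 1) * W + (2 * H + 1)) ((1 + 1) * W - (2 * H + 1)) (by omega)
      (by have := (hkN 1 (by omega)).2; omega)
    omega
  -- geodesics to v
  have hgeo : ∀ i : ℕ, ∃ q : G.Walk (p (br ((i + 1) * W))) v,
      q.length = G.dist (p (br ((i + 1) * W))) v := fun i => hG.exists_walk_length_eq_dist _ _
  choose q hq using hgeo
  -- last index
  have hlast : ∀ i, i < n → ∃ s ≤ (q i).length, hP ((q i).getVert s) = H ∧
      ∀ m, s ≤ m → m ≤ (q i).length → H ≤ hP ((q i).getVert m) := by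
    intro i hi
    have hP0 : hP ((q i).getVert 0) ≤ H := by
      rw [Walk.getVert_zero, hP4 _ (hbrle _ (by have := (hkN i hi).2; omega))]
      omega
    set s := Nat.findGreatest (fun m => hP ((q i).getVert m) ≤ H) (q i).length with hs
    have hs1 : s ≤ (q i).length := Nat.findGreatest_le _
    have hs2 : hP ((q i).getVert s) ≤ H :=
      Nat.findGreatest_spec (P := fun m => hP ((q i).getVert m) ≤ H) (Nat.zero_le _) hP0
    have hs3 : ∀ m, s < m → m ≤ (q i).length → H < hP ((q i).getVert m) := by
      intro m hm1 hm2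
      have := Nat.findGreatest_is_greatest hm1 hm2
      omega
    have hs4 : H ≤ hP ((q i).getVert s) := by
      by_cases hend : s = (q i).length
      · rw [hend, Walk.getVert_length]
        exact hv
      · have h1 := hs3 (s + 1) (by omega) (by omega)
        have hadj : G.Adj ((q i).getVert s) ((q i).getVert (s + 1)) :=
          (q i).adj_getVert_succ (by omega)
        have h2 := hP3 ((q i).getVert (s + 1)) ((q i).getVert s)
        have h3 : G.dist ((q i).getVert (s + 1)) ((q i).getVert s) = 1 :=
          dist_eq_one_iff_adj.mpr hadj.symm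
        omega
    refine ⟨s, hs1, le_antisymm hs2 hs4, ?_⟩
    intro m hm1 hm2
    rcases eq_or_lt_of_le hm1 with h | h
    · rw [← h]; exact hs4
    · exact (hs3 m h hm2).le
  choose! s hs1 hs2 hs3 using hlast
  -- feet
  have hfoot : ∀ i, i < n → ∃ y ≤ Λ, H = G.dist ((q i).getVert (s i)) (p y) := by
    intro i hi
    obtain ⟨k, hk, hk2⟩ := hP1 ((q i).getVert (s i))
    exact ⟨k, hk, by rw [← hk2, hs2 i hi]⟩
  choose! y hy1 hy2 using hfoot
  have hyk : ∀ i < n, br ((i + 1) * W - (2 * H + 1)) < y i ∧
      y i < br ((i + 1) * W + (2 * H + 1)) := by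
    intro i hi
    refine key _ (hkN i hi).1 (hkN i hi).2 ((q i).getVert (s i)) ?_ (y i) (hy1 i hi)
      (hy2 i hi).symm.le
    have := geo_dist hG (q i) (hq i) (s i) (hs1 i hi)
    have h2 := hs1 i hi
    rw [this.1, this.2, ← hq i]
    omega
  have hyy : ∀ i < n, ∀ j < n, i < j → y i + (M + 2 * H) ≤ y j := by
    intro i hi j hj hij
    have h1 := (hyk i hi).2
    have h2 := (hyk j hj).1
    have h3 := hkk i j hij
    have h4 := hmono ((i + 1) * W + (2 * H + 1)) ((j + 1) * W - (2 * H + 1)) (by omega)
      (by have := (hkN j hj).2; omega)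
    omega
  -- legs
  have hleg : ∀ i : ℕ, ∃ w : G.Walk (p (y i)) ((q i).getVert (s i)),
      w.length = G.dist (p (y i)) ((q i).getVert (s i)) :=
    fun i => hG.exists_walk_length_eq_dist _ _
  choose w hw using hleg
  have hwH : ∀ i < n, (w i).length = H := by
    intro i hi
    rw [hw i, G.dist_comm, ← hy2 i hi]
  have hLd : ∀ i < n, ∀ t ≤ H, G.dist (p (y i)) ((w i).getVert t) = t := by
    intro i hi t ht
    exact (geo_dist hG (w i) (hw i) t (by rw [hwH i hi]; exact ht)).1
  have hLP : ∀ i < n, ∀ t ≤ H, hP ((w i).getVert t) = t := by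
    intro i hi t ht
    have h1 : hP ((w i).getVert t) ≤ t := by
      refine (hP2 _ (y i) (hy1 i hi)).trans ?_
      rw [G.dist_comm, hLd i hi t ht]
    have h2 := hP3 ((q i).getVert (s i)) ((w i).getVert t)
    rw [hs2 i hi] at h2
    have h3 := (geo_dist hG (w i) (hw i) t (by rw [hwH i hi]; exact ht)).2
    rw [hwH i hi] at h3
    rw [G.dist_comm] at h2
    omega
  refine ⟨y, fun i t => (w i).getVert t,
    {z | ∃ i < n, ∃ m, s i ≤ m ∧ m ≤ (q i).length ∧ z = (q i).getVert m}, hP, hP3, hP4, hy1,
    fun i _ => Walk.getVert_zero _, fun i hi j hj hij => ?_, fun i hi t ht => ?_, hLP,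
    fun i hi j hj hij t ht t' ht' => ?_, ?_, ?_, fun i hi => ?_⟩
  · have := hyy i hi j hj hij
    omega
  · exact (w i).adj_getVert_succ (by rw [hwH i hi]; exact ht)
  · have hmain : M + 2 * H ≤ G.dist (p (y i)) (p (y j)) := by
      have h1 := hiso (y i) (hy1 i hi) (y j) (hy1 j hj)
      rcases Nat.lt_or_gt_of_ne hij with h | h
      · have h2 := hyy i hi j hj h
        have h3 : |(y i : ℤ) - y j| = (y j : ℤ) - y i := by
          rw [abs_sub_comm]
          exact abs_of_nonneg (by omega)
        omega
      · have h2 := hyy j hj i hi h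
        have h3 : |(y i : ℤ) - y j| = (y i : ℤ) - y j := abs_of_nonneg (by omega)
        omega
    have h1 := hLd i hi t ht
    have h2 := hLd j hj t' ht'
    have h3 : G.dist (p (y i)) (p (y j)) ≤
        G.dist (p (y i)) ((w i).getVert t) + G.dist ((w i).getVert t) (p (y j)) :=
      hG.dist_triangle
    have h4 : G.dist ((w i).getVert t) (p (y j)) ≤
        G.dist ((w i).getVert t) ((w j).getVert t') + G.dist ((w j).getVert t') (p (y j)) :=
      hG.dist_triangle
    rw [G.dist_comm (u := (w j).getVert t')] at h4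
    show M ≤ G.dist ((w i).getVert t) ((w j).getVert t')
    omega
  · -- connectivity through v
    have hone : ∀ i < n, ∀ m, s i ≤ m → m ≤ (q i).length →
        ∃ r : G.Walk ((q i).getVert m) v, ∀ z ∈ r.support,
          ∃ i < n, ∃ m, s i ≤ m ∧ m ≤ (q i).length ∧ z = (q i).getVert m := by
      intro i hi m hm1 hm2
      refine ⟨(q i).drop m, fun z hz => ?_⟩
      rw [Walk.mem_support_iff_exists_getVert] at hz
      obtain ⟨t, ht, ht2⟩ := hz
      rw [Walk.drop_getVert] at ht
      rw [Walk.drop_length] at ht2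
      exact ⟨i, hi, m + t, by omega, by omega, ht.symm⟩
    intro x hx z hz
    obtain ⟨i, hi, m, hm1, hm2, rfl⟩ := hx
    obtain ⟨j, hj, m', hm1', hm2', rfl⟩ := hz
    obtain ⟨r, hr⟩ := hone i hi m hm1 hm2
    obtain ⟨r', hr'⟩ := hone j hj m' hm1' hm2'
    refine ⟨r.append r'.reverse, fun z hz => ?_⟩
    rw [Walk.mem_support_append_iff, Walk.support_reverse, List.mem_reverse] at hz
    rcases hz with hz | hz
    · exact hr z hz
    · exact hr' z hz
  · rintro z ⟨i, hi, m, hm1, hm2, rfl⟩
    exact hs3 i hi m hm1 hm2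
  · refine ⟨i, hi, s i, le_rfl, hs1 i hi, ?_⟩
    have := (w i).getVert_length
    rw [hwH i hi] at this
    exact this

end FatLadder
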