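import Pool.Agent.FLG.Defs

/-!
# From connected link sets to a fat minor
-/

universe u

namespace FatLadder

open SimpleGraph

/-- Shortest walks inside `S` between two sets. -/
theorem links_path {V : Type u} {G : SimpleGraph V} {S A B : Set V} (hS : SC G S)
    (hA : (S ∩ A).Nonempty) (hB : (S ∩ B).Nonempty) :
    ∃ (a b : V) (p : G.Walk a b), a ∈ A ∧ b ∈ B ∧ p.IsPath ∧ (∀ z ∈ p.support, z ∈ S) ∧
      ∀ z ∈ p.support, z ∈ A ∪ B → z = a ∨ z = b := by
  classical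
  obtain ⟨a₀, ha₀, ha₀'⟩ := hA
  obtain ⟨b₀, hb₀, hb₀'⟩ := hB
  obtain ⟨p₀, hp₀⟩ := hS a₀ ha₀ b₀ hb₀
  let Q : ℕ → Prop := fun n => ∃ (a b : V) (p : G.Walk a b), a ∈ A ∧ b ∈ B ∧
    (∀ z ∈ p.support, z ∈ S) ∧ p.length = n
  have hQ : ∃ n, Q n := ⟨p₀.length, a₀, b₀, p₀, ha₀', hb₀', hp₀, rfl⟩
  obtain ⟨a, b, p, ha, hb, hp, hl⟩ := Nat.find_spec hQ
  have hmin : ∀ (a' b' : V) (p' : G.Walk a' b'), a' ∈ A → b' ∈ B →
      (∀ z ∈ p'.support, z ∈ S) → p.length ≤ p'.length := by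
    intro a' b' p' ha' hb' hp'
    rw [hl]
    exact Nat.find_min' hQ ⟨a', b', p', ha', hb', hp', rfl⟩
  have hsub := p.support_bypass_subset_support
  have hle : p.bypass.length ≤ p.length := p.length_bypass_le_length
  refine ⟨a, b, p.bypass, ha, hb, p.bypass_isPath, fun z hz => hp z (hsub hz), ?_⟩
  intro z hz hzAB
  by_contra hne
  push Not at hne
  rcases hzAB with hzA | hzB
  · have h1 := hmin z b (p.bypass.dropUntil z hz) hzA hb (fun w hw =>
      hp w (hsub (p.bypass.support_dropUntil_subset_support hz hw)))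
    have h2 : (p.bypass.dropUntil z hz).length < p.bypass.length :=
      Walk.length_dropUntil_lt_length hz hne.1
    omega
  · have h1 := hmin a z (p.bypass.takeUntil z hz) ha hzB (fun w hw =>
      hp w (hsub (p.bypass.support_takeUntil_subset_support hz hw)))
    have h2 : (p.bypass.takeUntil z hz).length < p.bypass.length :=
      Walk.length_takeUntil_lt_length hz hne.2
    omega

theorem connected_induce_of_SC {V : Type u} {G : SimpleGraph V} {S : Set V} (hS : SC G S)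
    (hne : S.Nonempty) : ((⊤ : G.Subgraph).induce S).Connected := by
  rw [← connected_induce_iff]
  obtain ⟨x₀, hx₀⟩ := hne
  have : Nonempty S := ⟨⟨x₀, hx₀⟩⟩
  refine ⟨fun x y => ?_⟩
  obtain ⟨p, hp⟩ := hS x.1 x.2 y.1 y.2
  exact ⟨p.induce S hp⟩

theorem targetLinks : TargetLinks.{u} := by
  intro V _ G W H K B Lk _ hB hLk hLB hBB hLL hBL
  classical
  have key : ∀ e : H.edgeSet, ∃ (a b : V) (p : G.Walk a b) (x y : W), (e : Sym2 W) = s(x, y) ∧
      a ∈ B x ∧ b ∈ B y ∧ p.IsPath ∧ (∀ z ∈ p.support, z ∈ Lk e) ∧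
      ∀ z ∈ p.support, z ∈ B x ∪ B y → z = a ∨ z = b := by
    intro e
    obtain ⟨x, y, hxy⟩ : ∃ x y, (e : Sym2 W) = s(x, y) := by
      induction (e : Sym2 W) using Sym2.ind with
      | _ x y => exact ⟨x, y, rfl⟩
    have hx : x ∈ (e : Sym2 W) := by rw [hxy]; simp
    have hy : y ∈ (e : Sym2 W) := by rw [hxy]; simp
    obtain ⟨a, b, p, ha, hb, hp, hps, hpz⟩ := links_path (hLk e e.2) (hLB e e.2 x hx)
      (hLB e e.2 y hy)
    exact ⟨a, b, p, x, y, hxy, ha, hb, hp, hps, hpz⟩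
  choose s t P x y hxy hs ht hP hPL hPz using key
  refine ⟨fun x => (⊤ : G.Subgraph).induce (B x), s, t, P, ?_, hP, ?_, ?_, ?_, ?_⟩
  · intro x
    exact connected_induce_of_SC (hB x).2 (hB x).1
  · intro e
    exact ⟨x e, y e, hxy e, hs e, ht e, hPz e⟩
  · intro x y hne a ha b hb
    exact hBB x y hne a ha b hb
  · intro e e' hne a ha b hb
    exact hLL e e.2 e' e'.2 (fun h => hne (Subtype.ext h)) a (hPL e a ha) b (hPL e' b hb)
  · intro x e hxe a ha b hb
    exact hBL x e e.2 hxe a ha b (hPL e b hb)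

end FatLadder
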