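import Pool.Agent.FLG.Defs

/-!
# FLG-MAIN: assembly of the main theorem
-/

universe u

namespace FatLadder

open SimpleGraph

namespace Main_

variable {V : Type u} {G : SimpleGraph V}

theorem sc_union {S T : Set V} (hS : SC G S) (hT : SC G T) (h : (S ∩ T).Nonempty) :
    SC G (S ∪ T) := by
  obtain ⟨c, hcS, hcT⟩ := h
  intro x hx y hy
  have key : ∀ x ∈ S ∪ T, ∃ p : G.Walk x c, ∀ z ∈ p.support, z ∈ S ∪ T := by
    intro x hx
    rcases hx with hx | hx
    · obtain ⟨p, hp⟩ := hS x hx c hcS
      exact ⟨p, fun z hz => Or.inl (hp z hz)⟩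
    · obtain ⟨p, hp⟩ := hT x hx c hcT
      exact ⟨p, fun z hz => Or.inr (hp z hz)⟩
  obtain ⟨p, hp⟩ := key x hx
  obtain ⟨r, hr⟩ := key y hy
  refine ⟨p.append r.reverse, fun z hz => ?_⟩
  rw [Walk.mem_support_append_iff] at hz
  rcases hz with hz | hz
  · exact hp z hz
  · rw [Walk.support_reverse, List.mem_reverse] at hz
    exact hr z hz

/-- the union of a chain of blobs and links -/
def chain (B E : ℕ → Set V) (a b : ℕ) : Set V :=
  {z | (∃ l, a ≤ l ∧ l < b ∧ z ∈ E l) ∨ (∃ l, a < l ∧ l < b ∧ z ∈ B l)}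

theorem sc_chain (B E : ℕ → Set V) (a m : ℕ)
    (hB : ∀ l, a < l → l < a + m + 1 → SC G (B l))
    (hE : ∀ l, a ≤ l → l < a + m + 1 → SC G (E l))
    (h1 : ∀ l, a < l → l < a + m + 1 → (E l ∩ B l).Nonempty)
    (h2 : ∀ l, a ≤ l → l < a + m → (E l ∩ B (l + 1)).Nonempty) :
    SC G (chain B E a (a + m + 1)) := by
  induction m with
  | zero =>
    have e : chain B E a (a + 0 + 1) = E a := by
      ext z
      constructor
      · rintro (⟨l, hl, hl', hz⟩ | ⟨l, hl, hl', hz⟩)
        · have : l = a := by omega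
          rwa [this] at hz
        · omega
      · intro hz
        exact Or.inl ⟨a, le_rfl, by omega, hz⟩
    rw [e]
    exact hE a le_rfl (by omega)
  | succ m ih =>
    have e : chain B E a (a + (m + 1) + 1) =
        (chain B E a (a + m + 1) ∪ B (a + m + 1)) ∪ E (a + m + 1) := by
      ext z
      constructor
      · rintro (⟨l, hl, hl', hz⟩ | ⟨l, hl, hl', hz⟩)
        · by_cases h : l = a + m + 1
          · rw [h] at hz
            exact Or.inr hz
          · exact Or.inl (Or.inl (Or.inl ⟨l, hl, by omega, hz⟩))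
        · by_cases h : l = a + m + 1
          · rw [h] at hz
            exact Or.inl (Or.inr hz)
          · exact Or.inl (Or.inl (Or.inr ⟨l, hl, by omega, hz⟩))
      · rintro ((h | h) | h)
        · rcases h with ⟨l, hl, hl', hz⟩ | ⟨l, hl, hl', hz⟩
          · exact Or.inl ⟨l, hl, by omega, hz⟩
          · exact Or.inr ⟨l, hl, by omega, hz⟩
        · exact Or.inr ⟨a + m + 1, by omega, by omega, h⟩
        · exact Or.inl ⟨a + m + 1, by omega, by omega, h⟩
    rw [e]
    have ih' := ih (fun l h h' => hB l h (by omega)) (fun l h h' => hE l h (by omega))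
      (fun l h h' => h1 l h (by omega)) (fun l h h' => h2 l h (by omega))
    have s1 : SC G (chain B E a (a + m + 1) ∪ B (a + m + 1)) := by
      refine sc_union ih' (hB _ (by omega) (by omega)) ?_
      obtain ⟨z, hz, hz'⟩ := h2 (a + m) (by omega) (by omega)
      exact ⟨z, Or.inl ⟨a + m, by omega, by omega, hz⟩, hz'⟩
    refine sc_union s1 (hE _ (by omega) (by omega)) ?_
    obtain ⟨z, hz, hz'⟩ := h1 (a + m + 1) (by omega) (by omega)
    exact ⟨z, Or.inr hz', hz⟩

theorem leg_dist (hG : G.Connected) (L : ℕ → V) (H : ℕ)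
    (hadj : ∀ s < H, G.Adj (L s) (L (s + 1))) (s k : ℕ) (hk : s + k ≤ H) :
    G.dist (L s) (L (s + k)) ≤ k := by
  induction k with
  | zero => simp
  | succ k ih =>
    have h1 := ih (by omega)
    have h2 : G.dist (L (s + k)) (L (s + k + 1)) = 1 :=
      dist_eq_one_iff_adj.2 (hadj _ (by omega))
    have h3 := hG.dist_triangle (u := L s) (v := L (s + k)) (w := L (s + k + 1))
    have e : s + (k + 1) = s + k + 1 := by omega
    rw [e]
    omega

theorem core (hC : TargetComb.{u}) (hB : TargetBreak.{u}) (hL : TargetLegs.{u}) (hES : TargetES)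
    (hGr : TargetGrid.{u}) (d t K : ℕ) (hK : 1 ≤ K) :
    ∃ N : ℕ, ∀ (V : Type u) [Finite V] (G : SimpleGraph V), G.Connected → DegLe G d →
      ¬ HasFatMinor G (ladder t) K → ∀ v, RootBound G v N := by
  obtain ⟨T, hT, hmono⟩ := hES t
  obtain ⟨q, R, S, M, Hm, hcomb⟩ := hC T hT d K hK
  obtain ⟨N, hlegs⟩ := hL (max q 2) (Hm + K) (max M (10 * K)) (by omega) (le_max_right _ _)
  refine ⟨N, ?_⟩
  intro V _ G hG hdeg hno v a b P hP hlen
  by_contra hcov
  obtain ⟨hiso, br, hbr, hbrN, hdef⟩ := hB V G hG v a b P N hlen hcov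
  obtain ⟨y, L, Y, hp, hlip, hp0, hyL, hL0, hyy, hadj, hht, hfar, hscY, hYH, hLY⟩ :=
    hlegs V G hG v P.length (fun k => P.getVert k) br hiso hbr hbrN hdef
  clear hlegs
  set n := max q 2 with hn
  have hn0 : 0 < n := lt_of_lt_of_le (by norm_num) (le_max_right q 2)
  have hMM : M ≤ max M (10 * K) := le_max_left _ _
  have hMK : 10 * K ≤ max M (10 * K) := le_max_right _ _
  -- legs for the comb lemma
  have hIs : IsLegs G (fun z => (hp z : ℤ) - K) Hm M (fun i s => L i (s + K))
      (Finset.range n) := by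
    refine ⟨?_, ?_, ?_⟩
    · intro i hi s hs
      have h1 := hadj i (Finset.mem_range.1 hi) (s + K) (by omega)
      have e : s + 1 + K = s + K + 1 := by omega
      simp only [e]
      exact h1
    · intro i hi s hs
      have h1 := hht i (Finset.mem_range.1 hi) (s + K) (by omega)
      simp only [h1]
      push_cast
      ring
    · intro i hi j hj hij s hs s' hs'
      exact hMM.trans (hfar i (Finset.mem_range.1 hi) j (Finset.mem_range.1 hj) hij (s + K)
        (by omega) (s' + K) (by omega))
  have hLip : Lip G (fun z => (hp z : ℤ) - K) := by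
    intro x z
    have h1 := hlip x z
    have h2 : (hp x : ℤ) ≤ hp z + G.dist x z := by exact_mod_cast h1
    simp only
    linarith
  obtain ⟨idx, B, E, hcb⟩ := hcomb V G hG hdeg (fun z => (hp z : ℤ) - K) Hm
    (fun i s => L i (s + K)) (Finset.range n) Y (L 0 (Hm + K)) hLip le_rfl hIs hscY
    (by
      intro z hz
      have h1 := hYH z hz
      have h2 : ((Hm + K : ℕ) : ℤ) ≤ hp z := by exact_mod_cast h1
      push_cast at h2
      linarith)
    (fun i hi => hLY i (Finset.mem_range.1 hi)) (hLY 0 hn0)
    (by rw [Finset.card_range]; exact le_max_left _ _)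
  clear hcomb
  have hidx : ∀ j < T, idx j < n := fun j hj => Finset.mem_range.1 (hcb.idx j hj)
  have hleg : ∀ j < T, L (idx j) K ∈ B j := by
    intro j hj
    have h1 := hcb.leg j hj
    simpa using h1
  -- injectivity of the index map
  have hinj : ∀ j < T, ∀ l < T, idx j = idx l → j = l := by
    intro j hj l hl h
    by_contra hne
    have h1 := hcb.farBB j l hj hl hne (L (idx j) K) (hleg j hj) (L (idx l) K) (hleg l hl)
    rw [h, dist_self] at h1
    omega
  have hymono : ∀ i < n, ∀ j < n, y i < y j → i < j := by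
    intro i hi j hj h
    by_contra hle
    rcases lt_or_eq_of_le (not_lt.1 hle) with h1 | h1
    · have := hyy j hj i hi h1
      omega
    · rw [h1] at h
      exact absurd h (lt_irrefl _)
  have hyinj : ∀ i < n, ∀ j < n, y i = y j → i = j := by
    intro i hi j hj h
    rcases lt_trichotomy i j with h1 | h1 | h1
    · have := hyy i hi j hj h1
      omega
    · exact h1
    · have := hyy j hj i hi h1
      omega
  obtain ⟨g, hgT, hgm, hgy⟩ := hmono (fun j => y (idx j)) (by
    intro i hi j hj h
    exact hinj i hi j hj (hyinj _ (hidx i hi) _ (hidx j hj) h))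
  clear hmono
  -- heights
  have htB : ∀ j < T, ∀ z ∈ B j, (2 * K ≤ hp z) ∨
      ∃ i' < n, ∃ s ≤ Hm, z = L i' (s + K) := by
    intro j hj z hz
    rcases hcb.htB j hj z hz with h1 | ⟨i', hi', s, hs, h1⟩
    · left
      have : ((2 * K : ℕ) : ℤ) ≤ hp z := by
        push_cast
        linarith
      exact_mod_cast this
    · right
      exact ⟨i', Finset.mem_range.1 hi', s, hs, h1⟩
  have htE : ∀ j, j + 1 < T → ∀ z ∈ E j, 2 * K ≤ hp z := by
    intro j hj z hz
    have h1 := hcb.htE j hj z hz
    have : ((2 * K : ℕ) : ℤ) ≤ hp z := by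
      push_cast
      linarith
    exact_mod_cast this
  have htB' : ∀ j < T, ∀ z ∈ B j, K ≤ hp z := by
    intro j hj z hz
    rcases htB j hj z hz with h1 | ⟨i', hi', s, hs, h1⟩
    · omega
    · rw [h1, hht i' hi' (s + K) (by omega)]
      omega
  -- a low point of a leg is far from high points
  have hlow : ∀ i < n, ∀ s ≤ K, ∀ z, 2 * K ≤ hp z → K ≤ G.dist (L i s) z := by
    intro i hi s hs z hz
    have h1 := hlip z (L i s)
    rw [hht i hi s (by omega), SimpleGraph.dist_comm] at h1
    omega
  -- rungs are far from the other blobs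
  have hrung : ∀ j < T, ∀ l < T, j ≠ l → ∀ s ≤ K, ∀ z ∈ B l, K ≤ G.dist (L (idx j) s) z := by
    intro j hj l hl hjl s hs z hz
    rcases htB l hl z hz with h1 | ⟨i', hi', s', hs', h1⟩
    · exact hlow _ (hidx j hj) s hs z h1
    · by_cases hi : idx j = i'
      · -- on the same leg
        have h2 := hcb.farBB j l hj hl hjl (L (idx j) K) (hleg j hj) z hz
        have h3 := leg_dist hG (L i') (Hm + K) (hadj i' hi') K s' (by omega)
        have e : K + s' = s' + K := by omega
        rw [e] at h3
        rw [h1, hi] at h2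
        have h4 : 2 * K ≤ s' := h2.trans h3
        apply hlow _ (hidx j hj) s hs
        rw [h1, hht i' hi' (s' + K) (by omega)]
        omega
      · have h2 := hfar (idx j) (hidx j hj) i' hi' hi s (by omega) (s' + K) (by omega)
        rw [h1]
        omega
  have hgle : ∀ k l, k ≤ l → l < t → g k ≤ g l := by
    intro k l hkl hl
    rcases eq_or_lt_of_le hkl with h | h
    · rw [h]
    · exact (hgm k l h hl).le
  apply hno
  refine hGr V G hG K t P.length (fun k => P.getVert k) (fun j => y (idx (g j)))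
    (fun j => L (idx (g j))) (fun j => B (g j)) (fun j => chain B E (g j) (g (j + 1))) hp
    hK hiso hlip hp0 ?_ ?_ ?_ ?_ ?_ ?_ ?_ ?_ ?_ ?_ ?_ ?_ ?_ ?_ ?_ ?_ ?_
  · -- feet
    intro j hj
    exact hyL _ (hidx _ (hgT j hj))
  · -- monotone feet
    rcases hgy with h | h
    · left
      intro k l hkl hl
      have h1 := hidx _ (hgT k (hkl.trans hl))
      have h2 := hidx _ (hgT l hl)
      have h3 := hyy _ h1 _ h2 (hymono _ h1 _ h2 (h k l hkl hl))
      omega
    · right
      intro k l hkl hl
      have h1 := hidx _ (hgT k (hkl.trans hl))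
      have h2 := hidx _ (hgT l hl)
      have h3 := hyy _ h2 _ h1 (hymono _ h2 _ h1 (h k l hkl hl))
      omega
  · intro j hj
    exact hL0 _ (hidx _ (hgT j hj))
  · intro j hj s hs
    exact hadj _ (hidx _ (hgT j hj)) s (by omega)
  · intro j hj s hs
    exact hht _ (hidx _ (hgT j hj)) s (by omega)
  · intro j hj
    exact hcb.scB _ (hgT j hj)
  · intro j hj
    have h1 := hgm j (j + 1) (Nat.lt_succ_self j) hj
    have h2 := hgT (j + 1) hj
    obtain ⟨m, hm⟩ : ∃ m, g (j + 1) = g j + m + 1 := ⟨g (j + 1) - g j - 1, by omega⟩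
    rw [hm]
    apply sc_chain
    · intro l hl hl'
      exact hcb.scB l (by omega)
    · intro l hl hl'
      exact hcb.scE l (by omega)
    · intro l hl hl'
      exact hcb.EB l (by omega)
    · intro l hl hl'
      exact hcb.EB' l (by omega)
  · intro j hj
    exact hleg _ (hgT j hj)
  · intro j hj
    have h1 := hgm j (j + 1) (Nat.lt_succ_self j) hj
    have h2 := hgT (j + 1) hj
    constructor
    · obtain ⟨z, hz, hz'⟩ := hcb.EB (g j) (by omega)
      exact ⟨z, Or.inl ⟨g j, le_rfl, h1, hz⟩, hz'⟩
    · obtain ⟨z, hz, hz'⟩ := hcb.EB' (g (j + 1) - 1) (by omega)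
      have e : g (j + 1) - 1 + 1 = g (j + 1) := by omega
      rw [e] at hz'
      exact ⟨z, Or.inl ⟨g (j + 1) - 1, by omega, by omega, hz⟩, hz'⟩
  · intro j hj z hz
    exact htB' _ (hgT j hj) z hz
  · intro j hj z hz
    have h2 := hgT (j + 1) hj
    rcases hz with ⟨l, hl, hl', hz⟩ | ⟨l, hl, hl', hz⟩
    · have := htE l (by omega) z hz
      omega
    · exact htB' l (by omega) z hz
  · intro j hj l hl hjl s hs s' hs'
    have h0 : idx (g j) ≠ idx (g l) := by
      intro h
      have h1 := hinj _ (hgT j hj) _ (hgT l hl) h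
      rcases lt_or_gt_of_ne hjl with h2 | h2
      · have := hgm j l h2 hl
        omega
      · have := hgm l j h2 hj
        omega
    have h1 := hfar _ (hidx _ (hgT j hj)) _ (hidx _ (hgT l hl)) h0 s (by omega) s' (by omega)
    omega
  · intro j hj l hl hjl s hs z hz
    refine hrung _ (hgT j hj) _ (hgT l hl) ?_ s hs z hz
    intro h
    rcases lt_or_gt_of_ne hjl with h2 | h2
    · have := hgm j l h2 hl
      omega
    · have := hgm l j h2 hj
      omega
  · intro j hj l hl s hs z hz
    have h2 := hgT (l + 1) hl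
    rcases hz with ⟨m, hm, hm', hz⟩ | ⟨m, hm, hm', hz⟩
    · exact hlow _ (hidx _ (hgT j hj)) s hs z (htE m (by omega) z hz)
    · refine hrung _ (hgT j hj) m (by omega) ?_ s hs z hz
      intro h
      rcases le_or_gt j l with h3 | h3
      · have := hgle j l h3 (by omega)
        omega
      · have := hgle (l + 1) j h3 hj
        omega
  · intro j hj l hl hjl x hx z hz
    have h0 : g j ≠ g l := by
      intro h
      rcases lt_or_gt_of_ne hjl with h2 | h2
      · have := hgm j l h2 hl
        omega
      · have := hgm l j h2 hj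
        omega
    have := hcb.farBB (g j) (g l) (hgT j hj) (hgT l hl) h0 x hx z hz
    omega
  · intro j l hj hl hlj hlj' x hx z hz
    have h2 := hgT (j + 1) hj
    have h3 : g l < g j ∨ g (j + 1) < g l := by
      rcases lt_or_gt_of_ne hlj with h | h
      · exact Or.inl (hgm l j h (by omega))
      · exact Or.inr (hgm (j + 1) l (by omega) hl)
    rcases hx with ⟨m, hm, hm', hx⟩ | ⟨m, hm, hm', hx⟩
    · have := hcb.farEB m (g l) (by omega) (hgT l hl) (by omega) (by omega) x hx z hz
      omega
    · have := hcb.farBB m (g l) (by omega) (hgT l hl) (by omega) x hx z hz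
      omega
  · -- links are far from links
    have key : ∀ j l, j < l → l + 1 < t →
        Far G K (chain B E (g j) (g (j + 1))) (chain B E (g l) (g (l + 1))) := by
      intro j l hjl hl x hx z hz
      have h1 := hgT (l + 1) hl
      have h3 : g (j + 1) ≤ g l := hgle (j + 1) l hjl (by omega)
      have h4 : g l < g (l + 1) := hgm l (l + 1) (Nat.lt_succ_self l) hl
      rcases hx with ⟨m, hm, hm', hx⟩ | ⟨m, hm, hm', hx⟩
      · rcases hz with ⟨m', hn1, hn2, hz⟩ | ⟨m', hn1, hn2, hz⟩
        · have := hcb.farEE m m' (by omega) (by omega) (by omega) x hx z hz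
          omega
        · have := hcb.farEB m m' (by omega) (by omega) (by omega) (by omega) x hx z hz
          omega
      · rcases hz with ⟨m', hn1, hn2, hz⟩ | ⟨m', hn1, hn2, hz⟩
        · have := hcb.farEB m' m (by omega) (by omega) (by omega) (by omega) z hz x hx
          rw [SimpleGraph.dist_comm]
          omega
        · have := hcb.farBB m m' (by omega) (by omega) (by omega) x hx z hz
          omega
    intro j l hj hl hjl
    rcases lt_or_gt_of_ne hjl with h | h
    · exact key j l h hl
    · intro x hx z hz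
      rw [SimpleGraph.dist_comm]
      exact key l j h hj z hz x hx

end Main_

theorem targetMain : TargetComb.{u} → TargetBreak.{u} → TargetLegs.{u} → TargetES →
    TargetGrid.{u} → TargetMain.{u} := by
  intro hC hB hL hES hGr
  have h : ∀ d t K : ℕ, ∃ N : ℕ, 1 ≤ K → ∀ (V : Type u) [Finite V] (G : SimpleGraph V),
      G.Connected → DegLe G d → ¬ HasFatMinor G (ladder t) K → ∀ v, RootBound G v N := by
    intro d t K
    by_cases hK : 1 ≤ K
    · obtain ⟨N, hN⟩ := Main_.core hC hB hL hES hGr d t K hK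
      exact ⟨N, fun _ => hN⟩
    · exact ⟨0, fun h => absurd h hK⟩
  choose f hf using h
  refine ⟨f, ?_⟩
  intro d t K hK V _ G hG hdeg hno
  have h1 := hf d t K hK V G hG hdeg hno
  refine ⟨h1, Nat.sInf_le h1, ?_⟩
  obtain ⟨v⟩ := hG.nonempty
  exact Nat.sInf_le ⟨v, h1 v⟩

end FatLadder
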