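import Mathlib

/-!
# MP_edbb78_co: definitions of the problem

Fat minors, the two isometric path complexities and the `2 × t` grid.
-/

universe u

namespace FatLadder

open SimpleGraph

/-- `G` contains `H` as a `K`-fat minor: connected subgraphs `B x` for the vertices of `H`, and a
path `P e` for every edge `e = xy` of `H`, which joins `B x` to `B y` and meets `B x ∪ B y` only in
its end-vertices; any two sets among the `B x` and `P e` are at distance at least `K`, except the
pairs `(B x, P e)` with `x` an end of `e`. -/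
def HasFatMinor {V : Type u} {W : Type*} (G : SimpleGraph V) (H : SimpleGraph W) (K : ℕ) : Prop :=
  ∃ (B : W → G.Subgraph) (s t : H.edgeSet → V) (P : ∀ e : H.edgeSet, G.Walk (s e) (t e)),
    (∀ x, (B x).Connected) ∧
    (∀ e, (P e).IsPath) ∧
    (∀ e : H.edgeSet, ∃ x y, (e : Sym2 W) = s(x, y) ∧ s e ∈ (B x).verts ∧ t e ∈ (B y).verts ∧
      ∀ z ∈ (P e).support, z ∈ (B x).verts ∪ (B y).verts → z = s e ∨ z = t e) ∧
    (∀ x y, x ≠ y → ∀ a ∈ (B x).verts, ∀ b ∈ (B y).verts, K ≤ G.dist a b) ∧
    (∀ e e', e ≠ e' → ∀ a ∈ (P e).support, ∀ b ∈ (P e').support, K ≤ G.dist a b) ∧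
    (∀ x (e : H.edgeSet), x ∉ (e : Sym2 W) →
      ∀ a ∈ (B x).verts, ∀ b ∈ (P e).support, K ≤ G.dist a b)

/-- The vertices of `S` are covered by at most `k` isometric paths having `v` as an end-vertex. -/
def CoveredBy {V : Type u} (G : SimpleGraph V) (v : V) (k : ℕ) (S : Set V) : Prop :=
  ∃ (m : ℕ) (w : Fin m → V) (Q : ∀ i, G.Walk v (w i)), m ≤ k ∧
    (∀ i, (Q i).IsPath ∧ (Q i).length = G.dist v (w i)) ∧ ∀ x ∈ S, ∃ i, x ∈ (Q i).support

/-- Every isometric path of `G` has its vertices covered by at most `k` `v`-rooted isometric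
paths. -/
def RootBound {V : Type u} (G : SimpleGraph V) (v : V) (k : ℕ) : Prop :=
  ∀ (a b : V) (P : G.Walk a b), P.IsPath → P.length = G.dist a b →
    CoveredBy G v k {x | x ∈ P.support}

/-- isometric path complexity -/
noncomputable def ipco {V : Type u} (G : SimpleGraph V) : ℕ := sInf {k | ∃ v, RootBound G v k}

/-- strong isometric path complexity -/
noncomputable def sipco {V : Type u} (G : SimpleGraph V) : ℕ := sInf {k | ∀ v, RootBound G v k}

/-- the `2 × t` grid -/
abbrev ladder (t : ℕ) : SimpleGraph (Fin 2 × Fin t) := (pathGraph 2) □ (pathGraph t)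

end FatLadder
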