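import Pool.Agent.FLG.Defs

/-!
# FLG-BALL: removing a ball (job of helper59)
-/

universe u

namespace FatLadder

open SimpleGraph

namespace RemoveBallJob

lemma ball_succ_subset {V : Type u} (G : SimpleGraph V) (hG : G.Connected) (a : V) (r : ℕ) :
    Ball G a (r + 1) ⊆ ⋃ z ∈ Ball G a r, insert z (G.neighborSet z) := by
  intro x hx
  obtain ⟨p, hp⟩ := (hG a x).exists_walk_length_eq_dist
  simp only [Ball, Set.mem_ofPred_eq] at hx
  simp only [Set.mem_iUnion, Ball, Set.mem_ofPred_eq]
  rcases Nat.lt_or_ge (G.dist a x) (r + 1) with h | h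
  · exact ⟨x, by omega, Set.mem_insert _ _⟩
  · have hlen : p.length = r + 1 := by omega
    have hadj : G.Adj (p.getVert r) (p.getVert (r + 1)) := p.adj_getVert_succ (by omega)
    have hend : p.getVert (r + 1) = x := by rw [← hlen]; exact p.getVert_length
    refine ⟨p.getVert r, ?_, ?_⟩
    · refine (SimpleGraph.dist_le (p.take r)).trans ?_
      rw [SimpleGraph.Walk.take_length]
      exact min_le_left _ _
    · rw [hend] at hadj
      exact Set.mem_insert_of_mem _ hadj

lemma ball_card {V : Type u} [Finite V] (G : SimpleGraph V) (hG : G.Connected) (d : ℕ)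
    (hd : DegLe G d) (a : V) (r : ℕ) : (Ball G a r).ncard ≤ (d + 1) ^ r := by
  classical
  induction r with
  | zero =>
    have : Ball G a 0 ⊆ {a} := by
      intro x hx
      simp only [Ball, Set.mem_ofPred_eq, Nat.le_zero] at hx
      rw [Set.mem_singleton_iff]
      exact ((hG a x).dist_eq_zero_iff.1 hx).symm
    calc (Ball G a 0).ncard ≤ ({a} : Set V).ncard := Set.ncard_le_ncard this (Set.toFinite _)
      _ = 1 := Set.ncard_singleton a
      _ = _ := by simp
  | succ r ih =>
    let s : Finset V := (Set.toFinite (Ball G a r)).toFinset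
    have hs : s.card = (Ball G a r).ncard := (Set.ncard_eq_toFinset_card _ _).symm
    have hsub : Ball G a (r + 1) ⊆ ⋃ z ∈ s, insert z (G.neighborSet z) := by
      have := ball_succ_subset G hG a r
      simpa only [s, Set.Finite.mem_toFinset] using this
    calc (Ball G a (r + 1)).ncard ≤ (⋃ z ∈ s, insert z (G.neighborSet z)).ncard :=
          Set.ncard_le_ncard hsub (Set.toFinite _)
      _ ≤ ∑ z ∈ s, (insert z (G.neighborSet z)).ncard := Finset.set_ncard_biUnion_le _ _
      _ ≤ ∑ z ∈ s, (d + 1) := by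
        apply Finset.sum_le_sum
        intro z _
        exact (Set.ncard_insert_le _ _).trans (Nat.add_le_add_right (hd z) 1)
      _ = s.card * (d + 1) := by rw [Finset.sum_const, smul_eq_mul]
      _ ≤ (d + 1) ^ r * (d + 1) := by
        rw [hs]; exact Nat.mul_le_mul_right _ ih
      _ = (d + 1) ^ (r + 1) := by rw [pow_succ]

/-- first entrance into the ball -/
lemma entrance {V : Type u} (G : SimpleGraph V) (hG : G.Connected) (Y : Set V) (a : V) (ρ : ℕ) :
    ∀ (x b : V) (p : G.Walk x b), b = a → (∀ z ∈ p.support, z ∈ Y) → ρ < G.dist a x →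
      ∃ (u : V) (p' : G.Walk x u), G.dist a u ≤ ρ + 1 ∧
        ∀ z ∈ p'.support, z ∈ Y ∧ ρ < G.dist a z := by
  intro x b p
  induction p with
  | nil =>
    intro hb _ h
    rw [hb, SimpleGraph.dist_self] at h
    exact absurd h (Nat.not_lt_zero _)
  | @cons x v b h p ih =>
    intro hb hY hx
    have hxY : x ∈ Y := hY x (by simp)
    by_cases hv : ρ < G.dist a v
    · obtain ⟨u, p', hu, hp'⟩ := ih hb (fun z hz => hY z (by simp [hz])) hv
      refine ⟨u, SimpleGraph.Walk.cons h p', hu, ?_⟩
      intro z hz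
      rw [SimpleGraph.Walk.support_cons, List.mem_cons] at hz
      rcases hz with rfl | hz
      · exact ⟨hxY, hx⟩
      · exact hp' z hz
    · refine ⟨x, SimpleGraph.Walk.nil, ?_, ?_⟩
      · have h1 : G.dist a x ≤ G.dist a v + G.dist v x := hG.dist_triangle
        have h2 : G.dist v x = 1 := SimpleGraph.dist_eq_one_iff_adj.2 h.symm
        omega
      · intro z hz
        rw [SimpleGraph.Walk.support_nil, List.mem_singleton] at hz
        subst hz
        exact ⟨hxY, hx⟩

end RemoveBallJob

open RemoveBallJob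

theorem targetRemoveBall : TargetRemoveBall.{u} := by
  classical
  intro d ρ q
  refine ⟨(d + 1) ^ ρ + (d + 1) ^ (ρ + 1) * q, ?_⟩
  intro V _ G hG hd Y a I e hY haY heY hinj hcard
  -- indices outside the ball
  let If : Finset ℕ := I.filter (fun i => ρ < G.dist a (e i))
  let In : Finset ℕ := I.filter (fun i => ¬ ρ < G.dist a (e i))
  have hsplit : If.card + In.card = I.card := Finset.card_filter_add_card_filter_not _
  have hIn : In.card ≤ (d + 1) ^ ρ := by
    refine le_trans ?_ (ball_card G hG d hd a ρ)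
    rw [Set.ncard_eq_toFinset_card _ (Set.toFinite _)]
    apply Finset.card_le_card_of_injOn e
    · intro i hi
      simp only [In, Finset.coe_filter, Set.mem_ofPred_eq, not_lt] at hi
      simp only [Set.Finite.coe_toFinset, Ball, Set.mem_ofPred_eq]
      exact hi.2
    · intro i hi j hj hij
      exact hinj i (Finset.mem_filter.1 hi).1 j (Finset.mem_filter.1 hj).1 hij
  have hIf : (d + 1) ^ (ρ + 1) * q ≤ If.card := by omega
  -- entrance points
  have hent : ∀ i : ℕ, ∃ u : V, i ∈ If → (G.dist a u ≤ ρ + 1 ∧ ∃ p' : G.Walk (e i) u,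
      ∀ z ∈ p'.support, z ∈ Y ∧ ρ < G.dist a z) := by
    intro i
    by_cases hi : i ∈ If
    · have hi' := Finset.mem_filter.1 hi
      obtain ⟨p, hp⟩ := hY (e i) (heY i hi'.1) a haY
      obtain ⟨u, p', hu, hp'⟩ := entrance G hG Y a ρ (e i) a p rfl hp hi'.2
      exact ⟨u, fun _ => ⟨hu, p', hp'⟩⟩
    · exact ⟨a, fun h => absurd h hi⟩
  choose f hf using hent
  let T : Finset V := (Set.toFinite (Ball G a (ρ + 1))).toFinset
  have hT : T.card ≤ (d + 1) ^ (ρ + 1) := by
    have h1 : T.card = (Ball G a (ρ + 1)).ncard := (Set.ncard_eq_toFinset_card _ _).symm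
    rw [h1]
    exact ball_card G hG d hd a (ρ + 1)
  have hTne : T.Nonempty := ⟨a, by simp [T, Ball]⟩
  obtain ⟨u, huT, hu⟩ := Finset.exists_le_card_fiber_of_mul_le_card_of_maps_to (s := If) (t := T)
    (f := f) (n := q)
    (by
      intro i hi
      simp only [T, Set.Finite.mem_toFinset, Ball, Set.mem_ofPred_eq]
      exact (hf i hi).1) hTne
    (le_trans (Nat.mul_le_mul_right q hT) hIf)
  refine ⟨{z | ∃ p : G.Walk z u, ∀ w ∈ p.support, w ∈ Y ∧ ρ < G.dist a w},
    If.filter (fun i => f i = u), ?_, ?_, ?_, ?_, ?_, hu⟩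
  · rintro z ⟨p, hp⟩
    exact (hp z p.start_mem_support).1
  · rintro x ⟨p, hp⟩ y ⟨p', hp'⟩
    have hmem : ∀ (z : V) (r : G.Walk z u), (∀ w ∈ r.support, w ∈ Y ∧ ρ < G.dist a w) →
        ∀ w ∈ r.support, w ∈ {z | ∃ p : G.Walk z u, ∀ w ∈ p.support, w ∈ Y ∧ ρ < G.dist a w} := by
      intro z r hr w hw
      refine ⟨r.dropUntil w hw, ?_⟩
      intro v hv
      exact hr v (r.support_dropUntil_subset_support hw hv)
    refine ⟨p.append p'.reverse, ?_⟩
    intro z hz
    rw [SimpleGraph.Walk.mem_support_append_iff, SimpleGraph.Walk.support_reverse,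
      List.mem_reverse] at hz
    rcases hz with hz | hz
    · exact hmem x p hp z hz
    · exact hmem y p' hp' z hz
  · rintro y ⟨p, hp⟩
    exact (hp y p.start_mem_support).2
  · intro i hi
    exact (Finset.mem_filter.1 (Finset.mem_filter.1 hi).1).1
  · intro i hi
    obtain ⟨hi1, hi2⟩ := Finset.mem_filter.1 hi
    obtain ⟨-, p', hp'⟩ := hf i hi1
    rw [Set.mem_ofPred_eq, ← hi2]
    exact ⟨p', hp'⟩

end FatLadder
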