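import Pool.Agent.FLG.Basic

/-!
# The split lemma (MP_edbb78_co)
-/

universe u

namespace FatLadder

open SimpleGraph

variable {V : Type u} {G : SimpleGraph V}

/-- A state of the shrinking process: hub `X`, strands `T i`. -/
structure St (G : SimpleGraph V) (K : ℕ) (I : Finset ℕ) (X0 : Set V) (S : ℕ → Set V)
    (X : Set V) (T : ℕ → Set V) : Prop where
  sub : X ⊆ X0
  ne : X.Nonempty
  sc : SC G X
  ini : ∀ i ∈ I, S i ⊆ T i
  scT : ∀ i ∈ I, SC G (T i)
  farX : ∀ i ∈ I, Far G (2 * K) (T i) X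
  att : ∀ i ∈ I, ∃ a ∈ T i, ∃ b ∈ X, G.dist a b = 2 * K
  new : ∀ i ∈ I, ∀ z ∈ T i, z ∈ S i ∨ ∃ x ∈ X0, G.dist z x ≤ 2 * K

/-- closeness of strands -/
def Cl (G : SimpleGraph V) (K : ℕ) (I : Finset ℕ) (T : ℕ → Set V) (i j : ℕ) : Prop :=
  i ∈ I ∧ j ∈ I ∧ ∃ a ∈ T i, ∃ b ∈ T j, G.dist a b < 2 * K

theorem Cl.symm {K : ℕ} {I : Finset ℕ} {T : ℕ → Set V} {i j : ℕ} (h : Cl G K I T i j) :
    Cl G K I T j i := by
  obtain ⟨hi, hj, a, ha, b, hb, hab⟩ := h
  exact ⟨hj, hi, b, hb, a, ha, by rwa [SimpleGraph.dist_comm]⟩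

/-- being in the same component of the closeness graph -/
def Rc (G : SimpleGraph V) (K : ℕ) (I : Finset ℕ) (T : ℕ → Set V) : ℕ → ℕ → Prop :=
  Relation.ReflTransGen (Cl G K I T)

theorem Rc.symm {K : ℕ} {I : Finset ℕ} {T : ℕ → Set V} {i j : ℕ} (h : Rc G K I T i j) :
    Rc G K I T j i := by
  induction h with
  | refl => exact Relation.ReflTransGen.refl
  | tail _ hbc ih => exact (Relation.ReflTransGen.single hbc.symm).trans ih

open Classical in
/-- the component of `i` -/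
noncomputable def comp (G : SimpleGraph V) (K : ℕ) (I : Finset ℕ) (T : ℕ → Set V) (i : ℕ) :
    Finset ℕ := I.filter fun j => Rc G K I T i j

theorem mem_comp {K : ℕ} {I : Finset ℕ} {T : ℕ → Set V} {i j : ℕ} :
    j ∈ comp G K I T i ↔ j ∈ I ∧ Rc G K I T i j := by
  classical
  simp [comp]

theorem comp_eq {K : ℕ} {I : Finset ℕ} {T : ℕ → Set V} {i j : ℕ} (h : Rc G K I T i j) :
    comp G K I T i = comp G K I T j := by
  ext k
  rw [mem_comp, mem_comp]
  constructor
  · rintro ⟨hk, hik⟩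
    exact ⟨hk, h.symm.trans hik⟩
  · rintro ⟨hk, hjk⟩
    exact ⟨hk, h.trans hjk⟩

theorem self_mem_comp {K : ℕ} {I : Finset ℕ} {T : ℕ → Set V} {i : ℕ} (hi : i ∈ I) :
    i ∈ comp G K I T i := mem_comp.mpr ⟨hi, Relation.ReflTransGen.refl⟩

/-- Counting: the components of strands meeting a ball. -/
theorem card_biUnion_comp_le [Finite V] (hG : G.Connected) {d : ℕ} (hd : DegLe G d) {K : ℕ}
    (hK : 1 ≤ K) (I : Finset ℕ) (T : ℕ → Set V) (m : ℕ)
    (hm : ∀ i ∈ I, (comp G K I T i).card ≤ m) (x : V) (r : ℕ) (J : Finset ℕ) (hJ : J ⊆ I)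
    (hmeet : ∀ i ∈ J, ∃ z ∈ T i, G.dist x z ≤ r) :
    (J.biUnion (comp G K I T)).card ≤ (d + 1) ^ r * m := by
  classical
  set 𝒞 : Finset (Finset ℕ) := J.image (comp G K I T) with h𝒞
  have h1 : J.biUnion (comp G K I T) = 𝒞.biUnion id := by
    ext k; simp [h𝒞]
  rw [h1]
  have h2 : 𝒞.card ≤ (d + 1) ^ r := by
    apply card_le_of_meet_ball hG hd x r 𝒞 (fun c => ⋃ j ∈ c, T j)
    · intro c hc c' hc' z hz hz'
      simp only [Set.mem_iUnion] at hz hz'
      obtain ⟨j, hj, hz⟩ := hz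
      obtain ⟨j', hj', hz'⟩ := hz'
      obtain ⟨a, ha, rfl⟩ := Finset.mem_image.mp hc
      obtain ⟨a', ha', rfl⟩ := Finset.mem_image.mp hc'
      rw [mem_comp] at hj hj'
      have hcl : Cl G K I T j j' := ⟨hj.1, hj'.1, z, hz, z, hz', by simp; omega⟩
      exact comp_eq (hj.2.trans ((Relation.ReflTransGen.single hcl).trans hj'.2.symm))
    · intro c hc
      obtain ⟨a, ha, rfl⟩ := Finset.mem_image.mp hc
      obtain ⟨z, hz, hz2⟩ := hmeet a ha
      refine ⟨z, ?_, hz2⟩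
      simp only [Set.mem_iUnion]
      exact ⟨a, self_mem_comp (hJ ha), hz⟩
  have h3 : (𝒞.biUnion id).card ≤ 𝒞.card * m := by
    apply Finset.card_biUnion_le_card_mul
    intro c hc
    obtain ⟨a, ha, rfl⟩ := Finset.mem_image.mp hc
    exact hm a (hJ ha)
  exact h3.trans (Nat.mul_le_mul_right _ h2)

theorem card_meet_le [Finite V] (hG : G.Connected) {d : ℕ} (hd : DegLe G d) {K : ℕ}
    (hK : 1 ≤ K) (I : Finset ℕ) (T : ℕ → Set V) (m : ℕ)
    (hm : ∀ i ∈ I, (comp G K I T i).card ≤ m) (x : V) (r : ℕ) (J : Finset ℕ) (hJ : J ⊆ I)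
    (hmeet : ∀ i ∈ J, ∃ z ∈ T i, G.dist x z ≤ r) : J.card ≤ (d + 1) ^ r * m := by
  classical
  refine le_trans (Finset.card_le_card ?_)
    (card_biUnion_comp_le hG hd hK I T m hm x r J hJ hmeet)
  intro i hi
  rw [Finset.mem_biUnion]
  exact ⟨i, hi, self_mem_comp (hJ hi)⟩

/-- One step of the process: remove a vertex from the hub. -/
theorem St.step [Finite V] (hG : G.Connected) {K : ℕ} {I : Finset ℕ} {X0 : Set V}
    {S : ℕ → Set V} {X : Set V} {T : ℕ → Set V} (h : St G K I X0 S X T)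
    (h1 : ¬ ∃ c, X = {c}) :
    ∃ x ∈ X, ∃ T' : ℕ → Set V, St G K I X0 S (X \ {x}) T' ∧ (∀ i ∈ I, T i ⊆ T' i) ∧
      ∀ i ∈ I, ∀ z ∈ T' i, z ∉ T i → G.dist x z ≤ 2 * K + 1 ∧ ∃ w ∈ T i, G.dist x w ≤ 2 * K := by
  classical
  obtain ⟨x, hx, x', hx', hne, hadj, hsc⟩ := h.sc.exists_remove h.ne h1
  have hx'X : x' ∈ X \ {x} := ⟨hx', hne⟩
  have key : ∀ i, ∃ Ti : Set V, i ∈ I → (T i ⊆ Ti ∧ SC G Ti ∧ Far G (2 * K) Ti (X \ {x}) ∧
      (∃ a ∈ Ti, ∃ b ∈ X \ {x}, G.dist a b = 2 * K) ∧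
      (∀ z ∈ Ti, z ∈ T i ∨ ∃ x ∈ X0, G.dist z x ≤ 2 * K) ∧
      ∀ z ∈ Ti, z ∉ T i → G.dist x z ≤ 2 * K + 1 ∧ ∃ w ∈ T i, G.dist x w ≤ 2 * K) := by
    intro i
    by_cases hi : i ∈ I
    swap
    · exact ⟨∅, fun h => absurd h hi⟩
    by_cases hat : ∃ a ∈ T i, ∃ b ∈ X \ {x}, G.dist a b = 2 * K
    · refine ⟨T i, fun _ => ⟨subset_rfl, h.scT i hi, (h.farX i hi).mono le_rfl subset_rfl
        Set.sdiff_subset, hat, fun z hz => Or.inl hz, fun z hz hz' => absurd hz hz'⟩⟩
    · obtain ⟨a, ha, b, hb, hab⟩ := h.att i hi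
      have hbx : b = x := by
        by_contra hbx
        exact hat ⟨a, ha, b, ⟨hb, hbx⟩, hab⟩
      subst hbx
      have hax' : G.dist a x' = 2 * K + 1 := by
        have e1 := hG.dist_triangle (u := a) (v := b) (w := x')
        have e2 : G.dist b x' = 1 := SimpleGraph.dist_eq_one_iff_adj.mpr hadj
        have e3 := h.farX i hi a ha x' hx'
        have e4 : G.dist a x' ≠ 2 * K := fun e => hat ⟨a, ha, x', hx'X, e⟩
        omega
      have hane : a ≠ x' := by
        rintro rfl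
        simp at hax'
      obtain ⟨u, hu, hu2⟩ := exists_next hG hane
      have hau : G.dist a u = 1 := SimpleGraph.dist_eq_one_iff_adj.mpr hu
      refine ⟨insert u (T i), fun _ => ⟨Set.subset_insert _ _, (h.scT i hi).insert_adj ha hu,
        ?_, ⟨u, Set.mem_insert _ _, x', hx'X, by omega⟩, ?_, ?_⟩⟩
      · intro z hz c hc
        rcases hz with rfl | hz
        · have e1 := hG.dist_triangle (u := a) (v := z) (w := c)
          have e2 := h.farX i hi a ha c hc.1
          have e3 : G.dist a c ≠ 2 * K := fun e => hat ⟨a, ha, c, hc, e⟩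
          omega
        · exact h.farX i hi z hz c hc.1
      · intro z hz
        rcases hz with rfl | hz
        · exact Or.inr ⟨x', h.sub hx', by omega⟩
        · exact Or.inl hz
      · intro z hz hz'
        rcases hz with rfl | hz
        · refine ⟨?_, a, ha, by rw [SimpleGraph.dist_comm]; omega⟩
          have e1 := hG.dist_triangle (u := b) (v := x') (w := z)
          have e2 : G.dist b x' = 1 := SimpleGraph.dist_eq_one_iff_adj.mpr hadj
          have e3 : G.dist x' z = G.dist z x' := SimpleGraph.dist_comm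
          omega
        · exact absurd hz hz'
  choose T' hT' using key
  refine ⟨x, hx, T', ?_, fun i hi => (hT' i hi).1, fun i hi => (hT' i hi).2.2.2.2.2⟩
  refine ⟨Set.sdiff_subset.trans h.sub, ⟨x', hx'X⟩, hsc, fun i hi => (h.ini i hi).trans (hT' i hi).1,
    fun i hi => (hT' i hi).2.1, fun i hi => (hT' i hi).2.2.1, fun i hi => (hT' i hi).2.2.2.1, ?_⟩
  intro i hi z hz
  rcases (hT' i hi).2.2.2.2.1 z hz with hz | hz
  · exact h.new i hi z hz
  · exact Or.inr hz

/-- After one step the components are bounded. -/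
theorem comp_bound [Finite V] (hG : G.Connected) {d : ℕ} (hd : DegLe G d) {K : ℕ}
    (hK : 1 ≤ K) (I : Finset ℕ) (T T' : ℕ → Set V) (Q : ℕ)
    (hQ : ∀ i ∈ I, (comp G K I T i).card ≤ Q) (x : V)
    (hnew : ∀ i ∈ I, ∀ z ∈ T' i, z ∉ T i →
      G.dist x z ≤ 2 * K + 1 ∧ ∃ w ∈ T i, G.dist x w ≤ 2 * K) :
    ∀ i ∈ I, (comp G K I T' i).card ≤ Q + (d + 1) ^ (4 * K + 1) * Q := by
  classical
  set A : Finset ℕ := I.filter (fun i => ∃ z ∈ T i, G.dist x z ≤ 4 * K + 1) with hA
  have hcl : ∀ i j, Cl G K I T' i j → Cl G K I T i j ∨ (i ∈ A ∧ j ∈ A) := by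
    rintro i j ⟨hi, hj, a, ha, b, hb, hab⟩
    have hmemA : ∀ k ∈ I, (∃ z ∈ T k, G.dist x z ≤ 4 * K + 1) → k ∈ A := by
      intro k hk hz
      rw [hA, Finset.mem_filter]; exact ⟨hk, hz⟩
    by_cases ha' : a ∈ T i
    · by_cases hb' : b ∈ T j
      · exact Or.inl ⟨hi, hj, a, ha', b, hb', hab⟩
      · right
        obtain ⟨h1, w, hw, h2⟩ := hnew j hj b hb hb'
        refine ⟨hmemA i hi ⟨a, ha', ?_⟩, hmemA j hj ⟨w, hw, by omega⟩⟩
        have e1 := hG.dist_triangle (u := x) (v := b) (w := a)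
        have e2 : G.dist b a = G.dist a b := SimpleGraph.dist_comm
        omega
    · right
      obtain ⟨h1, w, hw, h2⟩ := hnew i hi a ha ha'
      refine ⟨hmemA i hi ⟨w, hw, by omega⟩, ?_⟩
      by_cases hb' : b ∈ T j
      · refine hmemA j hj ⟨b, hb', ?_⟩
        have e1 := hG.dist_triangle (u := x) (v := a) (w := b)
        omega
      · obtain ⟨h3, w', hw', h4⟩ := hnew j hj b hb hb'
        exact hmemA j hj ⟨w', hw', by omega⟩
  intro i hi
  have hsub : comp G K I T' i ⊆ comp G K I T i ∪ A.biUnion (comp G K I T) := by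
    intro j hj
    rw [mem_comp] at hj
    obtain ⟨hjI, hR⟩ := hj
    have : Rc G K I T i j ∨ ∃ a ∈ A, Rc G K I T a j := by
      clear hjI
      induction hR with
      | refl => exact Or.inl Relation.ReflTransGen.refl
      | @tail b c _ hbc ih =>
        rcases hcl b c hbc with h | ⟨-, hcA⟩
        · rcases ih with ih | ⟨a, ha, ih⟩
          · exact Or.inl (ih.tail h)
          · exact Or.inr ⟨a, ha, ih.tail h⟩
        · exact Or.inr ⟨c, hcA, Relation.ReflTransGen.refl⟩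
    rw [Finset.mem_union, Finset.mem_biUnion]
    rcases this with h | ⟨a, ha, h⟩
    · exact Or.inl (mem_comp.mpr ⟨hjI, h⟩)
    · exact Or.inr ⟨a, ha, mem_comp.mpr ⟨hjI, h⟩⟩
  refine (Finset.card_le_card hsub).trans ((Finset.card_union_le _ _).trans ?_)
  refine Nat.add_le_add (hQ i hi) ?_
  apply card_biUnion_comp_le hG hd hK I T Q hQ x (4 * K + 1) A (Finset.filter_subset _ _)
  intro j hj
  rw [hA, Finset.mem_filter] at hj
  exact hj.2

/-- The conclusion of the split lemma. -/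
def SplitConcl (G : SimpleGraph V) (K Q : ℕ) (I : Finset ℕ) (X0 : Set V) (S : ℕ → Set V) : Prop :=
  ∃ (C : Fin 2 → Set V) (J : Fin 2 → Finset ℕ),
    (∀ c, J c ⊆ I) ∧ (∀ c, Q ≤ (J c).card) ∧ (∀ c, SC G (C c)) ∧ Far G K (C 0) (C 1) ∧
    (∀ c, ∀ i ∈ J c, S i ⊆ C c) ∧
    (∀ c, ∀ z ∈ C c, (∃ i ∈ J c, z ∈ S i) ∨ ∃ x ∈ X0, G.dist z x ≤ 4 * K)

/-- Construction of the two sets when a component is big. -/
theorem St.split [Finite V] (hG : G.Connected) {d : ℕ} (hd : DegLe G d) {K : ℕ} (hK : 1 ≤ K)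
    {I : Finset ℕ} {X0 : Set V} {S : ℕ → Set V} {X : Set V} {T : ℕ → Set V}
    (h : St G K I X0 S X T)
    (hS : ∀ i ∈ I, ∀ j ∈ I, i ≠ j → Far G (2 * K) (S i) (S j)) (Q m : ℕ)
    (hm : ∀ i ∈ I, (comp G K I T i).card ≤ m)
    (hI : m + m * m * ((d + 1) ^ (5 * K) * m) + Q ≤ I.card)
    (i0 : ℕ) (hi0 : i0 ∈ I) (hQ : Q ≤ (comp G K I T i0).card) : SplitConcl G K Q I X0 S := by
  classical
  set Z := comp G K I T i0 with hZ
  have hZI : Z ⊆ I := fun j hj => (mem_comp.mp hj).1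
  -- the pairs
  set Pr : Finset (ℕ × ℕ) := (Z ×ˢ Z).filter (fun e => e.1 ≠ e.2 ∧ Cl G K I T e.1 e.2) with hPr
  have hPrcard : Pr.card ≤ m * m := by
    refine (Finset.card_filter_le _ _).trans ?_
    rw [Finset.card_product]
    exact Nat.mul_le_mul (hm i0 hi0) (hm i0 hi0)
  have hγ : ∀ e : ℕ × ℕ, ∃ (a b : V) (P : Set V), e ∈ Pr → a ∈ T e.1 ∧ b ∈ T e.2 ∧
      G.dist a b < 2 * K ∧ a ∈ P ∧ b ∈ P ∧ SC G P ∧
      ∀ z ∈ P, G.dist a z + G.dist z b = G.dist a b := by
    intro e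
    by_cases he : e ∈ Pr
    · rw [hPr, Finset.mem_filter] at he
      obtain ⟨-, -, -, -, a, ha, b, hb, hab⟩ := he
      obtain ⟨P, h1, h2, h3, h4⟩ := exists_geod_set hG a b
      exact ⟨a, b, P, fun _ => ⟨ha, hb, hab, h1, h2, h3, h4⟩⟩
    · obtain ⟨x, -⟩ := h.ne
      exact ⟨x, x, ∅, fun h => absurd h he⟩
  choose ea eb γ hγ using hγ
  have hg : ∀ l : ℕ, ∃ (a b : V) (P : Set V), l ∈ I → a ∈ T l ∧ b ∈ X ∧
      G.dist a b = 2 * K ∧ a ∈ P ∧ b ∈ P ∧ SC G P ∧
      ∀ z ∈ P, G.dist a z + G.dist z b = G.dist a b := by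
    intro l
    by_cases hl : l ∈ I
    · obtain ⟨a, ha, b, hb, hab⟩ := h.att l hl
      obtain ⟨P, h1, h2, h3, h4⟩ := exists_geod_set hG a b
      exact ⟨a, b, P, fun _ => ⟨ha, hb, hab, h1, h2, h3, h4⟩⟩
    · obtain ⟨x, -⟩ := h.ne
      exact ⟨x, x, ∅, fun h => absurd h hl⟩
  choose ga gb g hg using hg
  -- excluded strands
  set Ex : Finset ℕ := Pr.biUnion fun e => I.filter fun l => ∃ z ∈ T l, G.dist (ea e) z ≤ 5 * K
    with hEx
  have hExcard : Ex.card ≤ m * m * ((d + 1) ^ (5 * K) * m) := by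
    refine (Finset.card_biUnion_le_card_mul _ _ ((d + 1) ^ (5 * K) * m) ?_).trans
      (Nat.mul_le_mul_right _ hPrcard)
    intro e _
    apply card_meet_le hG hd hK I T m hm (ea e) (5 * K) _ (Finset.filter_subset _ _)
    intro i hi
    exact (Finset.mem_filter.mp hi).2
  set J : Finset ℕ := (I \ Z) \ Ex with hJ
  have hJcard : Q ≤ J.card := by
    have h1 : I.card - Z.card ≤ (I \ Z).card := Finset.le_card_sdiff _ _
    have h2 : (I \ Z).card - Ex.card ≤ J.card := Finset.le_card_sdiff _ _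
    have h3 := hm i0 hi0
    rw [← hZ] at h3
    omega
  have hJI : J ⊆ I := fun l hl => (Finset.mem_sdiff.mp (Finset.mem_sdiff.mp hl).1).1
  have hJZ : ∀ l ∈ J, l ∉ Z := fun l hl => (Finset.mem_sdiff.mp (Finset.mem_sdiff.mp hl).1).2
  have hJEx : ∀ l ∈ J, l ∉ Ex := fun l hl => (Finset.mem_sdiff.mp hl).2
  -- distances
  have hZJ : ∀ i ∈ Z, ∀ l ∈ J, Far G (2 * K) (T i) (T l) := by
    intro i hi l hl a ha b hb
    by_contra hcon
    push Not at hcon
    apply hJZ l hl
    have hiI := hZI hi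
    rw [hZ, mem_comp] at hi ⊢
    exact ⟨hJI hl, hi.2.tail ⟨hiI, hJI hl, a, ha, b, hb, hcon⟩⟩
  have hPrmem : ∀ e ∈ Pr, e.1 ∈ Z ∧ e.2 ∈ Z ∧ e.1 ≠ e.2 := by
    intro e he
    rw [hPr, Finset.mem_filter, Finset.mem_product] at he
    exact ⟨he.1.1, he.1.2, he.2.1⟩
  set C0 : Set V := {z | (∃ i ∈ Z, z ∈ T i) ∨ ∃ e ∈ Pr, z ∈ γ e} with hC0
  set C1 : Set V := X ∪ ⋃ l ∈ (J : Set ℕ), (T l ∪ g l) with hC1
  -- connectivity of C0
  obtain ⟨c, hc, -⟩ := h.att i0 hi0
  have hsc0 : SC G C0 := by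
    have hT : ∀ j, Rc G K I T i0 j → ∀ x ∈ T j, j ∈ I →
        ∃ p : G.Walk x c, ∀ z ∈ p.support, z ∈ C0 := by
      intro j hj
      induction hj with
      | refl =>
        intro x hx _
        obtain ⟨p, hp⟩ := h.scT i0 hi0 x hx c hc
        exact ⟨p, fun z hz => Or.inl ⟨i0, self_mem_comp hi0, hp z hz⟩⟩
      | @tail j k hij hjk ih =>
        intro x hx hkI
        have hjI := hjk.1
        have hjZ : j ∈ Z := mem_comp.mpr ⟨hjI, hij⟩
        have hkZ : k ∈ Z := mem_comp.mpr ⟨hkI, hij.tail hjk⟩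
        by_cases hjk' : j = k
        · subst hjk'
          exact ih x hx hkI
        · have he : (j, k) ∈ Pr := by
            rw [hPr, Finset.mem_filter, Finset.mem_product]
            exact ⟨⟨hjZ, hkZ⟩, hjk', hjk⟩
          obtain ⟨h1, h2, h3, h4, h5, h6, h7⟩ := hγ (j, k) he
          obtain ⟨p1, hp1⟩ := h.scT k hkI x hx _ h2
          obtain ⟨p2, hp2⟩ := h6 _ h5 _ h4
          obtain ⟨p3, hp3⟩ := ih _ h1 hjI
          refine ⟨(p1.append p2).append p3, fun z hz => ?_⟩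
          rw [Walk.mem_support_append_iff, Walk.mem_support_append_iff] at hz
          rcases hz with (hz | hz) | hz
          · exact Or.inl ⟨k, hkZ, hp1 z hz⟩
          · exact Or.inr ⟨(j, k), he, hp2 z hz⟩
          · exact hp3 z hz
    apply sc_of_center c
    rintro x (⟨i, hi, hx⟩ | ⟨e, he, hx⟩)
    · exact hT i (mem_comp.mp hi).2 x hx (hZI hi)
    · obtain ⟨h1, h2, h3, h4, h5, h6, h7⟩ := hγ e he
      obtain ⟨p1, hp1⟩ := h6 _ hx _ h4
      obtain ⟨p2, hp2⟩ := hT e.1 (mem_comp.mp (hPrmem e he).1).2 _ h1 (hZI (hPrmem e he).1)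
      refine ⟨p1.append p2, fun z hz => ?_⟩
      rw [Walk.mem_support_append_iff] at hz
      rcases hz with hz | hz
      · exact Or.inr ⟨e, he, hp1 z hz⟩
      · exact hp2 z hz
  have hsc1 : SC G C1 := by
    apply h.sc.union_biUnion
    · intro l hl
      obtain ⟨h1, h2, h3, h4, h5, h6, h7⟩ := hg l (hJI hl)
      exact (h.scT l (hJI hl)).union h6 ⟨_, h1, h4⟩
    · intro l hl
      obtain ⟨h1, h2, h3, h4, h5, h6, h7⟩ := hg l (hJI hl)
      exact ⟨_, Or.inr h5, h2⟩
  -- farness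
  have hfar : Far G K C0 C1 := by
    rintro z (⟨i, hi, hz⟩ | ⟨e, he, hz⟩) w hw
    · rcases hw with hw | hw
      · have := h.farX i (hZI hi) z hz w hw
        omega
      · simp only [Set.mem_iUnion] at hw
        obtain ⟨l, hl, hw | hw⟩ := hw
        · have := hZJ i hi l hl z hz w hw
          omega
        · obtain ⟨h1, h2, h3, h4, h5, h6, h7⟩ := hg l (hJI hl)
          have e1 := h.farX i (hZI hi) z hz _ h2
          have e2 := hZJ i hi l hl z hz _ h1
          have e3 := h7 w hw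
          have e4 := hG.dist_triangle (u := z) (v := w) (w := gb l)
          have e5 := hG.dist_triangle (u := z) (v := w) (w := ga l)
          have e6 : G.dist w (ga l) = G.dist (ga l) w := SimpleGraph.dist_comm
          omega
    · obtain ⟨p1, p2, p3, p4, p5, p6, p7⟩ := hγ e he
      obtain ⟨q1, q2, q3⟩ := hPrmem e he
      have e0 := p7 z hz
      rcases hw with hw | hw
      · have e1 := h.farX e.1 (hZI q1) _ p1 w hw
        have e2 := h.farX e.2 (hZI q2) _ p2 w hw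
        have e3 := hG.dist_triangle (u := ea e) (v := z) (w := w)
        have e4 := hG.dist_triangle (u := eb e) (v := z) (w := w)
        have e5 : G.dist (eb e) z = G.dist z (eb e) := SimpleGraph.dist_comm
        omega
      · simp only [Set.mem_iUnion] at hw
        obtain ⟨l, hl, hw | hw⟩ := hw
        · have e1 := hZJ e.1 q1 l hl _ p1 w hw
          have e2 := hZJ e.2 q2 l hl _ p2 w hw
          have e3 := hG.dist_triangle (u := ea e) (v := z) (w := w)
          have e4 := hG.dist_triangle (u := eb e) (v := z) (w := w)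
          have e5 : G.dist (eb e) z = G.dist z (eb e) := SimpleGraph.dist_comm
          omega
        · by_contra hcon
          push Not at hcon
          apply hJEx l hl
          obtain ⟨h1, h2, h3, h4, h5, h6, h7⟩ := hg l (hJI hl)
          rw [hEx, Finset.mem_biUnion]
          refine ⟨e, he, Finset.mem_filter.mpr ⟨hJI hl, ga l, h1, ?_⟩⟩
          have e3 := h7 w hw
          have e4 := hG.dist_triangle (u := ea e) (v := z) (w := ga l)
          have e5 := hG.dist_triangle (u := z) (v := w) (w := ga l)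
          have e6 : G.dist w (ga l) = G.dist (ga l) w := SimpleGraph.dist_comm
          omega
  refine ⟨![C0, C1], ![Z, J], ?_, ?_, ?_, hfar, ?_, ?_⟩
  · intro c
    fin_cases c
    · exact hZI
    · exact hJI
  · intro c
    fin_cases c
    · exact hQ
    · exact hJcard
  · intro c
    fin_cases c
    · exact hsc0
    · exact hsc1
  · intro c
    fin_cases c
    · intro i hi z hz
      exact Or.inl ⟨i, hi, h.ini i (hZI hi) hz⟩
    · intro i hi z hz
      refine Or.inr ?_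
      simp only [Set.mem_iUnion]
      exact ⟨i, hi, Or.inl (h.ini i (hJI hi) hz)⟩
  · intro c
    fin_cases c
    · rintro z (⟨i, hi, hz⟩ | ⟨e, he, hz⟩)
      · rcases h.new i (hZI hi) z hz with hz | ⟨x, hx, hzx⟩
        · exact Or.inl ⟨i, hi, hz⟩
        · exact Or.inr ⟨x, hx, by omega⟩
      · right
        obtain ⟨p1, p2, p3, p4, p5, p6, p7⟩ := hγ e he
        obtain ⟨q1, q2, q3⟩ := hPrmem e he
        have e0 := p7 z hz
        rcases h.new e.1 (hZI q1) _ p1 with hz1 | ⟨x, hx, hzx⟩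
        · rcases h.new e.2 (hZI q2) _ p2 with hz2 | ⟨x, hx, hzx⟩
          · have := hS e.1 (hZI q1) e.2 (hZI q2) q3 _ hz1 _ hz2
            omega
          · refine ⟨x, hx, ?_⟩
            have e1 := hG.dist_triangle (u := z) (v := eb e) (w := x)
            omega
        · refine ⟨x, hx, ?_⟩
          have e1 := hG.dist_triangle (u := z) (v := ea e) (w := x)
          have e2 : G.dist z (ea e) = G.dist (ea e) z := SimpleGraph.dist_comm
          omega
    · rintro z (hz | hz)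
      · exact Or.inr ⟨z, h.sub hz, by simp⟩
      · simp only [Set.mem_iUnion] at hz
        obtain ⟨l, hl, hz | hz⟩ := hz
        · rcases h.new l (hJI hl) z hz with hz | ⟨x, hx, hzx⟩
          · exact Or.inl ⟨l, hl, hz⟩
          · exact Or.inr ⟨x, hx, by omega⟩
        · obtain ⟨h1, h2, h3, h4, h5, h6, h7⟩ := hg l (hJI hl)
          refine Or.inr ⟨gb l, h.sub h2, ?_⟩
          have := h7 z hz
          omega

/-- The whole process. -/
theorem St.run [Finite V] (hG : G.Connected) {d : ℕ} (hd : DegLe G d) {K : ℕ} (hK : 1 ≤ K)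
    {I : Finset ℕ} {X0 : Set V} {S : ℕ → Set V}
    (hS : ∀ i ∈ I, ∀ j ∈ I, i ≠ j → Far G (2 * K) (S i) (S j)) (Q m : ℕ)
    (hmQ : Q + (d + 1) ^ (4 * K + 1) * Q ≤ m)
    (hI : m + m * m * ((d + 1) ^ (5 * K) * m) + Q ≤ I.card)
    (hI2 : (d + 1) ^ (2 * K) * Q < I.card) :
    ∀ (n : ℕ) (X : Set V) (T : ℕ → Set V), St G K I X0 S X T → X.ncard = n →
      (∀ i ∈ I, (comp G K I T i).card ≤ Q) → SplitConcl G K Q I X0 S := by
  intro n
  induction n with
  | zero =>
    intro X T h hn _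
    have := (Set.ncard_eq_zero (Set.toFinite X)).mp hn
    obtain ⟨x, hx⟩ := h.ne
    rw [this] at hx; exact absurd hx (Set.notMem_empty x)
  | succ n ih =>
    intro X T h hn hQ
    by_cases h1 : ∃ c, X = {c}
    · exfalso
      obtain ⟨c, rfl⟩ := h1
      have : I.card ≤ (d + 1) ^ (2 * K) * Q := by
        apply card_meet_le hG hd hK I T Q hQ c (2 * K) I subset_rfl
        intro i hi
        obtain ⟨a, ha, b, hb, hab⟩ := h.att i hi
        obtain rfl : b = c := hb
        exact ⟨a, ha, by rw [SimpleGraph.dist_comm]; omega⟩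
      omega
    · obtain ⟨x, hx, T', hT', hsub, hnew⟩ := h.step hG h1
      have hb := comp_bound hG hd hK I T T' Q hQ x hnew
      by_cases hsm : ∀ i ∈ I, (comp G K I T' i).card ≤ Q
      · refine ih (X \ {x}) T' hT' ?_ hsm
        rw [Set.ncard_sdiff_singleton_of_mem hx]
        omega
      · push Not at hsm
        obtain ⟨i0, hi0, hQ0⟩ := hsm
        exact hT'.split hG hd hK hS Q m (fun i hi => (hb i hi).trans hmQ) hI i0 hi0 hQ0.le

theorem targetSplit : TargetSplit.{u} := by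
  intro d K Q0 hK
  -- use Q = Q0 + 1
  set Q := Q0 + 1 with hQdef
  set m := Q + (d + 1) ^ (4 * K + 1) * Q with hm
  refine ⟨m + m * m * ((d + 1) ^ (5 * K) * m) + Q + (d + 1) ^ (2 * K) * Q + 1, ?_⟩
  intro V _ G hG hd I X S hne hsc hScS hSfar hSatt hSS hcard
  have hst : St G K I X S X S :=
    ⟨subset_rfl, hne, hsc, fun i _ => subset_rfl, hScS, hSfar, hSatt, fun i _ z hz => Or.inl hz⟩
  have hcomp : ∀ i ∈ I, (comp G K I S i).card ≤ Q := by
    intro i hi
    have : comp G K I S i ⊆ {i} := by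
      intro j hj
      rw [mem_comp] at hj
      rw [Finset.mem_singleton]
      have hR := hj.2
      clear hj
      induction hR with
      | refl => rfl
      | @tail b c _ hbc ih =>
        subst ih
        by_contra hne
        obtain ⟨hb, hc, a, ha, b', hb', hab⟩ := hbc
        have := hSS b hb c hc (fun e => hne e.symm) a ha b' hb'
        omega
    refine (Finset.card_le_card this).trans ?_
    simp [hQdef]
  have := St.run hG hd hK hSS Q m le_rfl (by omega) (by omega) X.ncard X S hst rfl hcomp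
  obtain ⟨C, J, h1, h2, h3, h4, h5, h6⟩ := this
  exact ⟨C, J, h1, fun c => (by have := h2 c; omega), h3, h4, h5, h6⟩

end FatLadder
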